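import Pool.Agent.N553.FG.Rel

set_option autoImplicit false
set_option linter.unusedSectionVars false

open Set Filter Topology Metric
open scoped RealInnerProductSpace

namespace Pool.Agent.N553.FG

section

variable {P : Type*} [NormedAddCommGroup P] [InnerProductSpace ℝ P]

theorem NP.span [FiniteDimensional ℝ P] (hd : Module.finrank ℝ P = 2) {a b : P} (h : NP a b)
    (v : P) : ∃ x y : ℝ, v = x • a + y • b := by
  have h1 : LinearIndependent ℝ ![a, b] := by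
    rw [LinearIndependent.pair_iff]; exact h
  have h2 := h1.span_eq_top_of_card_eq_finrank (by rw [hd]; simp)
  have h3 : v ∈ Submodule.span ℝ (Set.range ![a, b]) := by rw [h2]; trivial
  rw [Matrix.range_cons, Matrix.range_cons, Matrix.range_empty, Set.union_empty,
    Set.singleton_union, Submodule.mem_span_pair] at h3
  obtain ⟨x, y, hxy⟩ := h3
  exact ⟨x, y, hxy.symm⟩

/-- inclusion of orthogonal complements gives proportionality -/
theorem prop_of_perp {s b : P} (hs : s ≠ 0) (h : ∀ w : P, ⟪s, w⟫ = 0 → ⟪b, w⟫ = 0) :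
    ∃ k : ℝ, b = k • s := by
  have hss : ⟪s, s⟫ ≠ 0 := (real_inner_self_pos.2 hs).ne'
  refine ⟨⟪b, s⟫ / ⟪s, s⟫, ?_⟩
  set k := ⟪b, s⟫ / ⟪s, s⟫ with hk
  have h1 : ⟪s, b - k • s⟫ = 0 := by
    rw [inner_sub_right, real_inner_smul_right, hk, div_mul_cancel₀ _ hss, real_inner_comm,
      sub_self]
  have h2 := h _ h1
  have h3 : ⟪b - k • s, b - k • s⟫ = 0 := by
    nth_rewrite 1 [inner_sub_left]
    rw [real_inner_smul_left, h1, h2]; ring
  rwa [inner_self_eq_zero, sub_eq_zero] at h3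

end

variable {V : Type*} [NormedAddCommGroup V] [InnerProductSpace ℝ V] [FiniteDimensional ℝ V]

/-- the intrinsic form at a boundary point with normal `n` -/
structure IForm (K : Set V) (η : V → V) (p n : V)
    (B : (ℝ ∙ n)ᗮ →ₗ[ℝ] (ℝ ∙ n)ᗮ) : Prop where
  sym : ∀ a b, ⟪B a, b⟫ = ⟪a, B b⟫
  pd : ∀ a, a ≠ 0 → 0 < ⟪B a, a⟫
  eq : ∀ a : (ℝ ∙ n)ᗮ, p + (a : V) ∈ frontier K → ∀ v : (ℝ ∙ n)ᗮ,
    ⟪η (p + (a : V)), (v : V)⟫ * ⟪B a, a⟫ = -⟪B a, v⟫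

theorem exists_iform_chart {M K : Set V} {η : V → V} (C : Cfg M K η) {p₁ n₁ : V}
    (c : Chart M p₁ n₁) (W : (ℝ ∙ n₁)ᗮ) {n : V} (hn : n ≠ 0) (hp : Nor M (c.q W) n) :
    ∃ B, IForm K η (c.q W) n B := by
  obtain ⟨r, hr, hσn⟩ := C.smooth hn (c.σ_ne W) hp (c.q_nor W)
  obtain ⟨S, hsym, hpd, hS⟩ := c.exists_S C W
  have hmem : ∀ e, c.hat W e ∈ (ℝ ∙ n)ᗮ := by
    intro e
    rw [Submodule.mem_orthogonal_singleton_iff_inner_right]
    have := c.σ_hat W e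
    rw [hσn, real_inner_smul_left] at this
    exact (mul_eq_zero.1 this).resolve_left hr.ne'
  set Φ₀ : (ℝ ∙ n₁)ᗮ →ₗ[ℝ] (ℝ ∙ n)ᗮ := (c.hat W).codRestrict (ℝ ∙ n)ᗮ hmem with hΦ₀
  have hbij : Function.Bijective Φ₀ := by
    constructor
    · intro e e' h
      exact c.hat_inj W (congrArg Subtype.val h)
    · intro v
      obtain ⟨e, he⟩ := c.hat_surj W (v := v) (by
        rw [hσn, real_inner_smul_left, mem_perp v, mul_zero])
      exact ⟨e, Subtype.ext he⟩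
  set Φ : (ℝ ∙ n₁)ᗮ ≃ₗ[ℝ] (ℝ ∙ n)ᗮ := LinearEquiv.ofBijective Φ₀ hbij with hΦ
  have hΦv : ∀ v : (ℝ ∙ n)ᗮ, c.hat W (Φ.symm v) = (v : V) := by
    intro v
    have h1 : Φ (Φ.symm v) = v := Φ.apply_symm_apply v
    exact congrArg Subtype.val h1
  set Ψ : (ℝ ∙ n)ᗮ →ₗ[ℝ] (ℝ ∙ n₁)ᗮ := (Φ.symm : (ℝ ∙ n)ᗮ →ₗ[ℝ] (ℝ ∙ n₁)ᗮ) with hΨ
  have hΨv : ∀ v, c.hat W (Ψ v) = (v : V) := hΦv
  have hΨ0 : ∀ v, v ≠ 0 → Ψ v ≠ 0 := by
    intro v hv h0
    apply hv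
    have := hΨv v
    rw [h0, map_zero] at this
    exact Subtype.ext this.symm
  have hB : ∀ a v, ⟪(LinearMap.adjoint Ψ ∘ₗ S ∘ₗ Ψ) a, v⟫ = ⟪S (Ψ a), Ψ v⟫ := by
    intro a v
    rw [LinearMap.comp_apply, LinearMap.comp_apply, LinearMap.adjoint_inner_left]
  refine ⟨LinearMap.adjoint Ψ ∘ₗ S ∘ₗ Ψ, ⟨?_, ?_, ?_⟩⟩
  · intro a b
    rw [hB, real_inner_comm, real_inner_comm _ a, hB, hsym, real_inner_comm]
  · intro a ha
    rw [hB]; exact hpd _ (hΨ0 a ha)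
  · intro a hx v
    rw [hB, hB]
    by_cases ha : a = 0
    · rw [ha, map_zero, map_zero, inner_zero_left, inner_zero_left]; ring
    set e := Ψ a with he
    set w := Ψ v with hw
    have he0 : e ≠ 0 := hΨ0 a ha
    have hee := hpd e he0
    set k := ⟪S e, w⟫ / ⟪S e, e⟫ with hk
    have hxe : c.q W + (1:ℝ) • c.hat W e = c.q W + (a : V) := by rw [one_smul, he, hΨv]
    have h1 : ⟪S e, w - k • e⟫ = 0 := by
      rw [inner_sub_right, real_inner_smul_right, hk, div_mul_cancel₀ _ hee.ne', sub_self]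
    have h2 : ⟪η (c.q W + (a : V)), c.hat W (w - k • e)⟫ = 0 := by
      by_cases h0 : w - k • e = 0
      · rw [h0, map_zero, inner_zero_right]
      · have h3 := hS _ h0 e he0 (by rw [hsym, real_inner_comm]; exact h1) 1 one_pos
          (by rw [hxe]; exact hx)
        rwa [hxe] at h3
    have h3 := c.eta_hat C (W := W) (e := e) (t := 1) (by rw [hxe]; exact hx)
    rw [hxe, one_mul] at h3
    rw [map_sub, map_smul, inner_sub_right, real_inner_smul_right, h3, hw, hΨv] at h2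
    have h4 : ⟪η (c.q W + (a : V)), (v : V)⟫ = -k := by linarith
    rw [h4, hk]
    field_simp

theorem Cfg.exists_iform {M K : Set V} {η : V → V} (C : Cfg M K η) {p n : V} (hn : n ≠ 0)
    (hp : Nor M p n) : ∃ B, IForm K η p n B := by
  obtain ⟨p₁, hp₁⟩ := exists_nor C.bM (-n)
  have hp₁f : p₁ ∈ frontier M := hp₁.frontier C.bM (neg_ne_zero.2 hn)
  have hne : p ≠ p₁ := by
    rintro rfl
    have := hh_pos C.bM hn
    rw [hp.hh_eq, hp₁.hh_eq, inner_neg_left] at this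
    linarith
  obtain ⟨c⟩ := C.exists_chart hp₁f
  obtain ⟨W, hW⟩ := c.surj p (hp.frontier C.bM hn) hne
  have hW' : p = c.q W := hW
  rw [hW'] at hp ⊢
  exact exists_iform_chart C c W hn hp

theorem IForm.b_ne {K : Set V} {η : V → V} {p n : V} {B : (ℝ ∙ n)ᗮ →ₗ[ℝ] (ℝ ∙ n)ᗮ}
    (hB : IForm K η p n B) {a : (ℝ ∙ n)ᗮ} (ha : a ≠ 0) : B a ≠ 0 := by
  intro h0
  have := hB.pd a ha
  rw [h0, inner_zero_left] at this
  exact lt_irrefl _ this

/-- at good points the conjugacy relation is given by the form of the base point -/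
theorem rel_B {M K : Set V} {η : V → V} (C : Cfg M K η) {p n : V} (c : Chart M p n)
    {B : (ℝ ∙ n)ᗮ →ₗ[ℝ] (ℝ ∙ n)ᗮ} (hB : IForm K η p n B) {W₀ a₁ a₂ : (ℝ ∙ n)ᗮ}
    (h₁ : p + (a₁ : V) ∈ frontier K) (h₂ : p + (a₂ : V) ∈ frontier K)
    (hs₁ : ⟪c.σ W₀, (a₁ : V)⟫ = 1) (hs₂ : ⟪c.σ W₀, (a₂ : V)⟫ = 1) (hne : a₁ ≠ a₂)
    (hη : ⟪η (p + (a₁ : V)), (a₂ : V)⟫ ≠ 0) {v δ : (ℝ ∙ n)ᗮ} (hv : v ≠ 0)
    (hR : c.Rel K η W₀ v δ) : ∃ k : ℝ, δ = k • B v := by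
  obtain ⟨S, hsym, hpd, hS⟩ := c.exists_S C W₀
  have hS0 : ∀ a, a ≠ 0 → S a ≠ 0 := by
    intro a ha h0
    have := hpd a ha
    rw [h0, inner_zero_left] at this
    exact lt_irrefl _ this
  have hne0 : ∀ a : (ℝ ∙ n)ᗮ, ⟪c.σ W₀, (a : V)⟫ = 1 → a ≠ 0 := by
    rintro a ha rfl
    rw [Submodule.coe_zero, inner_zero_right] at ha
    norm_num at ha
  have key : ∀ a : (ℝ ∙ n)ᗮ, p + (a : V) ∈ frontier K → ⟪c.σ W₀, (a : V)⟫ = 1 →
      ∃ k : ℝ, B a = k • S a := by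
    intro a hx hs
    have ha := hne0 a hs
    apply prop_of_perp (hS0 a ha)
    intro w hw
    have hhat : c.q W₀ + (1:ℝ) • c.hat W₀ a = p + (a : V) := by
      rw [c.hat_apply, hs]; module
    have h3 : ⟪η (p + (a : V)), c.hat W₀ w⟫ = 0 := by
      by_cases h0 : w = 0
      · rw [h0, map_zero, inner_zero_right]
      · have := hS w h0 a ha (by rw [hsym, real_inner_comm]; exact hw) 1 one_pos
          (by rw [hhat]; exact hx)
        rwa [hhat] at this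
    have g1 : p ∈ Gz M (p + (a : V)) := ⟨n, c.n_ne, c.nor, by
      rw [inner_add_right, mem_perp, add_zero]⟩
    have g2 : c.q W₀ ∈ Gz M (p + (a : V)) := ⟨c.σ W₀, c.σ_ne W₀, c.q_nor W₀, by
      have := c.σ_q W₀
      rw [inner_sub_right] at this
      rw [inner_add_right, hs]; linarith⟩
    have h4 := C.inner_eta_sub hx g1 g2
    rw [c.hat_apply, inner_sub_right, real_inner_smul_right, h4, mul_zero, sub_zero] at h3
    have h5 := hB.eq a hx w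
    rw [h3, zero_mul] at h5
    linarith
  obtain ⟨k₁, hk₁⟩ := key a₁ h₁ hs₁
  obtain ⟨k₂, hk₂⟩ := key a₂ h₂ hs₂
  have h6 : ⟪B a₁, a₂⟫ ≠ 0 := by
    intro h0
    have := hB.eq a₁ h₁ a₂
    rw [h0, neg_zero] at this
    rcases mul_eq_zero.1 this with h | h
    · exact hη h
    · exact (hB.pd a₁ (hne0 a₁ hs₁)).ne' h
  have h7 : ⟪B a₁, a₂⟫ = k₁ * ⟪S a₁, a₂⟫ := by rw [hk₁, real_inner_smul_left]
  have h8 : ⟪B a₁, a₂⟫ = k₂ * ⟪S a₁, a₂⟫ := by
    rw [hB.sym, hk₂, real_inner_smul_right, hsym]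
  have h9 : ⟪S a₁, a₂⟫ ≠ 0 := by
    intro h0; rw [h0, mul_zero] at h7; exact h6 h7
  have h10 : k₁ = k₂ := mul_right_cancel₀ h9 (h7.symm.trans h8)
  have hk0 : k₁ ≠ 0 := by
    rintro h0; rw [h0, zero_mul] at h7; exact h6 h7
  have hnp : NP a₁ a₂ := by
    refine np_of_not_smul (hne0 a₁ hs₁) fun τ hτ => hne ?_
    rw [hτ, Submodule.coe_smul, real_inner_smul_right, hs₁, mul_one] at hs₂
    rw [hτ, hs₂, one_smul]
  have hBS : ∀ v, B v = k₁ • S v := by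
    intro v
    obtain ⟨x, y, rfl⟩ := hnp.span (c.finrank_P C.dim) v
    rw [map_add, map_add, map_smul, map_smul, map_smul, map_smul, hk₁, hk₂, ← h10]
    module
  obtain ⟨k', hk'⟩ := (hS v hv).right_unique C hv (hS0 v hv) hR
  refine ⟨k' / k₁, ?_⟩
  rw [hBS, smul_smul, div_mul_cancel₀ _ hk0]
  exact hk'

end Pool.Agent.N553.FG
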