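import Mathlib

set_option autoImplicit false

open Set Filter Topology Metric
open scoped RealInnerProductSpace

namespace Pool.Agent.N553.FG

variable {V : Type*} [NormedAddCommGroup V] [InnerProductSpace ℝ V]

/-- convex body -/
structure Body (M : Set V) : Prop where
  cpt : IsCompact M
  cvx : Convex ℝ M
  int : (interior M).Nonempty

theorem Body.nonempty {M : Set V} (h : Body M) : M.Nonempty := h.int.mono interior_subset

/-- `u` is an outer normal of `M` at `y` -/
def Nor (M : Set V) (y u : V) : Prop := y ∈ M ∧ ∀ z ∈ M, ⟪u, z⟫ ≤ ⟪u, y⟫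

/-- the support function -/
noncomputable def hh (M : Set V) (u : V) : ℝ := sSup ((fun z => ⟪u, z⟫) '' M)

/-- the gap function of `x` -/
noncomputable def gg (M : Set V) (x u : V) : ℝ := ⟪u, x⟫ - hh M u

theorem exists_nor {M : Set V} (h : Body M) (u : V) : ∃ y, Nor M y u := by
  obtain ⟨y, hy, hm⟩ := h.cpt.exists_isMaxOn h.nonempty (f := fun z => ⟪u, z⟫)
    (by fun_prop)
  exact ⟨y, hy, fun z hz => hm hz⟩

theorem Nor.hh_eq {M : Set V} {y u : V} (h : Nor M y u) : hh M u = ⟪u, y⟫ := by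
  apply IsGreatest.csSup_eq
  exact ⟨⟨y, h.1, rfl⟩, by rintro _ ⟨z, hz, rfl⟩; exact h.2 z hz⟩

theorem le_hh {M : Set V} (h : Body M) {z : V} (hz : z ∈ M) (u : V) : ⟪u, z⟫ ≤ hh M u := by
  obtain ⟨y, hy⟩ := exists_nor h u
  rw [hy.hh_eq]; exact hy.2 z hz

theorem nor_of_le {M : Set V} (h : Body M) {y u : V} (hy : y ∈ M) (he : hh M u ≤ ⟪u, y⟫) :
    Nor M y u :=
  ⟨hy, fun _ hz => (le_hh h hz u).trans he⟩

theorem hh_add_le {M : Set V} (h : Body M) (u v : V) : hh M (u + v) ≤ hh M u + hh M v := by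
  obtain ⟨y, hy⟩ := exists_nor h (u + v)
  rw [hy.hh_eq, inner_add_left]
  exact add_le_add (le_hh h hy.1 u) (le_hh h hy.1 v)

theorem Nor.smul {M : Set V} {y u : V} (h : Nor M y u) {c : ℝ} (hc : 0 ≤ c) : Nor M y (c • u) :=
  ⟨h.1, fun z hz => by
    rw [real_inner_smul_left, real_inner_smul_left]
    exact mul_le_mul_of_nonneg_left (h.2 z hz) hc⟩

theorem hh_smul {M : Set V} (h : Body M) {c : ℝ} (hc : 0 ≤ c) (u : V) :
    hh M (c • u) = c * hh M u := by
  obtain ⟨y, hy⟩ := exists_nor h u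
  rw [(hy.smul hc).hh_eq, hy.hh_eq, real_inner_smul_left]

theorem hh_zero {M : Set V} (h : Body M) : hh M 0 = 0 := by
  have := hh_smul h (le_refl (0:ℝ)) (0 : V)
  simpa using this

theorem hh_continuous {M : Set V} (h : Body M) : Continuous (hh M) := by
  obtain ⟨R, hR⟩ := h.cpt.isBounded.subset_closedBall (0 : V)
  have hR' : ∀ z ∈ M, ‖z‖ ≤ |R| := fun z hz => by
    have := hR hz
    rw [mem_closedBall_zero_iff] at this
    exact this.trans (le_abs_self R)
  have : LipschitzWith ⟨|R|, abs_nonneg R⟩ (hh M) := by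
    refine LipschitzWith.of_le_add_mul _ fun u v => ?_
    obtain ⟨y, hy⟩ := exists_nor h u
    rw [hy.hh_eq]
    have e : ⟪u, y⟫ = ⟪v, y⟫ + ⟪u - v, y⟫ := by rw [inner_sub_left]; ring
    rw [e]
    refine add_le_add (le_hh h hy.1 v) ?_
    calc ⟪u - v, y⟫ ≤ ‖u - v‖ * ‖y‖ := real_inner_le_norm _ _
      _ ≤ ‖u - v‖ * |R| := mul_le_mul_of_nonneg_left (hR' y hy.1) (norm_nonneg _)
      _ = _ := by rw [dist_eq_norm, mul_comm]; rfl
  exact this.continuous

theorem lt_hh {M : Set V} (h : Body M) {o u : V} (ho : o ∈ interior M) (hu : u ≠ 0) :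
    ⟪u, o⟫ < hh M u := by
  have h1 : ∀ᶠ t in 𝓝 (0:ℝ), o + t • u ∈ interior M := by
    have hc : Continuous (fun t : ℝ => o + t • u) := by fun_prop
    apply hc.continuousAt.eventually_mem
    simpa using isOpen_interior.mem_nhds ho
  have h2 : ∀ᶠ t in 𝓝[>] (0:ℝ), o + t • u ∈ interior M := nhdsWithin_le_nhds h1
  obtain ⟨t, ht, ht0⟩ := (h2.and self_mem_nhdsWithin).exists
  have h3 := le_hh h (interior_subset ht) u
  rw [inner_add_right, real_inner_smul_right] at h3
  have h4 : 0 < t * ⟪u, u⟫ := mul_pos ht0 (real_inner_self_pos.2 hu)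
  linarith

theorem Nor.not_interior {M : Set V} (h : Body M) {y u : V} (hn : Nor M y u) (hu : u ≠ 0) :
    y ∉ interior M := fun hy => by
  have := lt_hh h hy hu
  rw [hn.hh_eq] at this
  exact lt_irrefl _ this

theorem hh_pos {M : Set V} (h : Body M) {u : V} (hu : u ≠ 0) : 0 < hh M u + hh M (-u) := by
  obtain ⟨o, ho⟩ := h.int
  have h1 := lt_hh h ho hu
  have h2 := lt_hh h ho (neg_ne_zero.2 hu)
  rw [inner_neg_left] at h2
  linarith

theorem gg_continuous {M : Set V} (h : Body M) (x : V) : Continuous (gg M x) := by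
  unfold gg
  exact (by fun_prop : Continuous fun u : V => ⟪u, x⟫).sub (hh_continuous h)

theorem gg_add_le {M : Set V} (h : Body M) (x u v : V) :
    gg M x u + gg M x v ≤ gg M x (u + v) := by
  unfold gg
  rw [inner_add_left]
  linarith [hh_add_le h u v]

theorem gg_smul {M : Set V} (h : Body M) (x : V) {c : ℝ} (hc : 0 ≤ c) (u : V) :
    gg M x (c • u) = c * gg M x u := by
  unfold gg
  rw [hh_smul h hc, real_inner_smul_left]; ring

theorem gg_neg_lt {M : Set V} (h : Body M) (x : V) {u : V} (hu : u ≠ 0) :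
    gg M x u + gg M x (-u) < 0 := by
  unfold gg
  rw [inner_neg_left]
  linarith [hh_pos h hu]

theorem gg_zero {M : Set V} (h : Body M) (x : V) : gg M x 0 = 0 := by
  unfold gg; rw [hh_zero h, inner_zero_left]; ring

theorem exists_root {M : Set V} (h : Body M) {x u b : V} (h1 : 0 < gg M x u)
    (h2 : gg M x b < 0) : ∃ s : ℝ, 0 < s ∧ gg M x (u + s • b) = 0 := by
  set S : ℝ := |gg M x (-u)| / (-gg M x b) + 1 with hS
  have hb : 0 < -gg M x b := by linarith
  have hS0 : 0 < S := by positivity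
  have h3 : gg M x (u + S • b) < 0 := by
    have e1 := gg_add_le h x (u + S • b) (-u)
    have e2 : u + S • b + -u = S • b := by abel
    rw [e2, gg_smul h x hS0.le] at e1
    have e3 : S * gg M x b = -|gg M x (-u)| + gg M x b := by
      have hb' : gg M x b ≠ 0 := by linarith
      rw [hS]; field_simp
    have e4 := neg_abs_le (gg M x (-u))
    linarith
  have hc : ContinuousOn (fun s : ℝ => gg M x (u + s • b)) (Icc 0 S) :=
    ((gg_continuous h x).comp (by fun_prop)).continuousOn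
  have h4 := intermediate_value_Icc' hS0.le hc
  have h5 : (0:ℝ) ∈ Icc (gg M x (u + S • b)) (gg M x (u + (0:ℝ) • b)) := by
    refine ⟨h3.le, ?_⟩
    simpa using h1.le
  obtain ⟨s, hs, hs'⟩ := h4 h5
  refine ⟨s, lt_of_le_of_ne hs.1 ?_, hs'⟩
  rintro rfl
  simp only [zero_smul, add_zero] at hs'
  linarith

section fin

variable [FiniteDimensional ℝ V]

theorem exists_pos {M : Set V} (h : Body M) {x : V} (hx : x ∉ M) : ∃ u, 0 < gg M x u := by
  obtain ⟨f, r, h1, h2⟩ := geometric_hahn_banach_point_closed h.cvx h.cpt.isClosed hx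
  set w := (InnerProductSpace.toDual ℝ V).symm f with hw
  have hf : ∀ y, ⟪w, y⟫ = f y := fun y => by rw [hw]; simp
  refine ⟨-w, ?_⟩
  obtain ⟨y, hy⟩ := exists_nor h (-w)
  unfold gg
  rw [hy.hh_eq, inner_neg_left, inner_neg_left, hf, hf]
  have := h2 y hy.1
  linarith

theorem exists_pos_ne {M : Set V} (h : Body M) {x : V} (hx : x ∉ M) {w : V} (hw : w ≠ 0) :
    ∃ u, 0 < gg M x u ∧ ⟪u, w⟫ ≠ 0 := by
  obtain ⟨u, hu⟩ := exists_pos h hx
  by_cases h0 : ⟪u, w⟫ = 0
  · have hc : Continuous (fun t : ℝ => gg M x (u + t • w)) :=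
      (gg_continuous h x).comp (by fun_prop)
    have h1 : ∀ᶠ t in 𝓝 (0:ℝ), 0 < gg M x (u + t • w) := by
      apply hc.continuousAt.eventually (lt_mem_nhds ?_)
      simpa using hu
    have h2 : ∀ᶠ t in 𝓝[>] (0:ℝ), 0 < gg M x (u + t • w) := nhdsWithin_le_nhds h1
    obtain ⟨t, ht, ht0⟩ := (h2.and self_mem_nhdsWithin).exists
    refine ⟨u + t • w, ht, ?_⟩
    rw [inner_add_left, h0, real_inner_smul_left, zero_add]
    exact (mul_pos ht0 (real_inner_self_pos.2 hw)).ne'
  · exact ⟨u, hu, h0⟩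

theorem exists_perp2 (hd : Module.finrank ℝ V = 3) (a b : V) :
    ∃ w : V, w ≠ 0 ∧ ⟪a, w⟫ = 0 ∧ ⟪b, w⟫ = 0 := by
  classical
  have h1 : (Submodule.span ℝ ({a, b} : Set V))ᗮ ≠ ⊥ := by
    intro h
    rw [Submodule.orthogonal_eq_bot_iff] at h
    have h2 : Module.finrank ℝ (Submodule.span ℝ (({a, b} : Finset V) : Set V)) ≤
        ({a, b} : Finset V).card := finrank_span_finset_le_card _
    have h3 : ((({a, b} : Finset V) : Set V)) = ({a, b} : Set V) := by simp
    rw [h3, h, finrank_top, hd] at h2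
    have := Finset.card_le_two (a := a) (b := b)
    omega
  obtain ⟨w, hw, hw0⟩ := Submodule.exists_mem_ne_zero_of_ne_bot h1
  rw [Submodule.mem_orthogonal] at hw
  exact ⟨w, hw0, hw a (Submodule.subset_span (by simp)), hw b (Submodule.subset_span (by simp))⟩

end fin

end Pool.Agent.N553.FG
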