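import Mathlib

set_option autoImplicit false
set_option linter.unusedSectionVars false

open Set Filter Topology Metric
open scoped RealInnerProductSpace

namespace Pool.Agent.N553.FG

section sym

variable {P : Type*} [NormedAddCommGroup P] [InnerProductSpace ℝ P]

/-- an additive map with a potential is symmetric -/
theorem symm_of_potential (G : P →+ P) (φ : P → ℝ) (hφ : ∀ a b, ⟪G a, b - a⟫ ≤ φ b - φ a)
    (a b : P) : ⟪G a, b⟫ = ⟪G b, a⟫ := by
  have hlow : ∀ x h : P, ∀ N : ℕ, N * ⟪G x, h⟫ + N * (N - 1) / 2 * ⟪G h, h⟫ ≤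
      φ (x + N • h) - φ x := by
    intro x h N
    induction N with
    | zero => simp
    | succ N ih =>
      have h1 := hφ (x + N • h) (x + (N + 1) • h)
      have e : x + (N + 1) • h - (x + N • h) = h := by rw [add_smul, one_smul]; abel
      rw [e, map_add, map_nsmul, inner_add_left, ← Nat.cast_smul_eq_nsmul ℝ,
        real_inner_smul_left] at h1
      push_cast
      nlinarith
  have hupp : ∀ x h : P, ∀ N : ℕ, φ (x + N • h) - φ x ≤
      N * ⟪G x, h⟫ + N * (N + 1) / 2 * ⟪G h, h⟫ := by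
    intro x h N
    induction N with
    | zero => simp
    | succ N ih =>
      have h1 := hφ (x + (N + 1) • h) (x + N • h)
      have e : x + N • h - (x + (N + 1) • h) = -h := by rw [add_smul, one_smul]; abel
      rw [e, map_add, map_nsmul, inner_neg_right, inner_add_left, ← Nat.cast_smul_eq_nsmul ℝ,
        real_inner_smul_left] at h1
      push_cast at h1 ⊢
      nlinarith
  have key : ∀ a b : P, ⟪G a, b⟫ ≤ ⟪G b, a⟫ := by
    intro a b
    by_contra hlt
    push Not at hlt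
    have hN : ∀ N : ℕ, (N : ℝ) * N * (⟪G a, b⟫ - ⟪G b, a⟫) ≤ N * (⟪G a, a⟫ + ⟪G b, b⟫) := by
      intro N
      have h1 := hlow 0 a N
      have h2 := hlow (0 + N • a) b N
      have h3 := hupp 0 b N
      have h4 := hupp (0 + N • b) a N
      have e : (0 + N • a + N • b : P) = 0 + N • b + N • a := by abel
      rw [e] at h2
      have e1 : G (0 + N • a) = (N : ℝ) • G a := by
        rw [zero_add, map_nsmul, Nat.cast_smul_eq_nsmul]
      have e2 : G (0 + N • b) = (N : ℝ) • G b := by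
        rw [zero_add, map_nsmul, Nat.cast_smul_eq_nsmul]
      rw [e1, real_inner_smul_left] at h2
      rw [e2, real_inner_smul_left] at h4
      rw [map_zero, inner_zero_left] at h1 h3
      nlinarith
    obtain ⟨N, hN'⟩ := exists_nat_gt ((⟪G a, a⟫ + ⟪G b, b⟫) / (⟪G a, b⟫ - ⟪G b, a⟫))
    have hpos : 0 < ⟪G a, b⟫ - ⟪G b, a⟫ := by linarith
    rw [div_lt_iff₀ hpos] at hN'
    have h5 := hN (N + 1)
    push_cast at h5
    have h6 : (0:ℝ) < N + 1 := by positivity
    have h7 : ((N : ℝ) + 1) * (⟪G a, b⟫ - ⟪G b, a⟫) ≤ ⟪G a, a⟫ + ⟪G b, b⟫ := by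
      by_contra h8
      push Not at h8
      nlinarith [mul_lt_mul_of_pos_left h8 h6]
    nlinarith
  exact le_antisymm (key a b) (key b a)

end sym

section lin

variable {P : Type*} [NormedAddCommGroup P] [InnerProductSpace ℝ P] [FiniteDimensional ℝ P]

/-- linear independence of a pair -/
def NP (a b : P) : Prop := ∀ c d : ℝ, c • a + d • b = 0 → c = 0 ∧ d = 0

omit [FiniteDimensional ℝ P] in
theorem NP.symm {a b : P} (h : NP a b) : NP b a := fun c d hcd =>
  (h d c (by rw [add_comm]; exact hcd)).symm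

omit [FiniteDimensional ℝ P] in
theorem NP.ne_left {a b : P} (h : NP a b) : a ≠ 0 := by
  rintro rfl
  have := (h 1 0 (by simp)).1
  norm_num at this

omit [FiniteDimensional ℝ P] in
theorem NP.ne_right {a b : P} (h : NP a b) : b ≠ 0 := h.symm.ne_left

omit [FiniteDimensional ℝ P] in
theorem NP.not_smul {a b : P} (h : NP a b) (c : ℝ) : b ≠ c • a := by
  rintro rfl
  have := (h c (-1) (by simp)).2
  norm_num at this

omit [FiniteDimensional ℝ P] in
theorem np_of_not_smul {a b : P} (ha : a ≠ 0) (h : ∀ c : ℝ, b ≠ c • a) : NP a b := by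
  intro c d hcd
  by_cases hd : d = 0
  · rw [hd, zero_smul, add_zero] at hcd
    exact ⟨(smul_eq_zero.1 hcd).resolve_right ha, hd⟩
  · exfalso
    apply h (-(c / d))
    have : d • b = -(c • a) := eq_neg_of_add_eq_zero_right hcd
    rw [neg_smul, div_eq_inv_mul, mul_smul, ← smul_neg, ← this, smul_smul, inv_mul_cancel₀ hd,
      one_smul]

theorem exists_perp1 (hd : Module.finrank ℝ P = 2) (a : P) : ∃ w : P, w ≠ 0 ∧ ⟪a, w⟫ = 0 := by
  have h1 : (Submodule.span ℝ ({a} : Set P))ᗮ ≠ ⊥ := by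
    intro h
    rw [Submodule.orthogonal_eq_bot_iff] at h
    have h2 : Module.finrank ℝ (Submodule.span ℝ ({a} : Set P)) ≤ 1 := by
      have := finrank_span_le_card (R := ℝ) ({a} : Set P)
      simpa using this
    rw [h, finrank_top, hd] at h2
    omega
  obtain ⟨w, hw, hw0⟩ := Submodule.exists_mem_ne_zero_of_ne_bot h1
  rw [Submodule.mem_orthogonal] at hw
  exact ⟨w, hw0, hw a (Submodule.subset_span (by simp))⟩

theorem exists_np (hd : Module.finrank ℝ P = 2) {a : P} (ha : a ≠ 0) : ∃ b : P, NP a b := by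
  obtain ⟨w, hw, haw⟩ := exists_perp1 hd a
  refine ⟨w, fun c d hcd => ?_⟩
  have h1 : ⟪c • a + d • w, a⟫ = 0 := by rw [hcd, inner_zero_left]
  have h2 : ⟪c • a + d • w, w⟫ = 0 := by rw [hcd, inner_zero_left]
  have haw' : ⟪w, a⟫ = 0 := by rw [real_inner_comm]; exact haw
  rw [inner_add_left, real_inner_smul_left, real_inner_smul_left, haw'] at h1
  rw [inner_add_left, real_inner_smul_left, real_inner_smul_left, haw] at h2
  constructor
  · have : c * ⟪a, a⟫ = 0 := by nlinarith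
    exact (mul_eq_zero.1 this).resolve_right (real_inner_self_pos.2 ha).ne'
  · have : d * ⟪w, w⟫ = 0 := by nlinarith
    exact (mul_eq_zero.1 this).resolve_right (real_inner_self_pos.2 hw).ne'

theorem lin_of_rel (hd : Module.finrank ℝ P = 2) (f : P → ℝ) (s : P → P) (w₀ : P)
    (hsub : ∀ a b, ⟪s a, b - a⟫ ≤ f b - f a) (hinj : Function.Injective s)
    (R : P → P → Prop)
    (hR0 : ∀ (𝒰 : Ultrafilter ℕ) (a b : ℕ → P) (v δ : P), Tendsto a 𝒰 (𝓝 w₀) →
      Tendsto b 𝒰 (𝓝 w₀) → (∀ k, a k ≠ b k) →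
      Tendsto (fun k => (‖b k - a k‖)⁻¹ • (b k - a k)) 𝒰 (𝓝 v) →
      Tendsto (fun k => (‖s (b k) - s (a k)‖)⁻¹ • (s (b k) - s (a k))) 𝒰 (𝓝 δ) → R v δ)
    (hRs : ∀ v δ (a b : ℝ), b ≠ 0 → R v δ → R (a • v) (b • δ))
    (hR1 : ∀ v v' δ, v ≠ 0 → δ ≠ 0 → R v δ → R v' δ → ∃ c : ℝ, v' = c • v)
    (hR2 : ∀ v δ δ', v ≠ 0 → δ ≠ 0 → δ' ≠ 0 → R v δ → R v δ' → ∃ c : ℝ, δ' = c • δ) :
    ∃ S : P →ₗ[ℝ] P, (∀ a b, ⟪S a, b⟫ = ⟪a, S b⟫) ∧ (∀ a, a ≠ 0 → 0 < ⟪S a, a⟫) ∧
      ∀ a, a ≠ 0 → R a (S a) := by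
  obtain ⟨e₁, he₁⟩ : ∃ e₁ : P, e₁ ≠ 0 := by
    obtain ⟨w, hw, -⟩ := exists_perp1 hd (0 : P)
    exact ⟨w, hw⟩
  obtain ⟨b₁, hb₁⟩ := exists_np hd he₁
  set 𝒰 : Ultrafilter ℕ := hyperfilter ℕ with h𝒰
  set r : ℕ → ℝ := fun k => 1 / ((k : ℝ) + 1) with hr
  have hr0 : ∀ k, 0 < r k := fun k => by rw [hr]; positivity
  have hrt : Tendsto r 𝒰 (𝓝 0) :=
    tendsto_one_div_add_atTop_nhds_zero_nat.mono_left Nat.hyperfilter_le_atTop
  set pt : ℕ → P → P := fun k a => w₀ + r k • a with hpt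
  have hptt : ∀ a, Tendsto (fun k => pt k a) 𝒰 (𝓝 w₀) := by
    intro a
    have : Tendsto (fun k => w₀ + r k • a) 𝒰 (𝓝 (w₀ + (0:ℝ) • a)) :=
      tendsto_const_nhds.add (hrt.smul tendsto_const_nhds)
    simpa using this
  have hptne : ∀ a b, a ≠ b → ∀ k, pt k a ≠ pt k b := by
    intro a b hab k h
    apply hab
    have := add_left_cancel h
    exact smul_right_injective P (hr0 k).ne' this
  set F : ℕ → P → P := fun k a => s (pt k a) - s w₀ with hF
  have hpt0 : ∀ k, pt k 0 = w₀ := fun k => by simp [hpt]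
  have hF0 : ∀ k, F k 0 = 0 := fun k => by simp [hF, hpt0]
  have hD : ∀ k a b, s (pt k b) - s (pt k a) = F k b - F k a := fun k a b => by
    simp only [hF]; abel
  have hFne : ∀ k a b, a ≠ b → F k b - F k a ≠ 0 := by
    intro k a b hab
    rw [← hD, sub_ne_zero]
    exact fun h => hptne a b hab k (hinj h).symm
  have hFne0 : ∀ k a, a ≠ 0 → F k a ≠ 0 := by
    intro k a ha
    have := hFne k 0 a (Ne.symm ha)
    rwa [hF0, sub_zero] at this
  -- limits of unit differences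
  have hn : ∀ a b : P, ∃ n : P, a ≠ b → ‖n‖ = 1 ∧
      Tendsto (fun k => (‖F k b - F k a‖)⁻¹ • (F k b - F k a)) 𝒰 (𝓝 n) ∧ R (b - a) n := by
    intro a b
    by_cases hab : a = b
    · exact ⟨0, fun h => absurd hab h⟩
    obtain ⟨n, hn1, hn2⟩ := (isCompact_sphere (0 : P) 1).ultrafilter_le_nhds
      (𝒰.map (fun k => (‖F k b - F k a‖)⁻¹ • (F k b - F k a))) (by
        rw [Ultrafilter.coe_map, le_principal_iff, mem_map]
        refine Eventually.of_forall fun k => ?_
        have := norm_ne_zero_iff.2 (hFne k a b hab)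
        simp only [mem_preimage, mem_sphere_zero_iff_norm]
        rw [norm_smul, norm_inv, norm_norm, inv_mul_cancel₀ this])
    refine ⟨n, fun _ => ⟨by simpa using hn1, hn2, ?_⟩⟩
    have hba : b - a ≠ 0 := sub_ne_zero.2 (Ne.symm hab)
    have h1 := hR0 𝒰 (fun k => pt k a) (fun k => pt k b) (‖b - a‖⁻¹ • (b - a)) n (hptt a)
      (hptt b) (hptne a b hab) (by
        refine tendsto_const_nhds.congr fun k => ?_
        have e : pt k b - pt k a = r k • (b - a) := by
          simp only [hpt]; rw [smul_sub]; abel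
        have hnb : ‖b - a‖ ≠ 0 := norm_ne_zero_iff.2 hba
        rw [e, norm_smul, Real.norm_of_nonneg (hr0 k).le, smul_smul, mul_inv, mul_assoc,
          mul_comm (‖b - a‖⁻¹), ← mul_assoc, inv_mul_cancel₀ (hr0 k).ne', one_mul]) (by
        refine Tendsto.congr (fun k => ?_) hn2
        rw [hD])
    have h2 := hRs _ _ ‖b - a‖ 1 one_ne_zero h1
    rwa [one_smul, smul_smul, mul_inv_cancel₀ (norm_ne_zero_iff.2 hba), one_smul] at h2
  choose n hn using hn
  have hn1 : ∀ a b, a ≠ b → n a b ≠ 0 := fun a b hab => by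
    rw [← norm_ne_zero_iff, (hn a b hab).1]; norm_num
  -- comparison
  have hbd : ∀ a b : P, NP a b → ∃ c : ℝ, 0 ≤ c ∧ ∀ᶠ k in (𝒰 : Filter ℕ),
      ‖F k a‖ ≤ c * ‖F k b‖ := by
    intro a b hab
    by_contra hcon
    push Not at hcon
    have h1 : ∀ c : ℝ, 0 ≤ c → ∀ᶠ k in (𝒰 : Filter ℕ), c * ‖F k b‖ < ‖F k a‖ := by
      intro c hc
      exact hcon c hc
    have ha := hab.ne_left
    have hne : b ≠ a := fun h => hab.not_smul 1 (by rw [one_smul]; exact h)
    -- D1 / ‖D2‖ → 0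
    have h2 : Tendsto (fun k => (‖F k a‖)⁻¹ • F k b) 𝒰 (𝓝 0) := by
      rw [tendsto_zero_iff_norm_tendsto_zero, Metric.tendsto_nhds]
      intro ε hε
      filter_upwards [h1 (ε⁻¹) (inv_pos.2 hε).le] with k hk
      have h3 : 0 < ‖F k a‖ := norm_pos_iff.2 (hFne0 k a ha)
      rw [Real.dist_eq, sub_zero, abs_norm, norm_smul, norm_inv, norm_norm]
      rw [inv_mul_lt_iff₀ h3]
      rw [inv_mul_lt_iff₀ hε] at hk
      linarith [mul_comm ε ‖F k a‖]
    obtain ⟨h3, h4, h5⟩ := hn 0 a (Ne.symm ha)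
    simp only [hF0, sub_zero] at h4 h5
    obtain ⟨h6, h7, h8⟩ := hn b a hne
    have h9 : Tendsto (fun k => (‖F k a‖)⁻¹ • (F k a - F k b)) 𝒰 (𝓝 (n 0 a)) := by
      have := h4.sub h2
      rw [sub_zero] at this
      refine this.congr fun k => ?_
      exact (smul_sub _ _ _).symm
    have h10 : Tendsto (fun k => (‖F k a‖)⁻¹ * ‖F k a - F k b‖) 𝒰 (𝓝 1) := by
      have := h9.norm
      rw [h3] at this
      refine this.congr fun k => ?_
      rw [norm_smul, norm_inv, norm_norm]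
    have h11 : Tendsto (fun k => (‖F k a‖)⁻¹ • (F k a - F k b)) 𝒰 (𝓝 ((1:ℝ) • n b a)) := by
      refine (h10.smul h7).congr fun k => ?_
      have := norm_ne_zero_iff.2 (hFne k b a hne)
      rw [smul_smul, mul_assoc, mul_inv_cancel₀ this, mul_one]
    have h12 : n 0 a = n b a := by
      have := tendsto_nhds_unique h9 h11
      rwa [one_smul] at this
    obtain ⟨c, hc⟩ := hR1 a (a - b) (n 0 a) ha (hn1 0 a (Ne.symm ha)) h5 (by rw [h12]; exact h8)
    have := hab (1 - c) (-1) (by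
      rw [sub_smul, one_smul, ← hc]; simp)
    norm_num at this
  set ρ : ℕ → ℝ := fun k => ‖F k e₁‖ with hρ
  have hρ0 : ∀ k, 0 < ρ k := fun k => norm_pos_iff.2 (hFne0 k e₁ he₁)
  have hbd2 : ∀ a : P, ∃ c : ℝ, 0 ≤ c ∧ ∀ᶠ k in (𝒰 : Filter ℕ), ‖F k a‖ ≤ c * ρ k := by
    intro a
    by_cases h1 : ∃ c : ℝ, a = c • e₁
    · obtain ⟨c, rfl⟩ := h1
      by_cases hc : c = 0
      · subst hc
        refine ⟨0, le_refl _, Eventually.of_forall fun k => ?_⟩
        rw [zero_smul, hF0]; simp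
      · have h2 : NP (c • e₁) b₁ := by
          intro x y hxy
          rw [smul_smul] at hxy
          obtain ⟨h3, h4⟩ := hb₁ _ _ hxy
          exact ⟨(mul_eq_zero.1 h3).resolve_right hc, h4⟩
        obtain ⟨c1, hc1, h3⟩ := hbd _ _ h2
        obtain ⟨c2, hc2, h4⟩ := hbd _ _ hb₁.symm
        refine ⟨c1 * c2, by positivity, ?_⟩
        filter_upwards [h3, h4] with k h3 h4
        calc _ ≤ _ := h3
          _ ≤ c1 * (c2 * ρ k) := mul_le_mul_of_nonneg_left h4 hc1
          _ = _ := by ring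
    · push Not at h1
      exact hbd _ _ (np_of_not_smul he₁ h1).symm
  have hG : ∀ a : P, ∃ g : P, Tendsto (fun k => (ρ k)⁻¹ • F k a) 𝒰 (𝓝 g) := by
    intro a
    obtain ⟨c, hc, h1⟩ := hbd2 a
    obtain ⟨g, -, hg⟩ := (isCompact_closedBall (0 : P) c).ultrafilter_le_nhds
      (𝒰.map (fun k => (ρ k)⁻¹ • F k a)) (by
        rw [Ultrafilter.coe_map, le_principal_iff, mem_map]
        filter_upwards [h1] with k hk
        simp only [mem_preimage, mem_closedBall_zero_iff]
        rw [norm_smul, norm_inv, Real.norm_of_nonneg (hρ0 k).le, inv_mul_le_iff₀ (hρ0 k)]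
        linarith [mul_comm c (ρ k)])
    exact ⟨g, hg⟩
  choose G hG using hG
  have hG0 : G 0 = 0 := by
    refine tendsto_nhds_unique (hG 0) ?_
    refine tendsto_const_nhds.congr fun k => ?_
    rw [hF0, smul_zero]
  have hGe : ‖G e₁‖ = 1 := by
    refine tendsto_nhds_unique (hG e₁).norm ?_
    refine tendsto_const_nhds.congr fun k => ?_
    rw [norm_smul, norm_inv, Real.norm_of_nonneg (hρ0 k).le]
    exact (inv_mul_cancel₀ (hρ0 k).ne').symm
  have hGn : ∀ a b, a ≠ b → G b - G a = ‖G b - G a‖ • n a b := by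
    intro a b hab
    obtain ⟨-, h1, -⟩ := hn a b hab
    have h2 : Tendsto (fun k => (ρ k)⁻¹ • (F k b - F k a)) 𝒰 (𝓝 (G b - G a)) := by
      refine ((hG b).sub (hG a)).congr fun k => ?_
      exact (smul_sub _ _ _).symm
    refine tendsto_nhds_unique h2 ?_
    refine (h2.norm.smul h1).congr fun k => ?_
    have := norm_ne_zero_iff.2 (hFne k a b hab)
    rw [norm_smul, norm_inv, Real.norm_of_nonneg (hρ0 k).le, smul_smul, mul_assoc,
      mul_inv_cancel₀ this, mul_one]
  -- potential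
  set φk : ℕ → P → ℝ := fun k a => (f (pt k a) - f w₀ - r k * ⟪s w₀, a⟫) / (r k * ρ k) with hφk
  have hφ1 : ∀ k a b, ⟪(ρ k)⁻¹ • F k a, b - a⟫ ≤ φk k b - φk k a := by
    intro k a b
    have h1 := hsub (pt k a) (pt k b)
    have e : pt k b - pt k a = r k • (b - a) := by
      simp only [hpt]; rw [smul_sub]; abel
    rw [e, real_inner_smul_right] at h1
    have h2 : ⟪F k a, b - a⟫ = ⟪s (pt k a), b - a⟫ - ⟪s w₀, b - a⟫ := by
      simp only [hF]; rw [inner_sub_left]
    have h3 : 0 < r k * ρ k := mul_pos (hr0 k) (hρ0 k)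
    rw [real_inner_smul_left, hφk]
    simp only
    rw [← sub_div, le_div_iff₀ h3, h2]
    have h4 : ⟪s w₀, b - a⟫ = ⟪s w₀, b⟫ - ⟪s w₀, a⟫ := inner_sub_right _ _ _
    have e3 : (ρ k)⁻¹ * (⟪s (pt k a), b - a⟫ - ⟪s w₀, b - a⟫) * (r k * ρ k) =
        r k * (⟪s (pt k a), b - a⟫ - ⟪s w₀, b - a⟫) := by
      have := (hρ0 k).ne'
      field_simp
    rw [e3, h4]
    have e5 : r k * (⟪s (pt k a), b - a⟫ - (⟪s w₀, b⟫ - ⟪s w₀, a⟫)) =
        r k * ⟪s (pt k a), b - a⟫ - r k * ⟪s w₀, b⟫ + r k * ⟪s w₀, a⟫ := by ring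
    rw [e5]
    linarith
  have hφ0 : ∀ k, φk k 0 = 0 := fun k => by simp [hφk, hpt0]
  have hφex : ∀ a : P, ∃ t : ℝ, Tendsto (fun k => φk k a) 𝒰 (𝓝 t) := by
    intro a
    obtain ⟨t, -, ht⟩ := (isCompact_Icc (a := (0:ℝ)) (b := ‖G a‖ * ‖a‖ + 1)).ultrafilter_le_nhds
      (𝒰.map (fun k => φk k a)) (by
        rw [Ultrafilter.coe_map, le_principal_iff, mem_map]
        have h2 : ∀ᶠ k in (𝒰 : Filter ℕ), ⟪(ρ k)⁻¹ • F k a, a⟫ < ⟪G a, a⟫ + 1 :=
          ((hG a).inner tendsto_const_nhds).eventually (gt_mem_nhds (by linarith))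
        filter_upwards [h2] with k hk
        have h3 := hφ1 k 0 a
        have h4 := hφ1 k a 0
        rw [hF0, smul_zero, inner_zero_left, hφ0] at h3
        rw [zero_sub, inner_neg_right, hφ0] at h4
        refine ⟨by linarith, ?_⟩
        have h5 := real_inner_le_norm (G a) a
        linarith)
    exact ⟨t, ht⟩
  choose φ hφ using hφex
  have hφG : ∀ a b, ⟪G a, b - a⟫ ≤ φ b - φ a := by
    intro a b
    refine le_of_tendsto_of_tendsto ((hG a).inner tendsto_const_nhds) ((hφ b).sub (hφ a)) ?_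
    exact Eventually.of_forall fun k => hφ1 k a b
  -- additivity
  have hspan : ∀ a b x : P, b ≠ 0 → ∃ c : ℝ, G (x + b) - G x = c • n 0 b := by
    intro a b x hb
    have h1 : x ≠ x + b := fun h => hb (by simpa using h.symm)
    have h2 := hGn x (x + b) h1
    obtain ⟨-, -, h3⟩ := hn x (x + b) h1
    obtain ⟨-, -, h4⟩ := hn 0 b (Ne.symm hb)
    rw [add_sub_cancel_left] at h3
    rw [sub_zero] at h4
    obtain ⟨c, hc⟩ := hR2 b (n 0 b) (n x (x + b)) hb (hn1 _ _ (Ne.symm hb)) (hn1 _ _ h1) h4 h3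
    refine ⟨‖G (x + b) - G x‖ * c, ?_⟩
    rw [mul_smul, ← hc]
    exact h2
  have hadd1 : ∀ a b : P, NP a b → G (a + b) = G a + G b := by
    intro a b hab
    have ha := hab.ne_left
    have hb := hab.ne_right
    obtain ⟨c1, h1⟩ := hspan a b a hb
    obtain ⟨c2, h2⟩ := hspan a b 0 hb
    obtain ⟨c3, h3⟩ := hspan b a b ha
    obtain ⟨c4, h4⟩ := hspan b a 0 ha
    rw [zero_add, hG0, sub_zero] at h2 h4
    have h5 : G (a + b) - G a - G b = (c1 - c2) • n 0 b := by rw [h1, h2, sub_smul]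
    have h6 : G (a + b) - G a - G b = (c3 - c4) • n 0 a := by
      have : G (a + b) - G a - G b = (G (b + a) - G b) - G a := by rw [add_comm b a]; abel
      rw [this, h3, h4, sub_smul]
    by_cases h7 : G (a + b) - G a - G b = 0
    · rw [sub_sub, sub_eq_zero] at h7; exact h7
    · exfalso
      have h8 : c1 - c2 ≠ 0 := fun h => h7 (by rw [h5, h, zero_smul])
      have h9 : c3 - c4 ≠ 0 := fun h => h7 (by rw [h6, h, zero_smul])
      have h10 : n 0 a = ((c3 - c4)⁻¹ * (c1 - c2)) • n 0 b := by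
        rw [mul_smul, ← h5, h6, smul_smul, inv_mul_cancel₀ h9, one_smul]
      obtain ⟨-, -, h11⟩ := hn 0 a (Ne.symm ha)
      obtain ⟨-, -, h12⟩ := hn 0 b (Ne.symm hb)
      rw [sub_zero] at h11 h12
      have h13 := hRs _ _ 1 ((c3 - c4)⁻¹ * (c1 - c2)) (mul_ne_zero (inv_ne_zero h9) h8) h12
      rw [one_smul, ← h10] at h13
      obtain ⟨c, hc⟩ := hR1 a b (n 0 a) ha (hn1 _ _ (Ne.symm ha)) h11 h13
      exact hab.not_smul c hc
  have hadd : ∀ a b : P, G (a + b) = G a + G b := by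
    intro a b
    by_cases ha : a = 0
    · rw [ha, hG0, zero_add, zero_add]
    by_cases hb : b = 0
    · rw [hb, hG0, add_zero, add_zero]
    by_cases h1 : ∃ c : ℝ, b = c • a
    · obtain ⟨c, hc⟩ := h1
      obtain ⟨d, hd'⟩ := exists_np hd ha
      have h2 : NP b d := by
        intro x y hxy
        rw [hc, smul_smul] at hxy
        obtain ⟨h3, h4⟩ := hd' _ _ hxy
        refine ⟨(mul_eq_zero.1 h3).resolve_right ?_, h4⟩
        rintro rfl
        exact hb (by rw [hc, zero_smul])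
      have h3 : NP a (b + d) := by
        intro x y hxy
        rw [hc, smul_add, smul_smul, ← add_assoc, ← add_smul] at hxy
        obtain ⟨h4, h5⟩ := hd' _ _ hxy
        rw [h5] at h4
        exact ⟨by linarith, h5⟩
      have h4 : G (a + b + d) = G (a + b) + G d := by
        by_cases h5 : a + b = 0
        · rw [h5, hG0, zero_add, zero_add]
        · apply hadd1
          intro x y hxy
          rw [hc] at hxy h5
          have e : x • (a + c • a) + y • d = (x * (1 + c)) • a + y • d := by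
            rw [mul_smul, add_smul, one_smul]
          rw [e] at hxy
          obtain ⟨h6, h7⟩ := hd' _ _ hxy
          refine ⟨(mul_eq_zero.1 h6).resolve_right ?_, h7⟩
          intro h8
          apply h5
          have : a + c • a = (1 + c) • a := by rw [add_smul, one_smul]
          rw [this, h8, zero_smul]
      have h5 := hadd1 a (b + d) h3
      rw [hadd1 b d h2, ← add_assoc, ← add_assoc, h4] at h5
      exact add_right_cancel h5
    · push Not at h1
      exact hadd1 a b (np_of_not_smul ha h1)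
  set Gm : P →+ P := { toFun := G, map_zero' := hG0, map_add' := hadd } with hGm
  have hsym : ∀ a b, ⟪G a, b⟫ = ⟪G b, a⟫ := fun a b => symm_of_potential Gm φ hφG a b
  have hsmul : ∀ (t : ℝ) (a : P), G (t • a) = t • G a := by
    intro t a
    refine ext_inner_right ℝ fun b => ?_
    rw [hsym, real_inner_smul_right, hsym, real_inner_smul_left]
  set S : P →ₗ[ℝ] P := { toFun := G, map_add' := hadd, map_smul' := hsmul } with hS
  have hSG : ∀ a, S a = G a := fun a => rfl
  have hnn : ∀ a, 0 ≤ ⟪G a, a⟫ := by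
    intro a
    have h1 := hφG 0 a
    have h2 := hφG a 0
    rw [hG0, inner_zero_left] at h1
    rw [zero_sub, inner_neg_right] at h2
    linarith
  have hker : ∀ a, a ≠ 0 → G a ≠ 0 := by
    intro a ha h0
    by_cases h1 : ∃ c : ℝ, a = c • e₁
    · obtain ⟨c, hc⟩ := h1
      rw [hc, hsmul] at h0
      rcases smul_eq_zero.1 h0 with h2 | h2
      · exact ha (by rw [hc, h2, zero_smul])
      · rw [h2, norm_zero] at hGe; norm_num at hGe
    · push Not at h1
      have h2 := np_of_not_smul he₁ h1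
      have h3 : G (e₁ + a) = G e₁ := by rw [hadd, h0, add_zero]
      have h4 : e₁ + a ≠ 0 := by
        intro h5
        have := h2 1 1 (by rw [one_smul, one_smul]; exact h5)
        norm_num at this
      have h5 := hGn 0 (e₁ + a) (Ne.symm h4)
      have h6 := hGn 0 e₁ (Ne.symm he₁)
      rw [hG0, sub_zero, h3, hGe, one_smul] at h5
      rw [hG0, sub_zero, hGe, one_smul] at h6
      obtain ⟨-, -, h7⟩ := hn 0 (e₁ + a) (Ne.symm h4)
      obtain ⟨-, -, h8⟩ := hn 0 e₁ (Ne.symm he₁)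
      rw [sub_zero] at h7 h8
      rw [← h5, h6] at h7
      obtain ⟨c, hc⟩ := hR1 e₁ (e₁ + a) (n 0 e₁) he₁ (hn1 _ _ (Ne.symm he₁)) h8 h7
      have := h2 (1 - c) 1 (by rw [sub_smul, one_smul, ← hc, one_smul]; abel)
      norm_num at this
  refine ⟨S, fun a b => ?_, fun a ha => ?_, fun a ha => ?_⟩
  · rw [hSG, hSG, hsym, real_inner_comm]
  · rw [hSG]
    refine lt_of_le_of_ne (hnn a) fun h0 => ?_
    have h1 : 0 < ‖G a‖ ^ 2 := pow_pos (norm_pos_iff.2 (hker a ha)) 2
    set q := ⟪G (G a), G a⟫ with hq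
    have hq0 : 0 ≤ q := hnn _
    set t : ℝ := -(‖G a‖ ^ 2 / (q + 1)) with ht
    have h2 := hnn (a + t • G a)
    have h3 : ⟪G (a + t • G a), a + t • G a⟫ = 2 * t * ‖G a‖ ^ 2 + t ^ 2 * q := by
      rw [hadd, hsmul, inner_add_left, inner_add_right, inner_add_right, ← h0,
        real_inner_smul_right, real_inner_smul_left, real_inner_smul_left, real_inner_smul_right,
        hsym (G a) a, real_inner_self_eq_norm_sq, ← hq]
      ring
    rw [h3, ht] at h2
    have h4 : 2 * -(‖G a‖ ^ 2 / (q + 1)) * ‖G a‖ ^ 2 + (-(‖G a‖ ^ 2 / (q + 1))) ^ 2 * q =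
        -((‖G a‖ ^ 2) ^ 2 * (q + 2) / (q + 1) ^ 2) := by
      field_simp; ring
    rw [h4] at h2
    have h5 : 0 < (‖G a‖ ^ 2) ^ 2 * (q + 2) / (q + 1) ^ 2 := by positivity
    linarith
  · rw [hSG]
    have h1 := hGn 0 a (Ne.symm ha)
    rw [hG0, sub_zero] at h1
    obtain ⟨-, -, h2⟩ := hn 0 a (Ne.symm ha)
    rw [sub_zero] at h2
    have h3 := hRs _ _ 1 ‖G a‖ (norm_ne_zero_iff.2 (hker a ha)) h2
    rwa [one_smul, ← h1] at h3

end lin

end Pool.Agent.N553.FG
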