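import Pool.Agent.N553.FG.Plane
import Pool.Agent.N553.FG.Lin

set_option autoImplicit false
set_option linter.unusedSectionVars false

open Set Filter Topology Metric
open scoped RealInnerProductSpace

namespace Pool.Agent.N553.FG

variable {V : Type*} [NormedAddCommGroup V] [InnerProductSpace ℝ V] [FiniteDimensional ℝ V]

theorem Body.subset_closure_interior {M : Set V} (h : Body M) : M ⊆ closure (interior M) := by
  rw [h.cvx.closure_interior_eq_closure_of_nonempty_interior h.int]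
  exact subset_closure

theorem Body.mem_of_frontier {M : Set V} (h : Body M) {p : V} (hp : p ∈ frontier M) : p ∈ M :=
  h.cpt.isClosed.frontier_subset hp

theorem Body.notMem_interior {M : Set V} (h : Body M) {p : V} (hp : p ∈ frontier M) :
    p ∉ interior M := by
  rw [h.cpt.isClosed.frontier_eq] at hp
  exact hp.2

theorem Body.mem_frontier {M : Set V} (h : Body M) {p : V} (hp : p ∈ M) (hp' : p ∉ interior M) :
    p ∈ frontier M := by
  rw [h.cpt.isClosed.frontier_eq]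
  exact ⟨hp, hp'⟩

/-- boundary points have unit normals -/
theorem Body.exists_normal {M : Set V} (h : Body M) {p : V} (hp : p ∈ frontier M) :
    ∃ u, ‖u‖ = 1 ∧ Nor M p u := by
  obtain ⟨f, hf⟩ := geometric_hahn_banach_open_point h.cvx.interior isOpen_interior
    (h.notMem_interior hp)
  set w := (InnerProductSpace.toDual ℝ V).symm f with hw
  have hfw : ∀ y, ⟪w, y⟫ = f y := fun y => by rw [hw]; simp
  have hle : ∀ z ∈ M, ⟪w, z⟫ ≤ ⟪w, p⟫ := by
    have h1 : closure (interior M) ⊆ {z | ⟪w, z⟫ ≤ ⟪w, p⟫} := by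
      refine closure_minimal (fun z hz => ?_) (isClosed_le (by fun_prop) continuous_const)
      simp only [mem_ofPred_eq, hfw]
      exact (hf z hz).le
    exact fun z hz => h1 (h.subset_closure_interior hz)
  have hw0 : w ≠ 0 := by
    intro h0
    obtain ⟨o, ho⟩ := h.int
    have := hf o ho
    rw [← hfw, ← hfw, h0, inner_zero_left, inner_zero_left] at this
    exact lt_irrefl _ this
  have hn : 0 < ‖w‖ := norm_pos_iff.2 hw0
  refine ⟨‖w‖⁻¹ • w, by rw [norm_smul, norm_inv, norm_norm, inv_mul_cancel₀ hn.ne'], ?_⟩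
  exact (show Nor M p w from ⟨h.mem_of_frontier hp, hle⟩).smul (inv_nonneg.2 hn.le)

open Classical in
/-- the unit normal field -/
noncomputable def un (M : Set V) (y : V) : V :=
  if h : ∃ u, ‖u‖ = 1 ∧ Nor M y u then h.choose else 0

theorem un_spec {M : Set V} (h : Body M) {p : V} (hp : p ∈ frontier M) :
    ‖un M p‖ = 1 ∧ Nor M p (un M p) := by
  have h1 := h.exists_normal hp
  unfold un
  rw [dif_pos h1]
  exact h1.choose_spec

theorem Nor.frontier {M : Set V} (h : Body M) {p u : V} (hp : Nor M p u) (hu : u ≠ 0) :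
    p ∈ frontier M := h.mem_frontier hp.1 (hp.not_interior h hu)

/-- on a ray from a point of `M`, the boundary comes after the interior -/
theorem ray_lt {M : Set V} (h : Body M) {p d : V} {t z : ℝ} (hp : p ∈ M) (ht : 0 < t)
    (hti : p + t • d ∈ interior M) (hz : 0 < z) (hzf : p + z • d ∈ frontier M) : t < z := by
  by_contra hcon
  push Not at hcon
  apply h.notMem_interior hzf
  rcases hcon.eq_or_lt with h1 | h1
  · rw [h1]; exact hti
  · apply h.cvx.openSegment_interior_self_subset_interior hti hp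
    refine ⟨z / t, 1 - z / t, by positivity, ?_, by ring, ?_⟩
    · rw [sub_pos, div_lt_one ht]; exact h1
    · rw [smul_add, smul_smul, div_mul_cancel₀ _ ht.ne', sub_smul, one_smul]
      abel

theorem ray_unique {M : Set V} (h : Body M) {p d : V} {t z z' : ℝ} (hp : p ∈ M) (ht : 0 < t)
    (hti : p + t • d ∈ interior M) (hz : 0 < z) (hzf : p + z • d ∈ frontier M)
    (hz' : 0 < z') (hzf' : p + z' • d ∈ frontier M) : z = z' := by
  have h1 := ray_lt h hp ht hti hz hzf
  have h2 := ray_lt h hp ht hti hz' hzf'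
  have e : ∀ r : ℝ, p + r • d = (p + t • d) + (r - t) • d := by
    intro r; rw [sub_smul]; abel
  rw [e] at hzf hzf'
  have := exit_unique h hti (sub_pos.2 h1) (sub_pos.2 h2) hzf hzf'
  linarith

theorem ray_exists {M : Set V} (h : Body M) {p d : V} {t : ℝ} (hd : d ≠ 0) (ht : 0 < t)
    (hti : p + t • d ∈ interior M) : ∃ z : ℝ, 0 < z ∧ p + z • d ∈ frontier M := by
  obtain ⟨r, hr, hr'⟩ := exit_exists h hti hd
  refine ⟨t + r, by linarith, ?_⟩
  rw [add_smul, ← add_assoc]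
  exact hr'

namespace Cfg

variable {M K : Set V} {η : V → V} (C : Cfg M K η)
include C

theorem unit_unique {p u u' : V} (hu : ‖u‖ = 1) (hu' : ‖u'‖ = 1) (h : Nor M p u)
    (h' : Nor M p u') : u = u' := by
  have hu0 : u ≠ 0 := by intro h0; rw [h0, norm_zero] at hu; norm_num at hu
  have hu0' : u' ≠ 0 := by intro h0; rw [h0, norm_zero] at hu'; norm_num at hu'
  obtain ⟨c, hc, rfl⟩ := C.smooth hu0 hu0' h h'
  rw [norm_smul, hu, mul_one, Real.norm_eq_abs, abs_of_pos hc] at hu'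
  rw [hu', one_smul]

theorem un_tendsto {ι : Type*} {l : Filter ι} {y : ι → V} {y₀ : V} (hy₀ : y₀ ∈ frontier M)
    (hy : Tendsto y l (𝓝 y₀)) (hyF : ∀ᶠ i in l, y i ∈ frontier M) :
    Tendsto (fun i => un M (y i)) l (𝓝 (un M y₀)) := by
  rw [tendsto_iff_ultrafilter]
  intro 𝒰 h𝒰
  obtain ⟨u, hu, hu'⟩ := (isCompact_sphere (0 : V) 1).ultrafilter_le_nhds
    (𝒰.map (fun i => un M (y i))) (by
      rw [Ultrafilter.coe_map, le_principal_iff, mem_map]
      exact h𝒰 (hyF.mono fun i hi => by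
        change un M (y i) ∈ sphere (0 : V) 1
        rw [mem_sphere_zero_iff_norm]; exact (un_spec C.bM hi).1))
  have ht : Tendsto (fun i => un M (y i)) 𝒰 (𝓝 u) := hu'
  have hy' : Tendsto y 𝒰 (𝓝 y₀) := hy.mono_left h𝒰
  have h1 : Nor M y₀ u := by
    refine ⟨C.bM.mem_of_frontier hy₀, fun z hz => ?_⟩
    refine le_of_tendsto_of_tendsto (ht.inner tendsto_const_nhds) (ht.inner hy') ?_
    filter_upwards [h𝒰 hyF] with i hi using (un_spec C.bM hi).2.2 z hz
  rw [mem_sphere_zero_iff_norm] at hu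
  rw [← C.unit_unique hu (un_spec C.bM hy₀).1 h1 (un_spec C.bM hy₀).2]
  exact ht

theorem enter {p n d : V} (hn : n ≠ 0) (hp : Nor M p n) (hd : ⟪n, d⟫ < 0) :
    ∃ t : ℝ, 0 < t ∧ p + t • d ∈ interior M := by
  by_contra hcon
  push Not at hcon
  set R : Set V := (fun t : ℝ => p + t • d) '' Ioi 0 with hR
  have hRc : Convex ℝ R := by
    rintro _ ⟨s, hs, rfl⟩ _ ⟨t, ht, rfl⟩ a b ha hb hab
    refine ⟨a • s + b • t, (convex_Ioi (0:ℝ)) hs ht ha hb hab, ?_⟩
    have : p = a • p + b • p := by rw [← add_smul, hab, one_smul]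
    simp only [smul_add, add_smul, smul_smul, smul_eq_mul]
    nth_rewrite 1 [this]
    abel
  have hdis : Disjoint (interior M) R := by
    rw [Set.disjoint_left]
    rintro _ hy ⟨t, ht, rfl⟩
    exact hcon t ht hy
  obtain ⟨f, u, h1, h2⟩ := geometric_hahn_banach_open C.bM.cvx.interior isOpen_interior hRc hdis
  set w := (InnerProductSpace.toDual ℝ V).symm f with hw
  have hfw : ∀ y, ⟪w, y⟫ = f y := fun y => by rw [hw]; simp
  have hle : ∀ z ∈ M, ⟪w, z⟫ ≤ u := by
    have h3 : closure (interior M) ⊆ {z | ⟪w, z⟫ ≤ u} := by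
      refine closure_minimal (fun z hz => ?_) (isClosed_le (by fun_prop) continuous_const)
      simp only [mem_ofPred_eq, hfw]
      exact (h1 z hz).le
    exact fun z hz => h3 (C.bM.subset_closure_interior hz)
  have hge : ∀ t : ℝ, 0 < t → u ≤ ⟪w, p⟫ + t * ⟪w, d⟫ := by
    intro t ht
    have := h2 _ ⟨t, ht, rfl⟩
    rwa [← hfw, inner_add_right, real_inner_smul_right] at this
  have hup : u ≤ ⟪w, p⟫ := by
    have h4 : Tendsto (fun t : ℝ => ⟪w, p⟫ + t * ⟪w, d⟫) (𝓝[>] 0) (𝓝 (⟪w, p⟫ + 0 * ⟪w, d⟫)) :=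
      ((by fun_prop : Continuous fun t : ℝ => ⟪w, p⟫ + t * ⟪w, d⟫).tendsto 0).mono_left
        nhdsWithin_le_nhds
    rw [zero_mul, add_zero] at h4
    exact ge_of_tendsto h4 (eventually_mem_nhdsWithin.mono fun t ht => hge t ht)
  have hnor : Nor M p w := ⟨hp.1, fun z hz => (hle z hz).trans hup⟩
  have hw0 : w ≠ 0 := by
    intro h0
    obtain ⟨o, ho⟩ := C.bM.int
    have := h1 o ho
    rw [← hfw] at this
    rw [h0, inner_zero_left] at this hup
    exact absurd this (not_lt.2 hup)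
  obtain ⟨c, hc, hcw⟩ := C.smooth hn hw0 hp hnor
  have h5 := hge 1 one_pos
  have h6 := hle p hp.1
  rw [hcw, real_inner_smul_left, real_inner_smul_left, one_mul] at h5
  rw [hcw, real_inner_smul_left] at h6
  have := mul_neg_of_pos_of_neg hc hd
  linarith

end Cfg

/-- radial chart of the boundary of `M` with base point `p` -/
structure Chart (M : Set V) (p n : V) where
  norm_n : ‖n‖ = 1
  nor : Nor M p n
  z : (ℝ ∙ n)ᗮ → ℝ
  σ : (ℝ ∙ n)ᗮ → V
  z_pos : ∀ W, 0 < z W
  q_mem : ∀ W, p + z W • ((W : V) - n) ∈ frontier M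
  σ_nor : ∀ W, Nor M (p + z W • ((W : V) - n)) (σ W)
  σ_one : ∀ W, ⟪σ W, z W • ((W : V) - n)⟫ = 1
  z_cont : Continuous z
  σ_cont : Continuous σ
  surj : ∀ y ∈ frontier M, y ≠ p → ∃ W : (ℝ ∙ n)ᗮ, y = p + z W • ((W : V) - n)

theorem mem_perp {n : V} (W : (ℝ ∙ n)ᗮ) : ⟪n, (W : V)⟫ = 0 :=
  Submodule.mem_orthogonal_singleton_iff_inner_right.1 W.2

theorem mem_perp' {n : V} (W : (ℝ ∙ n)ᗮ) : ⟪(W : V), n⟫ = 0 := by
  rw [real_inner_comm]; exact mem_perp W

theorem sub_n_ne {n : V} (hn : n ≠ 0) (W : (ℝ ∙ n)ᗮ) : (W : V) - n ≠ 0 := by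
  intro h
  have h1 : ⟪n, (W : V) - n⟫ = 0 := by rw [h, inner_zero_right]
  rw [inner_sub_right, mem_perp, zero_sub, neg_eq_zero] at h1
  exact hn (inner_self_eq_zero.1 h1)

theorem Cfg.exists_chart {M K : Set V} {η : V → V} (C : Cfg M K η) {p : V}
    (hp : p ∈ frontier M) : Nonempty (Chart M p (un M p)) := by
  obtain ⟨hn1, hnor⟩ := un_spec C.bM hp
  set n := un M p with hn
  have hn0 : n ≠ 0 := by intro h0; rw [h0, norm_zero] at hn1; norm_num at hn1
  have hnn : ⟪n, n⟫ = 1 := by rw [real_inner_self_eq_norm_sq, hn1]; norm_num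
  have hdir : ∀ W : (ℝ ∙ n)ᗮ, ⟪n, (W : V) - n⟫ = -1 := by
    intro W; rw [inner_sub_right, mem_perp, hnn]; norm_num
  have hent : ∀ W : (ℝ ∙ n)ᗮ, ∃ t : ℝ, 0 < t ∧ p + t • ((W : V) - n) ∈ interior M := fun W =>
    C.enter hn0 hnor (by rw [hdir]; norm_num)
  have hzex : ∀ W : (ℝ ∙ n)ᗮ, ∃ z : ℝ, 0 < z ∧ p + z • ((W : V) - n) ∈ frontier M := by
    intro W
    obtain ⟨t, ht, ht'⟩ := hent W
    exact ray_exists C.bM (sub_n_ne hn0 W) ht ht'
  choose z hz hzf using hzex
  have huniq : ∀ (W : (ℝ ∙ n)ᗮ) (r : ℝ), 0 < r → p + r • ((W : V) - n) ∈ frontier M →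
      r = z W := by
    intro W r hr hrf
    obtain ⟨t, ht, ht'⟩ := hent W
    exact ray_unique C.bM hnor.1 ht ht' hr hrf (hz W) (hzf W)
  obtain ⟨D, hD⟩ := C.bM.cpt.isBounded.subset_closedBall p
  have hge1 : ∀ W : (ℝ ∙ n)ᗮ, 1 ≤ ‖(W : V) - n‖ := by
    intro W
    have h1 := abs_real_inner_le_norm n ((W : V) - n)
    rw [hdir, hn1, one_mul, abs_neg, abs_one] at h1
    exact h1
  have hzD : ∀ W, z W ≤ D := by
    intro W
    have h1 := hD (C.bM.mem_of_frontier (hzf W))
    rw [mem_closedBall, dist_eq_norm, add_sub_cancel_left, norm_smul, Real.norm_eq_abs,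
      abs_of_pos (hz W)] at h1
    nlinarith [hge1 W, hz W]
  have hzc : Continuous z := by
    rw [continuous_iff_continuousAt]
    intro W₀
    unfold ContinuousAt
    rw [tendsto_iff_ultrafilter]
    intro 𝒰 h𝒰
    obtain ⟨r, hr, hr'⟩ := isCompact_Icc.ultrafilter_le_nhds (𝒰.map z) (by
      rw [Ultrafilter.coe_map, le_principal_iff, mem_map]
      exact Eventually.of_forall fun W => (⟨(hz W).le, hzD W⟩ : z W ∈ Icc (0:ℝ) D))
    have ht : Tendsto z 𝒰 (𝓝 r) := hr'
    have hW : Tendsto (fun W : (ℝ ∙ n)ᗮ => (W : V)) 𝒰 (𝓝 (W₀ : V)) :=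
      (continuous_subtype_val.tendsto W₀).mono_left h𝒰
    have h1 : Tendsto (fun W : (ℝ ∙ n)ᗮ => p + z W • ((W : V) - n)) 𝒰
        (𝓝 (p + r • ((W₀ : V) - n))) :=
      tendsto_const_nhds.add (ht.smul (hW.sub tendsto_const_nhds))
    have h2 : p + r • ((W₀ : V) - n) ∈ frontier M :=
      isClosed_frontier.mem_of_tendsto h1 (Eventually.of_forall hzf)
    obtain ⟨t, ht0, ht'⟩ := hent W₀
    have h3 : Tendsto (fun W : (ℝ ∙ n)ᗮ => p + t • ((W : V) - n)) 𝒰
        (𝓝 (p + t • ((W₀ : V) - n))) :=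
      tendsto_const_nhds.add (tendsto_const_nhds.smul (hW.sub tendsto_const_nhds))
    have h4 : ∀ᶠ W in (𝒰 : Filter (ℝ ∙ n)ᗮ), t ≤ z W := by
      filter_upwards [h3.eventually_mem (isOpen_interior.mem_nhds ht')] with W hWi
      exact (ray_lt C.bM hnor.1 ht0 hWi (hz W) (hzf W)).le
    have h5 : t ≤ r := ge_of_tendsto ht h4
    rw [← huniq W₀ r (ht0.trans_le h5) h2]
    exact ht
  have hqc : Continuous (fun W : (ℝ ∙ n)ᗮ => p + z W • ((W : V) - n)) := by fun_prop
  have hpos : ∀ W : (ℝ ∙ n)ᗮ, 0 < ⟪un M (p + z W • ((W : V) - n)), z W • ((W : V) - n)⟫ := by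
    intro W
    obtain ⟨h1, h2⟩ := un_spec C.bM (hzf W)
    have h0 : un M (p + z W • ((W : V) - n)) ≠ 0 := by
      intro h0; rw [h0, norm_zero] at h1; norm_num at h1
    have h3 := h2.2 p hnor.1
    rw [inner_add_right] at h3
    have h4 : 0 ≤ ⟪un M (p + z W • ((W : V) - n)), z W • ((W : V) - n)⟫ := by linarith
    rcases h4.lt_or_eq with h5 | h5
    · exact h5
    · exfalso
      have h6 : Nor M p (un M (p + z W • ((W : V) - n))) :=
        nor_of_le C.bM hnor.1 (by rw [h2.hh_eq, inner_add_right, ← h5, add_zero])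
      have h7 := C.strict h0 h2 h6
      have h8 : z W • ((W : V) - n) = 0 := by
        have : p + z W • ((W : V) - n) - p = 0 := by rw [h7, sub_self]
        rwa [add_sub_cancel_left] at this
      exact (smul_ne_zero (hz W).ne' (sub_n_ne hn0 W)) h8
  have hunc : Continuous (fun W : (ℝ ∙ n)ᗮ => un M (p + z W • ((W : V) - n))) := by
    rw [continuous_iff_continuousAt]
    intro W₀
    exact C.un_tendsto (hzf W₀) (hqc.tendsto W₀) (Eventually.of_forall hzf)
  refine ⟨⟨hn1, hnor, z, fun W => (⟪un M (p + z W • ((W : V) - n)), z W • ((W : V) - n)⟫)⁻¹ •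
    un M (p + z W • ((W : V) - n)), hz, hzf, fun W => ?_, fun W => ?_, hzc, ?_, ?_⟩⟩
  · exact (un_spec C.bM (hzf W)).2.smul (inv_nonneg.2 (hpos W).le)
  · rw [real_inner_smul_left, inv_mul_cancel₀ (hpos W).ne']
  · refine Continuous.smul (Continuous.inv₀ ?_ fun W => (hpos W).ne') hunc
    exact hunc.inner (by fun_prop)
  · intro y hy hyp
    have h1 : 0 < -⟪n, y - p⟫ := by
      rw [inner_sub_right]
      have h2 := hnor.2 y (C.bM.mem_of_frontier hy)
      rcases h2.lt_or_eq with h3 | h3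
      · linarith
      · exact absurd (C.strict hn0 (nor_of_le C.bM (C.bM.mem_of_frontier hy)
          (by rw [hnor.hh_eq, h3])) hnor) hyp
    set ζ := -⟪n, y - p⟫ with hζ
    have h2 : ζ⁻¹ • (y - p) + n ∈ (ℝ ∙ n)ᗮ := by
      rw [Submodule.mem_orthogonal_singleton_iff_inner_right, inner_add_right,
        real_inner_smul_right, hnn]
      have : ⟪n, y - p⟫ = -ζ := by rw [hζ, neg_neg]
      rw [this]
      field_simp
      ring
    refine ⟨⟨_, h2⟩, ?_⟩
    have h3 : y = p + ζ • (((⟨ζ⁻¹ • (y - p) + n, h2⟩ : (ℝ ∙ n)ᗮ) : V) - n) := by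
      simp only [add_sub_cancel_right, smul_smul, mul_inv_cancel₀ h1.ne', one_smul]
      abel
    rw [← huniq _ ζ h1 (by rw [← h3]; exact hy)]
    exact h3

end Pool.Agent.N553.FG
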