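import Pool.Agent.N553.FG.Basic

set_option autoImplicit false
set_option linter.unusedSectionVars false

open Set Filter Topology Metric
open scoped RealInnerProductSpace

namespace Pool.Agent.N553.FG

variable {V : Type*} [NormedAddCommGroup V] [InnerProductSpace ℝ V]

/-- the graze of `M` from `x`, in terms of supporting hyperplanes -/
def Gz (M : Set V) (x : V) : Set V := {y | ∃ u : V, u ≠ 0 ∧ Nor M y u ∧ ⟪u, x⟫ = ⟪u, y⟫}

/-- the configuration: every graze of `M` from the boundary of `K` is in a hyperplane not through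
the source -/
structure Cfg (M K : Set V) (η : V → V) : Prop where
  dim : Module.finrank ℝ V = 3
  bM : Body M
  bK : Body K
  sub : M ⊆ interior K
  flat : ∀ x ∈ frontier K, ∀ y ∈ Gz M x, ⟪η x, y - x⟫ = 1

/-! ### exit points -/

theorem exit_exists {K : Set V} (h : Body K) {p d : V} (hp : p ∈ interior K) (hd : d ≠ 0) :
    ∃ t : ℝ, 0 < t ∧ p + t • d ∈ frontier K := by
  have hc : Continuous (fun t : ℝ => p + t • d) := by fun_prop
  obtain ⟨R, hR⟩ := h.cpt.isBounded.subset_closedBall p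
  have hdn : 0 < ‖d‖ := norm_pos_iff.2 hd
  have hsub : (fun t : ℝ => p + t • d) ⁻¹' K ⊆ Icc (-(R / ‖d‖)) (R / ‖d‖) := by
    intro t ht
    have := hR ht
    rw [mem_closedBall, dist_eq_norm, add_sub_cancel_left, norm_smul, Real.norm_eq_abs] at this
    rw [← le_div_iff₀ hdn] at this
    exact abs_le.1 this
  have hcpt : IsCompact ((fun t : ℝ => p + t • d) ⁻¹' K) :=
    isCompact_Icc.of_isClosed_subset (h.cpt.isClosed.preimage hc) hsub
  have hne : ((fun t : ℝ => p + t • d) ⁻¹' K).Nonempty := ⟨0, by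
    simpa using interior_subset hp⟩
  obtain ⟨t, ht, hmax⟩ := hcpt.exists_isMaxOn hne (f := fun t => t) continuousOn_id
  have hev : ∀ s : ℝ, p + s • d ∈ interior K → ∃ s' > s, p + s' • d ∈ K := by
    intro s hs
    have h1 : ∀ᶠ r in 𝓝 s, p + r • d ∈ interior K :=
      hc.continuousAt.eventually_mem (isOpen_interior.mem_nhds hs)
    have h2 : ∀ᶠ r in 𝓝[>] s, p + r • d ∈ interior K := nhdsWithin_le_nhds h1
    obtain ⟨r, hr, hr0⟩ := (h2.and self_mem_nhdsWithin).exists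
    exact ⟨r, hr0, interior_subset hr⟩
  refine ⟨t, ?_, ?_⟩
  · obtain ⟨s', hs', hs''⟩ := hev 0 (by simpa using hp)
    exact lt_of_lt_of_le hs' (hmax hs'')
  · rw [h.cpt.isClosed.frontier_eq]
    refine ⟨ht, fun hint => ?_⟩
    obtain ⟨s', hs', hs''⟩ := hev t hint
    exact absurd (hmax hs'') (not_le.2 hs')

theorem exit_unique {K : Set V} (h : Body K) {p d : V} (hp : p ∈ interior K) {t t' : ℝ}
    (ht : 0 < t) (ht' : 0 < t') (h1 : p + t • d ∈ frontier K) (h2 : p + t' • d ∈ frontier K) :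
    t = t' := by
  have key : ∀ s s' : ℝ, 0 < s → s < s' → p + s • d ∈ frontier K → p + s' • d ∈ frontier K →
      False := by
    intro s s' hs hss h3 h4
    have h5 : p + s' • d ∈ K := h.cpt.isClosed.frontier_subset h4
    have h6 := h.cvx.openSegment_interior_self_subset_interior hp h5
    have h7 : p + s • d ∈ openSegment ℝ p (p + s' • d) := by
      have hs' : 0 < s' := hs.trans hss
      refine ⟨1 - s / s', s / s', ?_, by positivity, by ring, ?_⟩
      · rw [sub_pos, div_lt_one hs']; exact hss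
      · rw [smul_add, smul_smul, div_mul_cancel₀ _ hs'.ne', ← add_assoc, ← add_smul]
        simp
    rw [h.cpt.isClosed.frontier_eq] at h3
    exact h3.2 (h6 h7)
  rcases lt_trichotomy t t' with h3 | h3 | h3
  · exact (key t t' ht h3 h1 h2).elim
  · exact h3
  · exact (key t' t ht' h3 h2 h1).elim

theorem exit_tendsto {K : Set V} (h : Body K) {ι : Type*} (𝒰 : Ultrafilter ι) {y d : ι → V}
    {t : ι → ℝ} {q d₀ : V} {t₀ : ℝ} (hq : q ∈ interior K) (hd : d₀ ≠ 0)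
    (hy : Tendsto y 𝒰 (𝓝 q)) (hdt : Tendsto d 𝒰 (𝓝 d₀))
    (ht : ∀ᶠ i in (𝒰 : Filter ι), 0 < t i ∧ y i + t i • d i ∈ frontier K) (ht₀ : 0 < t₀)
    (hf : q + t₀ • d₀ ∈ frontier K) : Tendsto t 𝒰 (𝓝 t₀) := by
  obtain ⟨R, hR⟩ := h.cpt.isBounded.subset_closedBall (0 : V)
  have hdn : 0 < ‖d₀‖ := norm_pos_iff.2 hd
  have h1 : ∀ᶠ i in (𝒰 : Filter ι), ‖d₀‖ / 2 < ‖d i‖ :=
    hdt.norm.eventually (lt_mem_nhds (by linarith))
  have h2 : ∀ᶠ i in (𝒰 : Filter ι), ‖y i‖ < ‖q‖ + 1 :=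
    hy.norm.eventually (gt_mem_nhds (by linarith))
  have h3 : ∀ᶠ i in (𝒰 : Filter ι), t i ∈ Icc (0:ℝ) ((|R| + ‖q‖ + 1) / (‖d₀‖ / 2)) := by
    filter_upwards [h1, h2, ht] with i hi1 hi2 hi3
    refine ⟨hi3.1.le, ?_⟩
    rw [le_div_iff₀ (by positivity)]
    have h4 : ‖y i + t i • d i‖ ≤ R := by
      have := hR (h.cpt.isClosed.frontier_subset hi3.2)
      rwa [mem_closedBall_zero_iff] at this
    have h5 : ‖t i • d i‖ ≤ ‖y i + t i • d i‖ + ‖y i‖ := by
      have := norm_sub_le (y i + t i • d i) (y i)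
      rwa [add_sub_cancel_left] at this
    rw [norm_smul, Real.norm_eq_abs, abs_of_pos hi3.1] at h5
    have h6 : t i * (‖d₀‖ / 2) ≤ t i * ‖d i‖ := mul_le_mul_of_nonneg_left hi1.le hi3.1.le
    have h7 := le_abs_self R
    linarith
  obtain ⟨s, hs, hs'⟩ := isCompact_Icc.ultrafilter_le_nhds (𝒰.map t) (by
    rw [Ultrafilter.coe_map, le_principal_iff, mem_map]; exact h3)
  have hts : Tendsto t 𝒰 (𝓝 s) := hs'
  have h8 : Tendsto (fun i => y i + t i • d i) 𝒰 (𝓝 (q + s • d₀)) := hy.add (hts.smul hdt)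
  have h9 : q + s • d₀ ∈ frontier K :=
    isClosed_frontier.mem_of_tendsto h8 (ht.mono fun i hi => hi.2)
  have h10 : s ≠ 0 := by
    rintro rfl
    rw [zero_smul, add_zero, h.cpt.isClosed.frontier_eq] at h9
    exact h9.2 hq
  have h11 : 0 < s := lt_of_le_of_ne hs.1 (Ne.symm h10)
  rw [exit_unique h hq ht₀ h11 hf h9]
  exact hts

section core

variable [FiniteDimensional ℝ V] {M K : Set V} {η : V → V}

theorem exists_gz_pos (hd : Module.finrank ℝ V = 3) (h : Body M) {x : V} (hx : x ∉ M) {b : V}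
    (hb : gg M x b < 0) : ∃ y ∈ Gz M x, 0 < ⟪b, y - x⟫ := by
  obtain ⟨w, hw, hw1, -⟩ := exists_perp2 hd b b
  obtain ⟨u, hu, huw⟩ := exists_pos_ne h hx hw
  obtain ⟨s, hs, hs0⟩ := exists_root h hu hb
  have hne : u + s • b ≠ 0 := by
    intro h0
    apply huw
    have : ⟪u + s • b, w⟫ = 0 := by rw [h0, inner_zero_left]
    rwa [inner_add_left, real_inner_smul_left, hw1, mul_zero, add_zero] at this
  obtain ⟨y, hy⟩ := exists_nor h (u + s • b)
  have h1 : ⟪u + s • b, x⟫ = ⟪u + s • b, y⟫ := by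
    unfold gg at hs0
    rw [hy.hh_eq] at hs0
    linarith
  refine ⟨y, ⟨_, hne, hy, h1⟩, ?_⟩
  have h2 : ⟪u, y⟫ < ⟪u, x⟫ := by
    unfold gg at hu
    linarith [le_hh h hy.1 u]
  rw [inner_add_left, inner_add_left, real_inner_smul_left, real_inner_smul_left] at h1
  have h3 : s * ⟪b, y - x⟫ = ⟪u, x⟫ - ⟪u, y⟫ := by rw [inner_sub_right]; linarith
  have h4 : 0 < s * ⟪b, y - x⟫ := by rw [h3]; linarith
  exact (pos_iff_pos_of_mul_pos h4).1 hs

theorem gz_span (hd : Module.finrank ℝ V = 3) (h : Body M) {x : V} (hx : x ∉ M) {a : V}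
    (ha : a ≠ 0) : ∃ y ∈ Gz M x, ⟪a, y - x⟫ ≠ 0 := by
  have := gg_neg_lt h x ha
  rcases lt_or_ge (gg M x a) 0 with h1 | h1
  · obtain ⟨y, hy, hy'⟩ := exists_gz_pos hd h hx h1
    exact ⟨y, hy, hy'.ne'⟩
  · obtain ⟨y, hy, hy'⟩ := exists_gz_pos hd h hx (b := -a) (by linarith)
    rw [inner_neg_left] at hy'
    exact ⟨y, hy, by linarith [hy'] |> fun h : ⟪a, y - x⟫ < 0 => h.ne⟩

namespace Cfg

variable (C : Cfg M K η)
include C

theorem notMem {x : V} (hx : x ∈ frontier K) : x ∉ M := fun h => by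
  rw [C.bK.cpt.isClosed.frontier_eq] at hx
  exact hx.2 (C.sub h)

theorem gz_nonempty {x : V} (hx : x ∈ frontier K) : ∃ y, y ∈ Gz M x := by
  obtain ⟨w, hw, -, -⟩ := exists_perp2 C.dim (0 : V) 0
  obtain ⟨y, hy, -⟩ := gz_span C.dim C.bM (C.notMem hx) hw
  exact ⟨y, hy⟩

theorem eta_ne {x : V} (hx : x ∈ frontier K) : η x ≠ 0 := by
  obtain ⟨y, hy⟩ := C.gz_nonempty hx
  intro h
  have := C.flat x hx y hy
  rw [h, inner_zero_left] at this
  norm_num at this

theorem eta_unique {x a : V} (hx : x ∈ frontier K) (ha : ∀ y ∈ Gz M x, ⟪a, y - x⟫ = 1) :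
    a = η x := by
  by_contra hne
  obtain ⟨y, hy, hy'⟩ := gz_span C.dim C.bM (C.notMem hx) (sub_ne_zero.2 hne)
  apply hy'
  rw [inner_sub_left, ha y hy, C.flat x hx y hy, sub_self]

theorem gg_neg_eta_nonneg {x : V} (hx : x ∈ frontier K) : 0 ≤ gg M x (-η x) := by
  by_contra h
  obtain ⟨y, hy, hy'⟩ := exists_gz_pos C.dim C.bM (C.notMem hx) (not_le.1 h)
  rw [inner_neg_left, C.flat x hx y hy] at hy'
  linarith

theorem sign {x y : V} (hx : x ∈ frontier K) (hy : y ∈ M) : 0 < ⟪η x, y - x⟫ := by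
  have h1 := C.gg_neg_eta_nonneg hx
  have h2 := le_hh C.bM hy (-η x)
  unfold gg at h1
  rw [inner_neg_left] at h1 h2
  have h3 : 0 ≤ ⟪η x, y - x⟫ := by rw [inner_sub_right]; linarith
  rcases h3.lt_or_eq with h4 | h4
  · exact h4
  · exfalso
    have h5 : ⟪η x, x⟫ = ⟪η x, y⟫ := by rw [inner_sub_right] at h4; linarith
    have h6 : Nor M y (-η x) := nor_of_le C.bM hy (by rw [inner_neg_left]; linarith)
    have h7 : y ∈ Gz M x := ⟨-η x, neg_ne_zero.2 (C.eta_ne hx), h6, by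
      rw [inner_neg_left, inner_neg_left, h5]⟩
    have := C.flat x hx y h7
    linarith

theorem gg_neg_eta_pos {x : V} (hx : x ∈ frontier K) : 0 < gg M x (-η x) := by
  obtain ⟨y, hy⟩ := exists_nor C.bM (-η x)
  have := C.sign hx hy.1
  unfold gg
  rw [hy.hh_eq, inner_neg_left, inner_neg_left]
  rw [inner_sub_right] at this
  linarith

theorem gg_eta_neg {x : V} (hx : x ∈ frontier K) : gg M x (η x) < 0 := by
  have h1 := gg_neg_lt C.bM x (C.eta_ne hx)
  have h2 := C.gg_neg_eta_pos hx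
  linarith

/-- the projection lemma -/
theorem nor_proj {x p n : V} (hx : x ∈ frontier K) (hp : p ∈ Gz M x) (hn : Nor M p n) :
    Nor M p (n + ⟪n, x - p⟫ • η x) := by
  have h1 := C.flat x hx p hp
  have h2 : ⟪n + ⟪n, x - p⟫ • η x, x⟫ = ⟪n + ⟪n, x - p⟫ • η x, p⟫ := by
    have : ⟪n + ⟪n, x - p⟫ • η x, x - p⟫ = 0 := by
      rw [inner_add_left, real_inner_smul_left]
      have : ⟪η x, x - p⟫ = -1 := by
        rw [← neg_sub p x, inner_neg_right, h1]
      rw [this]; ring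
    rw [inner_sub_right] at this
    linarith
  apply nor_of_le C.bM hn.1
  by_contra hlt
  have h3 : gg M x (n + ⟪n, x - p⟫ • η x) < 0 := by
    unfold gg; linarith
  obtain ⟨y, hy, hy'⟩ := exists_gz_pos C.dim C.bM (C.notMem hx) h3
  obtain ⟨u, hu, huy, hux⟩ := hy
  rw [inner_add_left, real_inner_smul_left, C.flat x hx y ⟨u, hu, huy, hux⟩, mul_one,
    ← inner_add_right] at hy'
  have e : y - x + (x - p) = y - p := by abel
  rw [e, inner_sub_right] at hy'
  have := hn.2 y huy.1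
  linarith

/-- strict convexity -/
theorem strict {y y' u : V} (hu : u ≠ 0) (hy : Nor M y u) (hy' : Nor M y' u) : y = y' := by
  by_contra hne
  have hd : y' - y ≠ 0 := sub_ne_zero.2 (Ne.symm hne)
  obtain ⟨t, ht, hx⟩ := exit_exists C.bK (C.sub hy.1) hd
  set x := y + t • (y' - y) with hxdef
  have h0 : ⟪u, y⟫ = ⟪u, y'⟫ := le_antisymm (hy'.2 y hy.1) (hy.2 y' hy'.1)
  have h1 : ⟪u, x⟫ = ⟪u, y⟫ := by
    rw [hxdef, inner_add_right, real_inner_smul_right, inner_sub_right, h0]; ring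
  have h2 := C.flat x hx y ⟨u, hu, hy, h1⟩
  have h3 := C.flat x hx y' ⟨u, hu, hy', h1.trans h0⟩
  have e1 : y - x = -(t • (y' - y)) := by rw [hxdef]; abel
  have e2 : y' - x = (y' - y) - t • (y' - y) := by rw [hxdef]; abel
  rw [e1, inner_neg_right] at h2
  rw [e2, inner_sub_right] at h3
  have h4 : ⟪η x, y' - y⟫ = 0 := by linarith
  rw [real_inner_smul_right, h4] at h2
  norm_num at h2

/-- maximizers depend continuously on the normal -/
theorem nor_tendsto {ι : Type*} {l : Filter ι} {u y : ι → V} {u₀ y₀ : V} (hu₀ : u₀ ≠ 0)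
    (hu : Tendsto u l (𝓝 u₀)) (hy : ∀ᶠ i in l, Nor M (y i) (u i)) (hy₀ : Nor M y₀ u₀) :
    Tendsto y l (𝓝 y₀) := by
  rw [tendsto_iff_ultrafilter]
  intro 𝒰 h𝒰
  obtain ⟨y₁, hy₁, hy₁'⟩ := C.bM.cpt.ultrafilter_le_nhds (𝒰.map y) (by
    rw [Ultrafilter.coe_map, le_principal_iff, mem_map]
    exact h𝒰 (hy.mono fun i hi => hi.1))
  have ht : Tendsto y 𝒰 (𝓝 y₁) := hy₁'
  have hu' : Tendsto u 𝒰 (𝓝 u₀) := hu.mono_left h𝒰
  have h1 : Nor M y₁ u₀ := by
    refine ⟨hy₁, fun z hz => ?_⟩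
    refine le_of_tendsto_of_tendsto (hu'.inner tendsto_const_nhds) (hu'.inner ht) ?_
    filter_upwards [h𝒰 hy] with i hi using hi.2 z hz
  rw [C.strict hu₀ hy₀ h1]
  exact ht

/-- lower semicontinuity of grazes -/
theorem gz_lsc {x y : V} (hx : x ∉ M) (hy : y ∈ Gz M x) {ε : ℝ} (hε : 0 < ε) :
    ∀ᶠ x' in 𝓝 x, ∃ y' ∈ Gz M x', dist y' y < ε := by
  obtain ⟨u₀, hu₀, hy₀, hxy⟩ := hy
  obtain ⟨u₁, hu₁⟩ := exists_pos C.bM hx
  have hg0 : gg M x u₀ = 0 := by unfold gg; rw [hy₀.hh_eq, hxy]; ring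
  -- maximizers near u₀ are near y
  have h1 : ∀ᶠ u in 𝓝 u₀, ∀ y', Nor M y' u → dist y' y < ε := by
    by_contra hcon
    rw [not_eventually] at hcon
    obtain ⟨𝒰, h𝒰, hU⟩ : ∃ 𝒰 : Ultrafilter V, (𝒰 : Filter V) ≤ 𝓝 u₀ ∧
        ∀ᶠ u in (𝒰 : Filter V), ¬ ∀ y', Nor M y' u → dist y' y < ε := by
      have hne : NeBot (𝓝 u₀ ⊓ 𝓟 {u | ¬ ∀ y', Nor M y' u → dist y' y < ε}) := by
        rw [← frequently_mem_iff_neBot]; exact hcon
      refine ⟨Ultrafilter.of (𝓝 u₀ ⊓ 𝓟 {u | ¬ ∀ y', Nor M y' u → dist y' y < ε}),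
        (Ultrafilter.of_le _).trans inf_le_left, ?_⟩
      exact (Ultrafilter.of_le _).trans inf_le_right (mem_principal_self _)
    have hch : ∀ u, ∃ y', (¬ ∀ y', Nor M y' u → dist y' y < ε) → Nor M y' u ∧ ¬ dist y' y < ε := by
      intro u
      by_cases h : ¬ ∀ y', Nor M y' u → dist y' y < ε
      · push Not at h
        obtain ⟨y', h1, h2⟩ := h
        exact ⟨y', fun _ => ⟨h1, not_lt.2 h2⟩⟩
      · exact ⟨y, fun h' => absurd h' h⟩
    choose Y hY using hch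
    have h2 := C.nor_tendsto (l := (𝒰 : Filter V)) (u := id) (y := Y) hu₀ h𝒰
      (hU.mono fun u hu => (hY u hu).1) hy₀
    have h3 := h2.eventually (ball_mem_nhds y hε)
    obtain ⟨u, hu3, hu4⟩ := (h3.and hU).exists
    exact (hY u hu4).2 hu3
  have hc : Continuous (fun s : ℝ => u₀ + s • u₁) := by fun_prop
  have h2 : ∀ᶠ s in 𝓝 (0:ℝ), (∀ y', Nor M y' (u₀ + s • u₁) → dist y' y < ε) ∧
      u₀ + s • u₁ ≠ 0 := by
    have h3 : Tendsto (fun s : ℝ => u₀ + s • u₁) (𝓝 0) (𝓝 u₀) := by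
      have := hc.tendsto 0
      simpa using this
    exact (h3.eventually h1).and (h3.eventually_ne hu₀)
  rw [Metric.eventually_nhds_iff] at h2
  obtain ⟨δ, hδ, h2⟩ := h2
  set τ := δ / 2 with hτ
  have hτ0 : 0 < τ := by positivity
  have hp : 0 < gg M x (u₀ + τ • u₁) := by
    have := gg_add_le C.bM x u₀ (τ • u₁)
    rw [hg0, gg_smul C.bM x hτ0.le] at this
    have := mul_pos hτ0 hu₁
    linarith
  have hm : gg M x (u₀ + (-τ) • u₁) < 0 := by
    have := gg_add_le C.bM x (u₀ + (-τ) • u₁) (τ • u₁)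
    rw [gg_smul C.bM x hτ0.le, neg_smul, neg_add_cancel_right, hg0] at this
    have := mul_pos hτ0 hu₁
    rw [neg_smul]
    linarith
  have hcx : ∀ u : V, Continuous (fun x' : V => gg M x' u) := by
    intro u; unfold gg; fun_prop
  have h4 : ∀ᶠ x' in 𝓝 x, 0 < gg M x' (u₀ + τ • u₁) :=
    (hcx _).continuousAt.eventually (lt_mem_nhds hp)
  have h5 : ∀ᶠ x' in 𝓝 x, gg M x' (u₀ + (-τ) • u₁) < 0 :=
    (hcx _).continuousAt.eventually (gt_mem_nhds hm)
  filter_upwards [h4, h5] with x' h4 h5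
  have hcon : ContinuousOn (fun s : ℝ => gg M x' (u₀ + s • u₁)) (Icc (-τ) τ) :=
    ((gg_continuous C.bM x').comp (by fun_prop)).continuousOn
  obtain ⟨s, hs, hs'⟩ := intermediate_value_Icc (by linarith) hcon
    (show (0:ℝ) ∈ Icc (gg M x' (u₀ + (-τ) • u₁)) (gg M x' (u₀ + τ • u₁)) from ⟨h5.le, h4.le⟩)
  have hsd : dist s 0 < δ := by
    rw [Real.dist_eq, sub_zero, abs_lt]
    constructor <;> linarith [hs.1, hs.2]
  obtain ⟨y', hy'⟩ := exists_nor C.bM (u₀ + s • u₁)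
  refine ⟨y', ⟨_, (h2 hsd).2, hy', ?_⟩, (h2 hsd).1 y' hy'⟩
  simp only [gg] at hs'
  rw [hy'.hh_eq] at hs'
  linarith

/-- `η` is continuous on the boundary of `K` -/
theorem eta_continuousOn : ContinuousOn η (frontier K) := by
  intro x hx
  unfold ContinuousWithinAt
  rw [tendsto_iff_ultrafilter]
  intro 𝒰 h𝒰
  have h𝒰x : (𝒰 : Filter V) ≤ 𝓝 x := h𝒰.trans nhdsWithin_le_nhds
  have h𝒰K : ∀ᶠ x' in (𝒰 : Filter V), x' ∈ frontier K := h𝒰 self_mem_nhdsWithin
  have hb : ∀ x', 0 < 1 + ‖η x'‖ := fun x' => by positivity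
  obtain ⟨a, ha, ha'⟩ := (isCompact_closedBall (0 : V) 1).ultrafilter_le_nhds
    (𝒰.map (fun x' => (1 + ‖η x'‖)⁻¹ • η x')) (by
      rw [Ultrafilter.coe_map, le_principal_iff, mem_map]
      refine Eventually.of_forall fun x' => ?_
      rw [mem_closedBall_zero_iff, norm_smul, norm_inv, Real.norm_of_nonneg (hb x').le,
        inv_mul_le_one₀ (hb x')]
      linarith)
  obtain ⟨c, hc, hc'⟩ := (isCompact_Icc (a := (0:ℝ)) (b := 1)).ultrafilter_le_nhds
    (𝒰.map (fun x' => (1 + ‖η x'‖)⁻¹)) (by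
      rw [Ultrafilter.coe_map, le_principal_iff, mem_map]
      refine Eventually.of_forall fun x' => ?_
      refine ⟨(inv_pos.2 (hb x')).le, ?_⟩
      apply inv_le_one_of_one_le₀
      linarith [norm_nonneg (η x')])
  have ta : Tendsto (fun x' => (1 + ‖η x'‖)⁻¹ • η x') 𝒰 (𝓝 a) := ha'
  have tc : Tendsto (fun x' => (1 + ‖η x'‖)⁻¹) 𝒰 (𝓝 c) := hc'
  have tx : Tendsto (fun x' : V => x') 𝒰 (𝓝 x) := h𝒰x
  have key : ∀ y ∈ Gz M x, ⟪a, y - x⟫ = c := by
    intro y hy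
    have h1 : Tendsto (fun x' => ⟪(1 + ‖η x'‖)⁻¹ • η x', y - x'⟫ - (1 + ‖η x'‖)⁻¹) 𝒰
        (𝓝 (⟪a, y - x⟫ - c)) := (ta.inner (tendsto_const_nhds.sub tx)).sub tc
    have h2 : |⟪a, y - x⟫ - c| = 0 := by
      apply le_antisymm _ (abs_nonneg _)
      apply le_of_forall_pos_le_add
      intro ε hε
      rw [zero_add]
      refine le_of_tendsto h1.abs ?_
      filter_upwards [h𝒰x (C.gz_lsc (C.notMem hx) hy hε), h𝒰K] with x' hx' hxK
      obtain ⟨y', hy', hd⟩ := hx'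
      have h3 := C.flat x' hxK y' hy'
      rw [real_inner_smul_left]
      have e : (1 + ‖η x'‖)⁻¹ * ⟪η x', y - x'⟫ - (1 + ‖η x'‖)⁻¹ =
          (1 + ‖η x'‖)⁻¹ * ⟪η x', y - y'⟫ := by
        have : ⟪η x', y - y'⟫ = ⟪η x', y - x'⟫ - ⟪η x', y' - x'⟫ := by
          rw [← inner_sub_right]; congr 1; abel
        rw [this, h3]; ring
      rw [e, abs_mul, abs_of_pos (inv_pos.2 (hb x')), inv_mul_le_iff₀ (hb x')]
      calc |⟪η x', y - y'⟫| ≤ ‖η x'‖ * ‖y - y'‖ := abs_real_inner_le_norm _ _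
        _ ≤ ‖η x'‖ * ε := by
            apply mul_le_mul_of_nonneg_left _ (norm_nonneg _)
            rw [← dist_eq_norm, dist_comm]; exact hd.le
        _ ≤ (1 + ‖η x'‖) * ε := by nlinarith
    rw [abs_eq_zero] at h2
    linarith
  have hnorm : ‖a‖ = 1 - c := by
    refine tendsto_nhds_unique ta.norm ?_
    have h4 : Tendsto (fun x' => 1 - (1 + ‖η x'‖)⁻¹) 𝒰 (𝓝 (1 - c)) := tendsto_const_nhds.sub tc
    refine h4.congr fun x' => ?_
    rw [norm_smul, norm_inv, Real.norm_of_nonneg (hb x').le]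
    have := (hb x').ne'
    field_simp
    ring
  have hc0 : c ≠ 0 := by
    rintro rfl
    have : a ≠ 0 := by
      rw [← norm_ne_zero_iff, hnorm]; norm_num
    obtain ⟨y, hy, hy'⟩ := gz_span C.dim C.bM (C.notMem hx) this
    exact hy' (key y hy)
  have h5 : c⁻¹ • a = η x := by
    apply C.eta_unique hx
    intro y hy
    rw [real_inner_smul_left, key y hy, inv_mul_cancel₀ hc0]
  rw [← h5]
  have h6 : Tendsto (fun x' => ((1 + ‖η x'‖)⁻¹)⁻¹ • ((1 + ‖η x'‖)⁻¹ • η x')) 𝒰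
      (𝓝 (c⁻¹ • a)) := (tc.inv₀ hc0).smul ta
  refine h6.congr fun x' => ?_
  rw [smul_smul, inv_mul_cancel₀ (inv_ne_zero (hb x').ne'), one_smul]

theorem frontier_compact : IsCompact (frontier K) :=
  C.bK.cpt.of_isClosed_subset isClosed_frontier C.bK.cpt.isClosed.frontier_subset

theorem eta_bounded : ∃ c : ℝ, 0 < c ∧ ∀ x ∈ frontier K, ‖η x‖ ≤ c := by
  obtain ⟨c, hc⟩ := C.frontier_compact.exists_bound_of_continuousOn C.eta_continuousOn
  exact ⟨|c| + 1, by positivity, fun x hx => (hc x hx).trans (by linarith [le_abs_self c])⟩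

/-- points of `M` in the plane of the graze, with a normal, are in the graze -/
theorem gz_of_plane {x y n : V} (hx : x ∈ frontier K) (hn0 : n ≠ 0) (hn : Nor M y n)
    (hy : ⟪η x, y - x⟫ = 1) : y ∈ Gz M x := by
  -- choose c with g(n + c η) = 0
  have h1 := C.gg_neg_eta_pos hx
  have h2 := C.gg_eta_neg hx
  have hroot : ∃ c : ℝ, gg M x (n + c • η x) = 0 := by
    rcases lt_trichotomy (gg M x n) 0 with h3 | h3 | h3
    · have hc : Continuous (fun s : ℝ => gg M x (n + s • (-η x))) :=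
        (gg_continuous C.bM x).comp (by fun_prop)
      set S : ℝ := -gg M x n / gg M x (-η x) with hS
      have hS0 : 0 ≤ S := div_nonneg (by linarith) h1.le
      have h4 : 0 ≤ gg M x (n + S • (-η x)) := by
        have := gg_add_le C.bM x n (S • (-η x))
        rw [gg_smul C.bM x hS0, hS, div_mul_cancel₀ _ h1.ne'] at this
        linarith
      obtain ⟨s, -, hs⟩ := intermediate_value_Icc hS0 hc.continuousOn
        (show (0:ℝ) ∈ Icc (gg M x (n + (0:ℝ) • (-η x))) (gg M x (n + S • (-η x))) from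
          ⟨by simpa using h3.le, h4⟩)
      exact ⟨-s, by simpa using hs⟩
    · exact ⟨0, by simpa using h3⟩
    · obtain ⟨s, -, hs⟩ := exists_root C.bM h3 h2
      exact ⟨s, hs⟩
  obtain ⟨c, hc⟩ := hroot
  by_cases h0 : n + c • η x = 0
  · exfalso
    have hc0 : c ≠ 0 := by
      rintro rfl
      rw [zero_smul, add_zero] at h0
      exact hn0 h0
    have hn' : n = (-c) • η x := by rw [neg_smul]; exact eq_neg_of_add_eq_zero_left h0
    have hall : ∀ y₀ ∈ Gz M x, y₀ = y := by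
      intro y₀ hy₀
      have h5 := C.flat x hx y₀ hy₀
      obtain ⟨u, hu, huy, -⟩ := hy₀
      have h6 : ⟪n, y₀⟫ = ⟪n, y⟫ := by
        have : ⟪η x, y₀⟫ = ⟪η x, y⟫ := by
          rw [inner_sub_right] at hy h5; linarith
        rw [hn', real_inner_smul_left, real_inner_smul_left, this]
      exact C.strict hn0 (nor_of_le C.bM huy.1 (by rw [hn.hh_eq, h6])) hn
    obtain ⟨w, hw, hw1, -⟩ := exists_perp2 C.dim (y - x) (y - x)
    obtain ⟨y₀, hy₀, hy₀'⟩ := gz_span C.dim C.bM (C.notMem hx) hw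
    rw [hall y₀ hy₀, real_inner_comm] at hy₀'
    exact hy₀' hw1
  · obtain ⟨y₀, hy₀⟩ := exists_nor C.bM (n + c • η x)
    have h5 : ⟪n + c • η x, x⟫ = ⟪n + c • η x, y₀⟫ := by
      unfold gg at hc; rw [hy₀.hh_eq] at hc; linarith
    have h6 := C.flat x hx y₀ ⟨_, h0, hy₀, h5⟩
    have h7 : ⟪n + c • η x, y₀⟫ ≤ ⟪n + c • η x, y⟫ := by
      have h8 : ⟪η x, y₀⟫ = ⟪η x, y⟫ := by
        rw [inner_sub_right] at hy h6; linarith
      rw [inner_add_left, inner_add_left, real_inner_smul_left, real_inner_smul_left, h8]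
      linarith [hn.2 y₀ hy₀.1]
    have h9 : Nor M y (n + c • η x) := nor_of_le C.bM hn.1 (by rw [hy₀.hh_eq]; exact h7)
    refine ⟨_, h0, h9, ?_⟩
    have := hy₀.2 y hn.1
    rw [h5]; linarith

end Cfg

end core

end Pool.Agent.N553.FG
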