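import Pool.Agent.N553.FG.Quad

set_option autoImplicit false
set_option linter.unusedSectionVars false

open Set Filter Topology Metric
open scoped RealInnerProductSpace

namespace Pool.Agent.N553.FG

section lin

variable {X : Type*} [AddCommGroup X] [Module ℝ X] [FiniteDimensional ℝ X]

theorem exists_sub3_aux (hd : 3 ≤ Module.finrank ℝ X) : ∀ (k : ℕ) (S : Submodule ℝ X),
    Module.finrank ℝ S + k = 3 → ∃ F : Submodule ℝ X, S ≤ F ∧ Module.finrank ℝ F = 3 := by
  intro k
  induction k with
  | zero => intro S hS; exact ⟨S, le_refl _, by omega⟩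
  | succ k ih =>
    intro S hS
    have hne : S ≠ ⊤ := by
      rintro rfl
      rw [finrank_top] at hS
      omega
    obtain ⟨v, hv⟩ : ∃ v, v ∉ S := by
      by_contra hcon
      push Not at hcon
      exact hne (Submodule.eq_top_iff'.2 hcon)
    have hv0 : v ≠ 0 := by rintro rfl; exact hv S.zero_mem
    have h1 := Submodule.finrank_sup_add_finrank_inf_eq S (Submodule.span ℝ {v})
    have h2 : S ⊓ Submodule.span ℝ {v} = ⊥ := by
      rw [Submodule.eq_bot_iff]
      rintro x ⟨hx1, hx2⟩
      obtain ⟨t, rfl⟩ := Submodule.mem_span_singleton.1 hx2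
      by_contra h0
      have ht : t ≠ 0 := by rintro rfl; exact h0 (zero_smul _ _)
      apply hv
      have := S.smul_mem t⁻¹ hx1
      rwa [smul_smul, inv_mul_cancel₀ ht, one_smul] at this
    rw [h2, finrank_bot, finrank_span_singleton hv0] at h1
    obtain ⟨F, hF1, hF2⟩ := ih (S ⊔ Submodule.span ℝ {v}) (by omega)
    exact ⟨F, le_sup_left.trans hF1, hF2⟩

theorem exists_sub3 (hd : 3 ≤ Module.finrank ℝ X) (a b c : X) :
    ∃ F : Submodule ℝ X, Module.finrank ℝ F = 3 ∧ a ∈ F ∧ b ∈ F ∧ c ∈ F := by
  classical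
  have h1 : Module.finrank ℝ (Submodule.span ℝ (({a, b, c} : Finset X) : Set X)) ≤
      ({a, b, c} : Finset X).card := finrank_span_finset_le_card _
  have h2 : ({a, b, c} : Finset X).card ≤ 3 := Finset.card_le_three
  obtain ⟨F, hF1, hF2⟩ := exists_sub3_aux hd
    (3 - Module.finrank ℝ (Submodule.span ℝ (({a, b, c} : Finset X) : Set X)))
    (Submodule.span ℝ (({a, b, c} : Finset X) : Set X)) (by omega)
  refine ⟨F, hF2, hF1 (Submodule.subset_span ?_), hF1 (Submodule.subset_span ?_),
    hF1 (Submodule.subset_span ?_)⟩ <;> simp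

/-- a positive definite symmetric form is a Euclidean inner product -/
theorem exists_phi (b : X →ₗ[ℝ] X →ₗ[ℝ] ℝ) (hs : ∀ x y, b x y = b y x)
    (hp : ∀ x, x ≠ 0 → 0 < b x x) {m : ℕ} (hm : Module.finrank ℝ X = m) :
    ∃ φ : X ≃ₗ[ℝ] EuclideanSpace ℝ (Fin m), ∀ x y, b x y = ⟪φ x, φ y⟫ := by
  let cd : InnerProductSpace.Core ℝ X :=
    { inner := fun x y => b x y
      conj_inner_symm := fun x y => by
        change (starRingEnd ℝ) (b y x) = b x y
        rw [conj_trivial, hs]
      re_inner_nonneg := fun x => by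
        rw [RCLike.re_to_real]
        by_cases h : x = 0
        · rw [h]; simp
        · exact (hp x h).le
      add_left := fun x y z => by
        change b (x + y) z = b x z + b y z
        rw [map_add, LinearMap.add_apply]
      smul_left := fun x y r => by
        change b (r • x) y = (starRingEnd ℝ) r * b x y
        rw [map_smul, LinearMap.smul_apply, conj_trivial, smul_eq_mul]
      definite := fun x hx => by
        by_contra h
        exact (hp x h).ne' hx }
  let _ : NormedAddCommGroup X := cd.toNormedAddCommGroup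
  let _ : InnerProductSpace ℝ X := InnerProductSpace.ofCore cd.toCore
  let e : OrthonormalBasis (Fin m) ℝ X := (stdOrthonormalBasis ℝ X).reindex (finCongr hm)
  refine ⟨e.repr.toLinearEquiv, fun x y => ?_⟩
  have h1 : ⟪e.repr x, e.repr y⟫ = ⟪x, y⟫ := e.repr.inner_map_map x y
  have h2 : ⟪x, y⟫ = b x y := rfl
  rw [← h2, ← h1]
  rfl

end lin

section sec

variable {X : Type*} [NormedAddCommGroup X] [InnerProductSpace ℝ X] [FiniteDimensional ℝ X]

/-- the section of `M` by the plane `o + F` -/
def sec (M : Set X) (o : X) (F : Submodule ℝ X) : Set F := (fun v : F => o + (v : X)) ⁻¹' M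

theorem sec_cont (o : X) (F : Submodule ℝ X) : Continuous (fun v : F => o + (v : X)) := by
  fun_prop

theorem sec_interior {M : Set X} {o : X} {F : Submodule ℝ X} {v : F}
    (h : o + (v : X) ∈ interior M) : v ∈ interior (sec M o F) := by
  rw [mem_interior]
  exact ⟨(fun v : F => o + (v : X)) ⁻¹' interior M, preimage_mono interior_subset,
    isOpen_interior.preimage (sec_cont o F), h⟩

theorem sec_frontier {M : Set X} {o : X} {F : Submodule ℝ X} {v : F}
    (h : v ∈ frontier (sec M o F)) : o + (v : X) ∈ frontier M :=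
  (sec_cont o F).frontier_preimage_subset M h

theorem sec_body {M : Set X} (h : Body M) {o : X} (ho : o ∈ interior M) (F : Submodule ℝ X) :
    Body (sec M o F) where
  cpt := by
    obtain ⟨R, hR⟩ := h.cpt.isBounded.subset_closedBall (0 : X)
    refine Metric.isCompact_of_isClosed_isBounded (h.cpt.isClosed.preimage (sec_cont o F)) ?_
    refine (Metric.isBounded_closedBall (x := (0 : F)) (r := R + ‖o‖)).subset fun v hv => ?_
    have h1 : ‖o + (v : X)‖ ≤ R := by
      have := hR hv
      rwa [mem_closedBall_zero_iff] at this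
    rw [mem_closedBall_zero_iff]
    have h2 : ‖(v : X)‖ ≤ ‖o + (v : X)‖ + ‖o‖ := by
      have := norm_sub_le (o + (v : X)) o
      rwa [add_sub_cancel_left] at this
    rw [Submodule.norm_coe] at h2
    linarith
  cvx := by
    intro v hv w hw a b ha hb hab
    have h1 := h.cvx hv hw ha hb hab
    change o + ((a • v + b • w : F) : X) ∈ M
    have e : o + ((a • v + b • w : F) : X) = a • (o + (v : X)) + b • (o + (w : X)) := by
      have : o = a • o + b • o := by rw [← add_smul, hab, one_smul]
      push_cast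
      nth_rewrite 1 [this]
      module
    rw [e]; exact h1
  int := ⟨0, sec_interior (by simpa using ho)⟩

/-- flatness in the raw form used in the proof -/
def RawFlat (M K : Set X) : Prop :=
  ∀ x ∈ frontier K, ∃ (a : X) (c : ℝ), a ≠ 0 ∧
    ∀ y ∈ M, (∀ t : ℝ, x + t • (y - x) ∉ interior M) → ⟪a, y⟫ = c

theorem sec_gz {M : Set X} (h : Body M) {o : X} (ho : o ∈ interior M) {F : Submodule ℝ X}
    {v y : F} (hy : y ∈ Gz (sec M o F) v) : o + (y : X) ∈ M ∧
      ∀ t : ℝ, (o + (v : X)) + t • ((o + (y : X)) - (o + (v : X))) ∉ interior M := by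
  obtain ⟨u, hu, hn, he⟩ := hy
  refine ⟨hn.1, fun t ht => ?_⟩
  have e : (o + (v : X)) + t • ((o + (y : X)) - (o + (v : X))) =
      o + ((v + t • (y - v) : F) : X) := by
    push_cast; module
  rw [e] at ht
  have h1 := lt_hh (sec_body h ho F) (sec_interior ht) hu
  rw [hn.hh_eq, inner_add_right, real_inner_smul_right, inner_sub_right, he] at h1
  linarith

theorem sec_cfg {M K : Set X} (hd : 3 ≤ Module.finrank ℝ X) (bM : Body M) (bK : Body K)
    (sub : M ⊆ interior K) (flat : RawFlat M K) {o : X} (ho : o ∈ interior M)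
    {F : Submodule ℝ X} (hF : Module.finrank ℝ F = 3) : ∃ η, Cfg (sec M o F) (sec K o F) η := by
  have hη : ∀ x : X, ∃ η : X, x ∈ frontier K →
      ∀ y ∈ M, (∀ t : ℝ, x + t • (y - x) ∉ interior M) → ⟪η, y - x⟫ = 1 := by
    intro x
    by_cases hx : x ∈ frontier K
    · obtain ⟨a, c, ha, hac⟩ := flat x hx
      have hxM : x ∉ M := fun h => by
        rw [bK.cpt.isClosed.frontier_eq] at hx
        exact hx.2 (sub h)
      have hca : c - ⟪a, x⟫ ≠ 0 := by
        intro h0
        obtain ⟨F', hF', ha', hx', -⟩ := exists_sub3 hd a (x - o) 0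
        have h1 : (⟨x - o, hx'⟩ : F') ∉ sec M o F' := by
          intro h2
          apply hxM
          have h3 : o + (x - o) ∈ M := h2
          rwa [add_sub_cancel] at h3
        obtain ⟨y, hy, hya⟩ := gz_span hF' (sec_body bM ho F') h1 (a := ⟨a, ha'⟩)
          (fun h => ha (congrArg Subtype.val h))
        obtain ⟨h3, h4⟩ := sec_gz bM ho hy
        simp only [add_sub_cancel] at h4
        have h5 := hac _ h3 h4
        apply hya
        rw [Submodule.coe_inner, Submodule.coe_sub]
        change ⟪a, (y : X) - (x - o)⟫ = 0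
        have e : (y : X) - (x - o) = (o + (y : X)) - x := by abel
        rw [e, inner_sub_right, h5, h0]
      refine ⟨(c - ⟪a, x⟫)⁻¹ • a, fun _ y hy hyt => ?_⟩
      rw [real_inner_smul_left, inner_sub_right, hac y hy hyt, inv_mul_cancel₀ hca]
    · exact ⟨0, fun h => absurd h hx⟩
  choose η hη using hη
  refine ⟨fun v => F.orthogonalProjectionOnto (η (o + (v : X))), ⟨hF, sec_body bM ho F,
    sec_body bK (interior_mono (sub.trans interior_subset) ho) F, ?_, ?_⟩⟩
  · intro v hv
    exact sec_interior (sub hv)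
  · intro v hv y hy
    obtain ⟨h1, h2⟩ := sec_gz bM ho hy
    have h3 := hη _ (sec_frontier hv) _ h1 h2
    rw [Submodule.inner_orthogonalProjectionOnto_eq_of_mem_right, Submodule.coe_sub]
    rw [← h3]
    congr 1
    abel

end sec

end Pool.Agent.N553.FG
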