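import Pool.Agent.N553.FG.Glue

set_option autoImplicit false
set_option linter.unusedSectionVars false

open Set Filter Topology Metric
open scoped RealInnerProductSpace

namespace Pool.Agent.N553.FG

variable {X : Type*} [NormedAddCommGroup X] [InnerProductSpace ℝ X] [FiniteDimensional ℝ X]

theorem gauge_sec {M K : Set X} (hd : 3 ≤ Module.finrank ℝ X) (bM : Body M) (bK : Body K)
    (sub : M ⊆ interior K) (flat : RawFlat M K) {o : X} (ho : o ∈ interior M) {g : X → ℝ}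
    (g0 : g 0 = 0) (gp : ∀ u, u ≠ 0 → 0 < g u) (gf : ∀ u, u ≠ 0 → o + (g u)⁻¹ • u ∈ frontier M)
    {F : Submodule ℝ X} (hF : Module.finrank ℝ F = 3) :
    ∃ (ℓ : F →ₗ[ℝ] ℝ) (β : F →ₗ[ℝ] F →ₗ[ℝ] ℝ), ∀ u : F, g (u : X) - g (-(u : X)) = ℓ u ∧
      g (u : X) * g (-(u : X)) = β u u := by
  obtain ⟨η, C⟩ := sec_cfg hd bM bK sub flat ho hF
  obtain ⟨Φ, ⟨κ, ℓ, β, hΦ⟩, ⟨v₀, hv₀⟩, hΦ0⟩ := C.three_dim
  have hcoe : ∀ u : F, u ≠ 0 → (u : X) ≠ 0 := fun u hu h => hu (Subtype.ext h)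
  have h1 : ∀ u : F, u ≠ 0 → κ * g (u : X) ^ 2 + g (u : X) * ℓ u + β u u = 0 := by
    intro u hu
    have hu' := hcoe u hu
    obtain ⟨t, ht, htf⟩ := exit_exists C.bM (p := 0) (d := u) (sec_interior (by simpa using ho)) hu
    rw [zero_add] at htf
    have h2 := sec_frontier htf
    rw [Submodule.coe_smul] at h2
    have h3 := exit_unique bM ho ht (inv_pos.2 (gp _ hu')) h2 (gf _ hu')
    have h4 := hΦ0 _ htf
    rw [hΦ] at h4
    simp only [map_smul, LinearMap.smul_apply, smul_eq_mul] at h4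
    rw [h3] at h4
    have h5 := (gp _ hu').ne'
    field_simp at h4
    linear_combination h4
  have h2 : ∀ u : F, u ≠ 0 → ℓ u = -κ * (g (u : X) - g (-(u : X))) ∧
      β u u = -κ * (g (u : X) * g (-(u : X))) := by
    intro u hu
    have h3 := h1 u hu
    have h4 := h1 (-u) (neg_ne_zero.2 hu)
    simp only [Submodule.coe_neg, map_neg, LinearMap.neg_apply, neg_neg] at h4
    have hx := gp _ (hcoe u hu)
    have hy := gp _ (neg_ne_zero.2 (hcoe u hu))
    have h5 : (g (u : X) + g (-(u : X))) * (κ * (g (u : X) - g (-(u : X))) + ℓ u) = 0 := by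
      linear_combination h3 - h4
    have h6 := (mul_eq_zero.1 h5).resolve_left (by positivity)
    refine ⟨by linear_combination h6, ?_⟩
    linear_combination h3 - g (u : X) * h6
  have hκ : κ ≠ 0 := by
    intro h0
    apply hv₀
    rw [hΦ]
    by_cases hv : v₀ = 0
    · rw [hv, h0]; simp
    · obtain ⟨h3, h4⟩ := h2 v₀ hv
      rw [h3, h4, h0]; simp
  refine ⟨(-κ⁻¹) • ℓ, (-κ⁻¹) • β, fun u => ?_⟩
  by_cases hu : u = 0
  · rw [hu]; simp [g0]
  · obtain ⟨h3, h4⟩ := h2 u hu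
    rw [LinearMap.smul_apply, LinearMap.smul_apply, LinearMap.smul_apply, h3, h4, smul_eq_mul,
      smul_eq_mul]
    constructor <;> field_simp

theorem main_glue {M K : Set X} (hd : 3 ≤ Module.finrank ℝ X) (bM : Body M) (bK : Body K)
    (sub : M ⊆ interior K) (flat : RawFlat M K) {m : ℕ} (hm : Module.finrank ℝ X = m) :
    ∃ (φ : X ≃ₗ[ℝ] EuclideanSpace ℝ (Fin m)) (c₀ : X) (r : ℝ), 0 < r ∧
      ∀ y, y ∈ M ↔ ‖φ (y - c₀)‖ ≤ r := by
  obtain ⟨o, ho⟩ := bM.int
  have hgex : ∀ u : X, ∃ g : ℝ, (u = 0 → g = 0) ∧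
      (u ≠ 0 → 0 < g ∧ o + g⁻¹ • u ∈ frontier M) := by
    intro u
    by_cases hu : u = 0
    · exact ⟨0, fun _ => rfl, fun h => absurd hu h⟩
    · obtain ⟨t, ht, htf⟩ := exit_exists bM ho hu
      exact ⟨t⁻¹, fun h => absurd h hu, fun _ => ⟨inv_pos.2 ht, by rwa [inv_inv]⟩⟩
  choose g hg using hgex
  have g0 : g 0 = 0 := (hg 0).1 rfl
  have gp : ∀ u, u ≠ 0 → 0 < g u := fun u hu => ((hg u).2 hu).1
  have gf : ∀ u, u ≠ 0 → o + (g u)⁻¹ • u ∈ frontier M := fun u hu => ((hg u).2 hu).2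
  have hsec := fun (F : Submodule ℝ X) (hF : Module.finrank ℝ F = 3) =>
    gauge_sec hd bM bK sub flat ho g0 gp gf hF
  set Q : X → ℝ := fun u => g u * g (-u) with hQ
  -- the linear part
  have hL1 : ∀ u v, g (u + v) - g (-(u + v)) = (g u - g (-u)) + (g v - g (-v)) := by
    intro u v
    obtain ⟨F, hF, hu, hv, -⟩ := exists_sub3 hd u v 0
    obtain ⟨ℓ, β, h⟩ := hsec F hF
    have e1 := (h (⟨u, hu⟩ + ⟨v, hv⟩)).1
    have e2 := (h ⟨u, hu⟩).1
    have e3 := (h ⟨v, hv⟩).1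
    rw [map_add] at e1
    simp only [Submodule.coe_add] at e1
    rw [e1, e2, e3]
  have hL2 : ∀ (r : ℝ) (u : X), g (r • u) - g (-(r • u)) = r * (g u - g (-u)) := by
    intro r u
    obtain ⟨F, hF, hu, -, -⟩ := exists_sub3 hd u 0 0
    obtain ⟨ℓ, β, h⟩ := hsec F hF
    have e1 := (h (r • ⟨u, hu⟩)).1
    have e2 := (h ⟨u, hu⟩).1
    rw [map_smul] at e1
    simp only [Submodule.coe_smul] at e1
    rw [e1, e2, smul_eq_mul]
  set L : X →ₗ[ℝ] ℝ :=
    { toFun := fun u => g u - g (-u)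
      map_add' := hL1
      map_smul' := hL2 } with hL
  have hLa : ∀ u, L u = g u - g (-u) := fun u => rfl
  -- the quadratic part
  have hQ1 : ∀ u u' v, (Q (u + u' + v) - Q (u + u') - Q v) / 2 =
      (Q (u + v) - Q u - Q v) / 2 + (Q (u' + v) - Q u' - Q v) / 2 := by
    intro u u' v
    obtain ⟨F, hF, hu, hu', hv⟩ := exists_sub3 hd u u' v
    obtain ⟨ℓ, β, h⟩ := hsec F hF
    set A : F := ⟨u, hu⟩
    set B : F := ⟨u', hu'⟩
    set D : F := ⟨v, hv⟩
    have e1 : Q (u + u' + v) = β (A + B + D) (A + B + D) := (h (A + B + D)).2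
    have e2 : Q (u + u') = β (A + B) (A + B) := (h (A + B)).2
    have e3 : Q v = β D D := (h D).2
    have e4 : Q (u + v) = β (A + D) (A + D) := (h (A + D)).2
    have e5 : Q u = β A A := (h A).2
    have e6 : Q (u' + v) = β (B + D) (B + D) := (h (B + D)).2
    have e7 : Q u' = β B B := (h B).2
    rw [e1, e2, e3, e4, e5, e6, e7]
    simp only [map_add, LinearMap.add_apply]
    ring
  have hQ2 : ∀ (r : ℝ) (u v : X), (Q (r • u + v) - Q (r • u) - Q v) / 2 =
      r • ((Q (u + v) - Q u - Q v) / 2) := by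
    intro r u v
    obtain ⟨F, hF, hu, hv, -⟩ := exists_sub3 hd u v 0
    obtain ⟨ℓ, β, h⟩ := hsec F hF
    set A : F := ⟨u, hu⟩
    set D : F := ⟨v, hv⟩
    have e1 : Q (r • u + v) = β (r • A + D) (r • A + D) := (h (r • A + D)).2
    have e2 : Q (r • u) = β (r • A) (r • A) := (h (r • A)).2
    have e3 : Q v = β D D := (h D).2
    have e4 : Q (u + v) = β (A + D) (A + D) := (h (A + D)).2
    have e5 : Q u = β A A := (h A).2
    rw [e1, e2, e3, e4, e5]
    simp only [map_add, LinearMap.add_apply, map_smul, LinearMap.smul_apply, smul_eq_mul]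
    ring
  have hQc : ∀ u v : X, (Q (u + v) - Q u - Q v) / 2 = (Q (v + u) - Q v - Q u) / 2 := by
    intro u v
    rw [add_comm u v]; ring
  set b : X →ₗ[ℝ] X →ₗ[ℝ] ℝ := LinearMap.mk₂ ℝ (fun u v => (Q (u + v) - Q u - Q v) / 2) hQ1 hQ2
    (fun u v v' => by
      have e1 := hQ1 v v' u
      rw [hQc u (v + v'), hQc u v, hQc u v', e1])
    (fun r u v => by
      have e1 := hQ2 r v u
      rw [hQc u (r • v), hQc u v, e1]) with hb
  have hba : ∀ u v, b u v = (Q (u + v) - Q u - Q v) / 2 := fun u v => rfl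
  have hbQ : ∀ u, b u u = Q u := by
    intro u
    obtain ⟨F, hF, hu, -, -⟩ := exists_sub3 hd u 0 0
    obtain ⟨ℓ, β, h⟩ := hsec F hF
    set A : F := ⟨u, hu⟩
    have e1 : Q (u + u) = β (A + A) (A + A) := (h (A + A)).2
    have e2 : Q u = β A A := (h A).2
    rw [hba, e1, e2]
    simp only [map_add, LinearMap.add_apply]
    ring
  obtain ⟨φ, hφ⟩ := exists_phi b (fun u v => by rw [hba, hba]; exact hQc u v) (fun u hu => by
    rw [hbQ]; exact mul_pos (gp u hu) (gp _ (neg_ne_zero.2 hu))) hm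
  have hφQ : ∀ u, Q u = ‖φ u‖ ^ 2 := by
    intro u
    rw [← hbQ, hφ, real_inner_self_eq_norm_sq]
  -- Riesz
  obtain ⟨a, ha⟩ : ∃ a : EuclideanSpace ℝ (Fin m), ∀ u, L u = 2 * ⟪a, φ u⟫ := by
    set f := LinearMap.toContinuousLinearMap ((1/2 : ℝ) • (L ∘ₗ
      (φ.symm : EuclideanSpace ℝ (Fin m) →ₗ[ℝ] X))) with hf
    refine ⟨(InnerProductSpace.toDual ℝ _).symm f, fun u => ?_⟩
    rw [InnerProductSpace.toDual_symm_apply]
    simp [hf]
  have hmem : ∀ u : X, o + u ∈ M ↔ g u ≤ 1 := by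
    intro u
    by_cases hu : u = 0
    · rw [hu, g0, add_zero]
      exact ⟨fun _ => zero_le_one, fun _ => interior_subset ho⟩
    · have hgu := gp u hu
      constructor
      · intro h
        by_contra hcon
        push Not at hcon
        have h1 := bM.cvx.openSegment_interior_self_subset_interior ho h
        apply bM.notMem_interior (gf u hu)
        apply h1
        refine ⟨1 - (g u)⁻¹, (g u)⁻¹, ?_, inv_pos.2 hgu, by ring, by module⟩
        rw [sub_pos]; exact inv_lt_one_of_one_lt₀ hcon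
      · intro h
        have h1 := bM.cvx (interior_subset ho) (bM.mem_of_frontier (gf u hu))
          (a := 1 - g u) (b := g u) (by linarith) hgu.le (by ring)
        have e : (1 - g u) • o + g u • (o + (g u)⁻¹ • u) = o + u := by
          rw [smul_add, smul_smul, mul_inv_cancel₀ hgu.ne']; module
        rwa [e] at h1
  have hmem2 : ∀ u : X, o + u ∈ M ↔ Q u + L u ≤ 1 := by
    intro u
    rw [hmem, hLa]
    have hy : 0 ≤ g (-u) := by
      by_cases hu : u = 0
      · rw [hu, neg_zero, g0]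
      · exact (gp _ (neg_ne_zero.2 hu)).le
    have e : Q u + (g u - g (-u)) - 1 = (g u - 1) * (g (-u) + 1) := by
      simp only [hQ]; ring
    constructor
    · intro h
      have : (g u - 1) * (g (-u) + 1) ≤ 0 :=
        mul_nonpos_of_nonpos_of_nonneg (by linarith) (by linarith)
      linarith
    · intro h
      by_contra hcon
      push Not at hcon
      have : 0 < (g u - 1) * (g (-u) + 1) := mul_pos (by linarith) (by linarith)
      linarith
  have hr : 0 < 1 + ‖a‖ ^ 2 := by positivity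
  refine ⟨φ, o - φ.symm a, Real.sqrt (1 + ‖a‖ ^ 2), Real.sqrt_pos.2 hr, fun y => ?_⟩
  have e1 : y = o + (y - o) := by abel
  have e2 : φ (y - (o - φ.symm a)) = φ (y - o) + a := by
    have : y - (o - φ.symm a) = (y - o) + φ.symm a := by abel
    rw [this, map_add, LinearEquiv.apply_symm_apply]
  nth_rewrite 1 [e1]
  rw [hmem2, e2, hφQ, ha, Real.le_sqrt (norm_nonneg _) hr.le, norm_add_sq_real,
    real_inner_comm a (φ (y - o))]
  constructor <;> intro h <;> linarith

end Pool.Agent.N553.FG
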