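import Pool.Agent.N553.FG.BForm

set_option autoImplicit false
set_option linter.unusedSectionVars false

open Set Filter Topology Metric
open scoped RealInnerProductSpace

namespace Pool.Agent.N553.FG

variable {V : Type*} [NormedAddCommGroup V] [InnerProductSpace ℝ V] [FiniteDimensional ℝ V]

theorem Chart.param_tendsto {M : Set V} {p n : V} (c : Chart M p n) {ι : Type*} {l : Filter ι}
    {a : ι → (ℝ ∙ n)ᗮ} {W₀ : (ℝ ∙ n)ᗮ} (h : Tendsto (fun i => c.q (a i)) l (𝓝 (c.q W₀))) :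
    Tendsto a l (𝓝 W₀) := by
  have hz : ∀ W, c.z W = -⟪n, c.q W - p⟫ := by
    intro W
    rw [c.q_sub, real_inner_smul_right, c.n_dir]; ring
  have hsub : Tendsto (fun i => c.q (a i) - p) l (𝓝 (c.q W₀ - p)) := h.sub tendsto_const_nhds
  have hzt : Tendsto (fun i => c.z (a i)) l (𝓝 (c.z W₀)) := by
    simp only [hz]
    exact (Tendsto.inner (𝕜 := ℝ) tendsto_const_nhds hsub).neg
  have hW : ∀ W : (ℝ ∙ n)ᗮ, (W : V) = (c.z W)⁻¹ • (c.q W - p) + n := by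
    intro W
    rw [c.q_sub, smul_smul, inv_mul_cancel₀ (c.z_pos W).ne', one_smul]; abel
  rw [tendsto_subtype_rng]
  rw [hW W₀]
  refine Tendsto.congr (fun i => (hW (a i)).symm) ?_
  exact ((hzt.inv₀ (c.z_pos W₀).ne').smul hsub).add tendsto_const_nhds

/-- common exit points of the two tangent planes, in general position for `η` -/
def Good (M K : Set V) (η : V → V) (p q : V) : Prop :=
  ∃ x₁ x₂, x₁ ∈ frontier K ∧ x₂ ∈ frontier K ∧ x₁ ≠ x₂ ∧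
    (∀ u, Nor M p u → ⟪u, x₁⟫ = ⟪u, p⟫ ∧ ⟪u, x₂⟫ = ⟪u, p⟫) ∧
    (∀ u, Nor M q u → ⟪u, x₁⟫ = ⟪u, q⟫ ∧ ⟪u, x₂⟫ = ⟪u, q⟫) ∧ ⟪η x₁, x₂ - p⟫ ≠ 0

namespace Cfg

variable {M K : Set V} {η : V → V} (C : Cfg M K η)
include C

theorem exists_other {y : V} (hy : y ∈ frontier M) : ∃ p ∈ frontier M, p ≠ y := by
  obtain ⟨h1, h2⟩ := un_spec C.bM hy
  have hn : un M y ≠ 0 := by intro h0; rw [h0, norm_zero] at h1; norm_num at h1
  obtain ⟨p₁, hp₁⟩ := exists_nor C.bM (-un M y)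
  refine ⟨p₁, hp₁.frontier C.bM (neg_ne_zero.2 hn), ?_⟩
  rintro rfl
  have := hh_pos C.bM hn
  rw [h2.hh_eq, hp₁.hh_eq, inner_neg_left] at this
  linarith

theorem nor_prop {p σ : V} (hσ : σ ≠ 0) (h : Nor M p σ) {x : V} (hx : ⟪σ, x⟫ = ⟪σ, p⟫) {u : V}
    (hu : Nor M p u) : ⟪u, x⟫ = ⟪u, p⟫ := by
  by_cases h0 : u = 0
  · rw [h0, inner_zero_left, inner_zero_left]
  · obtain ⟨r, -, rfl⟩ := C.smooth hσ h0 h hu
    rw [real_inner_smul_left, real_inner_smul_left, hx]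

theorem good_nhds {y : V} (hy : y ∈ frontier M) : ∃ ε > 0, ∀ p ∈ frontier M, ∀ q ∈ frontier M,
    p ≠ q → dist p y < ε → dist q y < ε → Good M K η p q := by
  by_contra hcon
  push Not at hcon
  obtain ⟨p₁, hp₁, hne⟩ := C.exists_other hy
  obtain ⟨c⟩ := C.exists_chart hp₁
  obtain ⟨W₀, hW₀⟩ := c.surj y hy hne.symm
  have hW₀' : y = c.q W₀ := hW₀
  have hd : 0 < dist p₁ y := dist_pos.2 hne
  have hstep : ∀ k : ℕ, ∃ a b : (ℝ ∙ un M p₁)ᗮ, a ≠ b ∧ dist (c.q a) y < 1 / ((k:ℝ) + 1) ∧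
      dist (c.q b) y < 1 / ((k:ℝ) + 1) ∧ ¬ Good M K η (c.q a) (c.q b) := by
    intro k
    obtain ⟨p, hp, q, hq, hpq, h1, h2, h3⟩ := hcon (min (1 / ((k:ℝ) + 1)) (dist p₁ y))
      (lt_min (by positivity) hd)
    have hpp : p ≠ p₁ := by
      rintro rfl; exact absurd (h1.trans_le (min_le_right _ _)) (lt_irrefl _)
    have hqp : q ≠ p₁ := by
      rintro rfl; exact absurd (h2.trans_le (min_le_right _ _)) (lt_irrefl _)
    obtain ⟨a, ha⟩ := c.surj p hp hpp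
    obtain ⟨b, hb⟩ := c.surj q hq hqp
    have ha' : c.q a = p := ha.symm
    have hb' : c.q b = q := hb.symm
    refine ⟨a, b, ?_, ?_, ?_, ?_⟩
    · rintro rfl; exact hpq (ha'.symm.trans hb')
    · rw [ha']; exact h1.trans_le (min_le_left _ _)
    · rw [hb']; exact h2.trans_le (min_le_left _ _)
    · rw [ha', hb']; exact h3
  choose a b hab ha hb hbad using hstep
  set 𝒰 : Ultrafilter ℕ := hyperfilter ℕ with h𝒰
  have hr : Tendsto (fun k : ℕ => 1 / ((k:ℝ) + 1)) 𝒰 (𝓝 0) :=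
    tendsto_one_div_add_atTop_nhds_zero_nat.mono_left Nat.hyperfilter_le_atTop
  have hta : Tendsto a 𝒰 (𝓝 W₀) := by
    apply c.param_tendsto
    rw [← hW₀', tendsto_iff_dist_tendsto_zero]
    exact squeeze_zero (fun k => dist_nonneg) (fun k => (ha k).le) hr
  have htb : Tendsto b 𝒰 (𝓝 W₀) := by
    apply c.param_tendsto
    rw [← hW₀', tendsto_iff_dist_tendsto_zero]
    exact squeeze_zero (fun k => dist_nonneg) (fun k => (hb k).le) hr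
  have hne' : ∀ k, c.s (b k) - c.s (a k) ≠ 0 := fun k => sub_ne_zero.2 fun h =>
    hab k (c.s_inj C h).symm
  obtain ⟨δ, -, hδ⟩ := (isCompact_sphere (0 : (ℝ ∙ un M p₁)ᗮ) 1).ultrafilter_le_nhds
    (𝒰.map (fun k => (‖c.s (b k) - c.s (a k)‖)⁻¹ • (c.s (b k) - c.s (a k)))) (by
      rw [Ultrafilter.coe_map, le_principal_iff, mem_map]
      refine Eventually.of_forall fun k => ?_
      have := norm_ne_zero_iff.2 (hne' k)
      simp only [mem_preimage, mem_sphere_zero_iff_norm]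
      rw [norm_smul, norm_inv, norm_norm, inv_mul_cancel₀ this])
  have hδ' : Tendsto (fun k => (‖c.s (b k) - c.s (a k)‖)⁻¹ • (c.s (b k) - c.s (a k))) 𝒰
    (𝓝 δ) := hδ
  obtain ⟨e, he, hδe⟩ := exists_perp1 (c.finrank_P C.dim) δ
  obtain ⟨t, ht, hx⟩ := c.exit_in_plane C W₀ he
  obtain ⟨t', ht', hx'⟩ := c.exit_in_plane C W₀ (neg_ne_zero.2 he)
  obtain ⟨x, hxt, hxe⟩ := c.exit_seq C 𝒰 hta htb hab hδ' he hδe ht hx
  obtain ⟨x', hxt', hxe'⟩ := c.exit_seq C 𝒰 hta htb hab hδ' (neg_ne_zero.2 he)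
    (by rw [inner_neg_right, hδe, neg_zero]) ht' hx'
  have h1 : Tendsto (fun i => η (x i)) 𝒰 (𝓝 (η (c.q W₀ + t • c.hat W₀ e))) := by
    have h2 := C.eta_continuousOn _ hx
    have h3 : Tendsto x 𝒰 (𝓝[frontier K] (c.q W₀ + t • c.hat W₀ e)) :=
      tendsto_nhdsWithin_iff.2 ⟨hxt, hxe.mono fun i hi => hi.1⟩
    exact h2.tendsto.comp h3
  have hqa : Tendsto (fun k => c.q (a k)) 𝒰 (𝓝 (c.q W₀)) := (c.q_cont.tendsto W₀).comp hta
  have h2 : Tendsto (fun i => ⟪η (x i), x' i - c.q (a i)⟫) 𝒰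
      (𝓝 ⟪η (c.q W₀ + t • c.hat W₀ e), (c.q W₀ + t' • c.hat W₀ (-e)) - c.q W₀⟫) :=
    Tendsto.inner (𝕜 := ℝ) h1 (hxt'.sub hqa)
  have h3 := c.eta_hat C hx
  have h4 : ⟪η (c.q W₀ + t • c.hat W₀ e), (c.q W₀ + t' • c.hat W₀ (-e)) - c.q W₀⟫ ≠ 0 := by
    rw [add_sub_cancel_left, map_neg, smul_neg, inner_neg_right, real_inner_smul_right]
    intro h0
    have h5 : ⟪η (c.q W₀ + t • c.hat W₀ e), c.hat W₀ e⟫ = 0 := by
      rw [neg_eq_zero] at h0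
      exact (mul_eq_zero.1 h0).resolve_left ht'.ne'
    rw [h5] at h3
    norm_num at h3
  have h5 : ∀ᶠ i in (𝒰 : Filter ℕ), ⟪η (x i), x' i - c.q (a i)⟫ ≠ 0 := h2.eventually_ne h4
  have h6 : ∀ᶠ i in (𝒰 : Filter ℕ), x i - x' i ≠ 0 := by
    refine (hxt.sub hxt').eventually_ne ?_
    rw [add_sub_add_left_eq_sub, map_neg, smul_neg, sub_neg_eq_add, ← add_smul]
    refine smul_ne_zero (by positivity) fun h => he (c.hat_inj W₀ (by rw [h, map_zero]))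
  obtain ⟨i, hi1, hi2, hi3, hi4⟩ := (hxe.and (hxe'.and (h5.and h6))).exists
  apply hbad i
  have e1 : ∀ (W : (ℝ ∙ un M p₁)ᗮ) (x : V), ⟪c.σ W, x - p₁⟫ = 1 → ⟪c.σ W, x⟫ = ⟪c.σ W, c.q W⟫ := by
    intro W x h
    have := c.σ_q W
    rw [inner_sub_right] at this h
    linarith
  refine ⟨x i, x' i, hi1.1, hi2.1, sub_ne_zero.1 hi4, ?_, ?_, hi3⟩
  · intro u hu
    exact ⟨C.nor_prop (c.σ_ne _) (c.q_nor _) (e1 _ _ hi1.2.1) hu,
      C.nor_prop (c.σ_ne _) (c.q_nor _) (e1 _ _ hi2.2.1) hu⟩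
  · intro u hu
    exact ⟨C.nor_prop (c.σ_ne _) (c.q_nor _) (e1 _ _ hi1.2.2) hu,
      C.nor_prop (c.σ_ne _) (c.q_nor _) (e1 _ _ hi2.2.2) hu⟩

end Cfg

/-- at good points the conjugacy relation is given by the form of the base point -/
theorem rel_good {M K : Set V} {η : V → V} (C : Cfg M K η) {p n : V} (c : Chart M p n)
    {B : (ℝ ∙ n)ᗮ →ₗ[ℝ] (ℝ ∙ n)ᗮ} (hB : IForm K η p n B) {W₀ : (ℝ ∙ n)ᗮ}
    (hg : Good M K η p (c.q W₀)) {v δ : (ℝ ∙ n)ᗮ} (hv : v ≠ 0)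
    (hR : c.Rel K η W₀ v δ) : ∃ k : ℝ, δ = k • B v := by
  obtain ⟨x₁, x₂, hx₁, hx₂, hne, h1, h2, h3⟩ := hg
  have h4 := h1 n c.nor
  have h5 := h2 _ (c.q_nor W₀)
  have hm : ∀ x : V, ⟪n, x⟫ = ⟪n, p⟫ → x - p ∈ (ℝ ∙ n)ᗮ := by
    intro x hx
    rw [Submodule.mem_orthogonal_singleton_iff_inner_right, inner_sub_right, hx, sub_self]
  have hs : ∀ x : V, ⟪c.σ W₀, x⟫ = ⟪c.σ W₀, c.q W₀⟫ → ⟪c.σ W₀, x - p⟫ = 1 := by
    intro x hx
    have := c.σ_q W₀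
    rw [inner_sub_right] at this ⊢
    rw [hx, this]
  refine rel_B C c hB (a₁ := ⟨x₁ - p, hm x₁ h4.1⟩) (a₂ := ⟨x₂ - p, hm x₂ h4.2⟩) ?_ ?_
    (hs x₁ h5.1) (hs x₂ h5.2) ?_ ?_ hv hR
  · simpa using hx₁
  · simpa using hx₂
  · intro h
    exact hne (sub_left_injective (congrArg Subtype.val h))
  · simpa using h3

end Pool.Agent.N553.FG
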