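import Pool.Agent.N553.FG.Good

set_option autoImplicit false
set_option linter.unusedSectionVars false

open Set Filter Topology Metric
open scoped RealInnerProductSpace

namespace Pool.Agent.N553.FG

/-- a function with a quadratic modulus of continuity on a convex set is constant -/
theorem const_of_sq {E : Type*} [NormedAddCommGroup E] [NormedSpace ℝ E] {Ω : Set E}
    (hΩ : Convex ℝ Ω) (H : E → ℝ) (c : ℝ)
    (h : ∀ x ∈ Ω, ∀ y ∈ Ω, |H y - H x| ≤ c * ‖y - x‖ ^ 2) {x y : E} (hx : x ∈ Ω)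
    (hy : y ∈ Ω) : H y = H x := by
  by_contra hne
  have ha : 0 < |H y - H x| := abs_pos.2 (sub_ne_zero.2 hne)
  set a := |H y - H x| with hadef
  set D := c * ‖y - x‖ ^ 2 with hD
  obtain ⟨N, hN⟩ := exists_nat_gt (D / a)
  have hD0 : 0 < D := ha.trans_le (h x hx y hy)
  have hN0 : 0 < (N:ℝ) := (div_pos hD0 ha).trans hN
  have hmem : ∀ j : ℕ, j ≤ N → x + ((j:ℝ) / N) • (y - x) ∈ Ω := by
    intro j hj
    apply hΩ.add_smul_sub_mem hx hy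
    refine ⟨by positivity, ?_⟩
    rw [div_le_one hN0]; exact_mod_cast hj
  have hind : ∀ j : ℕ, j ≤ N → |H (x + ((j:ℝ) / N) • (y - x)) - H x| ≤ j * (D / N ^ 2) := by
    intro j
    induction j with
    | zero => intro _; simp
    | succ j ih =>
      intro hj
      have h1 := ih (by omega)
      have h2 := h _ (hmem j (by omega)) _ (hmem (j + 1) hj)
      have e1 : x + (((j + 1 : ℕ):ℝ) / N) • (y - x) - (x + ((j:ℝ) / N) • (y - x)) =
          (1 / (N:ℝ)) • (y - x) := by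
        rw [add_sub_add_left_eq_sub, ← sub_smul]
        congr 1
        push_cast
        ring
      rw [e1, norm_smul, Real.norm_of_nonneg (by positivity), mul_pow] at h2
      have e2 : c * ((1 / (N:ℝ)) ^ 2 * ‖y - x‖ ^ 2) = D / N ^ 2 := by rw [hD]; ring
      rw [e2] at h2
      have h3 := abs_add_le (H (x + (((j + 1 : ℕ):ℝ) / N) • (y - x)) - H (x + ((j:ℝ) / N) • (y - x)))
        (H (x + ((j:ℝ) / N) • (y - x)) - H x)
      rw [sub_add_sub_cancel] at h3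
      push_cast at h3 h2 ⊢
      linarith
  have h4 := hind N (le_refl _)
  rw [div_self hN0.ne', one_smul, add_sub_cancel, ← hadef] at h4
  have e3 : (N:ℝ) * (D / N ^ 2) = D / N := by field_simp
  rw [e3, le_div_iff₀ hN0] at h4
  rw [div_lt_iff₀ ha] at hN
  linarith

variable {V : Type*} [NormedAddCommGroup V] [InnerProductSpace ℝ V] [FiniteDimensional ℝ V]

namespace Chart

variable {M : Set V} {p n : V} (c : Chart M p n)

theorem mono (hM : Body M) (W W' : (ℝ ∙ n)ᗮ) : 0 ≤ ⟪W' - W, c.s W' - c.s W⟫ := by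
  have h1 := c.subg hM W W'
  have h2 := c.subg hM W' W
  rw [← neg_sub W' W, inner_neg_right] at h2
  rw [real_inner_comm, inner_sub_left]
  linarith

theorem q_inj : Function.Injective c.q := by
  intro W W' h
  have h9 : c.z W • ((W : V) - n) = c.z W' • ((W' : V) - n) := by
    rw [← q_sub, ← q_sub, h]
  have h10 : c.z W = c.z W' := by
    have : ⟪n, c.z W • ((W : V) - n)⟫ = ⟪n, c.z W' • ((W' : V) - n)⟫ := by rw [h9]
    rw [real_inner_smul_right, real_inner_smul_right, c.n_dir, c.n_dir] at this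
    linarith
  rw [h10] at h9
  have h11 := smul_right_injective V (c.z_pos W').ne' h9
  exact Subtype.ext (sub_left_injective h11)

theorem q_ne (W : (ℝ ∙ n)ᗮ) : c.q W ≠ p := by
  intro h
  have := c.q_sub W
  rw [h, sub_self] at this
  exact smul_ne_zero (c.z_pos W).ne' (sub_n_ne c.n_ne W) this.symm

theorem step {K : Set V} {η : V → V} (C : Cfg M K η) {B : (ℝ ∙ n)ᗮ →ₗ[ℝ] (ℝ ∙ n)ᗮ}
    (hB : IForm K η p n B) {Ω : Set (ℝ ∙ n)ᗮ} (hΩ : Convex ℝ Ω)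
    (hg : ∀ W ∈ Ω, ∀ v δ, v ≠ 0 → c.Rel K η W v δ → ∃ k : ℝ, δ = k • B v)
    {W₁ W₂ : (ℝ ∙ n)ᗮ} (h₁ : W₁ ∈ Ω) (h₂ : W₂ ∈ Ω) {w : (ℝ ∙ n)ᗮ}
    (hw : ⟪w, B (W₂ - W₁)⟫ = 0) : ⟪w, c.s W₂ - c.s W₁⟫ = 0 := by
  by_contra hne
  set D := W₂ - W₁ with hD
  have hD0 : D ≠ 0 := by
    intro h0
    apply hne
    rw [sub_eq_zero.1 h0, sub_self, inner_zero_right]
  set L := ⟪D, c.s W₂ - c.s W₁⟫ with hL
  have hL0 : 0 ≤ L := c.mono C.bM W₁ W₂
  set ε := |⟪w, c.s W₂ - c.s W₁⟫| / (2 * (L + 1)) with hε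
  have habs : 0 < |⟪w, c.s W₂ - c.s W₁⟫| := abs_pos.2 hne
  have hε0 : 0 < ε := by positivity
  have hεL : ε * L < |⟪w, c.s W₂ - c.s W₁⟫| := by
    rw [hε, div_mul_eq_mul_div, div_lt_iff₀ (by positivity)]
    nlinarith
  have hstep : ∀ k : ℕ, ∃ j : ℕ, j < k + 1 ∧
      ε * ⟪D, c.s (W₁ + (((j:ℝ) + 1) / ((k:ℝ) + 1)) • D) -
        c.s (W₁ + ((j:ℝ) / ((k:ℝ) + 1)) • D)⟫ <
      |⟪w, c.s (W₁ + (((j:ℝ) + 1) / ((k:ℝ) + 1)) • D) -
        c.s (W₁ + ((j:ℝ) / ((k:ℝ) + 1)) • D)⟫| := by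
    intro k
    by_contra hcon
    push Not at hcon
    have hind : ∀ j : ℕ, j ≤ k + 1 →
        |⟪w, c.s (W₁ + ((j:ℝ) / ((k:ℝ) + 1)) • D) - c.s W₁⟫| ≤
          ε * ⟪D, c.s (W₁ + ((j:ℝ) / ((k:ℝ) + 1)) • D) - c.s W₁⟫ := by
      intro j
      induction j with
      | zero => intro _; simp
      | succ j ih =>
        intro hj
        have h3 := ih (by omega)
        have h4 := hcon j (by omega)
        have e1 : ∀ u : (ℝ ∙ n)ᗮ, ⟪u, c.s (W₁ + (((j + 1 : ℕ):ℝ) / ((k:ℝ) + 1)) • D) - c.s W₁⟫ =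
            ⟪u, c.s (W₁ + (((j:ℝ) + 1) / ((k:ℝ) + 1)) • D) -
              c.s (W₁ + ((j:ℝ) / ((k:ℝ) + 1)) • D)⟫ +
            ⟪u, c.s (W₁ + ((j:ℝ) / ((k:ℝ) + 1)) • D) - c.s W₁⟫ := by
          intro u
          rw [← inner_add_right, sub_add_sub_cancel]
          push_cast
          rfl
        rw [e1, e1, mul_add]
        exact (abs_add_le _ _).trans (add_le_add h4 h3)
    have h5 := hind (k + 1) (le_refl _)
    have h6 : (((k + 1 : ℕ):ℝ) / ((k:ℝ) + 1)) = 1 := by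
      push_cast; exact div_self (by positivity)
    have h7 : W₁ + D = W₂ := by rw [hD]; abel
    rw [h6, one_smul, h7] at h5
    exact absurd h5 (not_le.2 hεL)
  choose j hj hjlt using hstep
  set 𝒰 : Ultrafilter ℕ := hyperfilter ℕ with h𝒰
  have hr : Tendsto (fun k : ℕ => 1 / ((k:ℝ) + 1)) 𝒰 (𝓝 0) :=
    tendsto_one_div_add_atTop_nhds_zero_nat.mono_left Nat.hyperfilter_le_atTop
  have h01 : ∀ k, (j k : ℝ) / ((k:ℝ) + 1) ∈ Icc (0:ℝ) 1 := by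
    intro k
    refine ⟨by positivity, ?_⟩
    rw [div_le_one (by positivity)]
    exact_mod_cast (hj k).le
  obtain ⟨τ, hτ, hτt⟩ := isCompact_Icc.ultrafilter_le_nhds
    (𝒰.map (fun k => (j k : ℝ) / ((k:ℝ) + 1))) (by
      rw [Ultrafilter.coe_map, le_principal_iff, mem_map]
      exact Eventually.of_forall h01)
  have hτt' : Tendsto (fun k => (j k : ℝ) / ((k:ℝ) + 1)) 𝒰 (𝓝 τ) := hτt
  set a : ℕ → (ℝ ∙ n)ᗮ := fun k => W₁ + ((j k:ℝ) / ((k:ℝ) + 1)) • D with ha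
  set b : ℕ → (ℝ ∙ n)ᗮ := fun k => W₁ + (((j k:ℝ) + 1) / ((k:ℝ) + 1)) • D with hb
  have hat : Tendsto a 𝒰 (𝓝 (W₁ + τ • D)) :=
    tendsto_const_nhds.add (hτt'.smul tendsto_const_nhds)
  have hba : ∀ k, b k - a k = (1 / ((k:ℝ) + 1)) • D := by
    intro k
    simp only [ha, hb]
    rw [add_sub_add_left_eq_sub, ← sub_smul]
    congr 1
    ring
  have hbt : Tendsto b 𝒰 (𝓝 (W₁ + τ • D)) := by
    have h3 : Tendsto (fun k => a k + (1 / ((k:ℝ) + 1)) • D) 𝒰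
        (𝓝 (W₁ + τ • D + (0:ℝ) • D)) := hat.add (hr.smul tendsto_const_nhds)
    rw [zero_smul, add_zero] at h3
    refine h3.congr fun k => ?_
    rw [← hba]; abel
  have hW₀ : W₁ + τ • D ∈ Ω := hΩ.add_smul_sub_mem h₁ h₂ hτ
  have hrk : ∀ k : ℕ, 0 < 1 / ((k:ℝ) + 1) := fun k => by positivity
  have hab : ∀ k, a k ≠ b k := by
    intro k h
    have h3 := hba k
    rw [h, sub_self] at h3
    exact smul_ne_zero (hrk k).ne' hD0 h3.symm
  have hv : Tendsto (fun k => (‖b k - a k‖)⁻¹ • (b k - a k)) 𝒰 (𝓝 (‖D‖⁻¹ • D)) := by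
    refine tendsto_const_nhds.congr fun k => ?_
    rw [hba, norm_smul, Real.norm_of_nonneg (hrk k).le, smul_smul, mul_inv, mul_assoc,
      mul_comm (‖D‖⁻¹), ← mul_assoc, inv_mul_cancel₀ (hrk k).ne', one_mul]
  have hne' : ∀ k, c.s (b k) - c.s (a k) ≠ 0 := fun k => sub_ne_zero.2 fun h =>
    hab k (c.s_inj C h).symm
  obtain ⟨δ, hδ1, hδ⟩ := (isCompact_sphere (0 : (ℝ ∙ n)ᗮ) 1).ultrafilter_le_nhds
    (𝒰.map (fun k => (‖c.s (b k) - c.s (a k)‖)⁻¹ • (c.s (b k) - c.s (a k)))) (by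
      rw [Ultrafilter.coe_map, le_principal_iff, mem_map]
      refine Eventually.of_forall fun k => ?_
      have := norm_ne_zero_iff.2 (hne' k)
      simp only [mem_sphere_zero_iff_norm]
      rw [norm_smul, norm_inv, norm_norm, inv_mul_cancel₀ this])
  have hδ' : Tendsto (fun k => (‖c.s (b k) - c.s (a k)‖)⁻¹ • (c.s (b k) - c.s (a k))) 𝒰
    (𝓝 δ) := hδ
  have hrel := c.rel C 𝒰 hat hbt hab hv hδ'
  have hDn : 0 < ‖D‖ := norm_pos_iff.2 hD0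
  obtain ⟨k, hk⟩ := hg _ hW₀ _ _ (smul_ne_zero (inv_ne_zero hDn.ne') hD0) hrel
  rw [map_smul] at hk
  have hk0 : k ≠ 0 := by
    rintro rfl
    rw [zero_smul] at hk
    rw [hk, mem_sphere_zero_iff_norm, norm_zero] at hδ1
    norm_num at hδ1
  have h3 : ⟪w, δ⟫ = 0 := by
    rw [hk, real_inner_smul_right, real_inner_smul_right, hw]; ring
  have h4 : ε * ⟪D, δ⟫ ≤ |⟪w, δ⟫| := by
    refine le_of_tendsto_of_tendsto
      ((Tendsto.inner (𝕜 := ℝ) tendsto_const_nhds hδ').const_mul ε)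
      (Tendsto.inner (𝕜 := ℝ) tendsto_const_nhds hδ').abs (Eventually.of_forall fun k => ?_)
    have h5 := hjlt k
    simp only [real_inner_smul_right]
    rw [abs_mul, abs_of_nonneg (inv_nonneg.2 (norm_nonneg _)), mul_left_comm]
    exact mul_le_mul_of_nonneg_left h5.le (inv_nonneg.2 (norm_nonneg _))
  have h5 : 0 ≤ ⟪D, δ⟫ := by
    refine ge_of_tendsto (Tendsto.inner (𝕜 := ℝ) tendsto_const_nhds hδ')
      (Eventually.of_forall fun k => ?_)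
    have h6 := c.mono C.bM (a k) (b k)
    rw [hba, real_inner_smul_left] at h6
    have h7 := (mul_nonneg_iff_of_pos_left (hrk k)).1 h6
    simp only [real_inner_smul_right]
    exact mul_nonneg (inv_nonneg.2 (norm_nonneg _)) h7
  have h6 : ⟪D, δ⟫ = 0 := by
    rw [h3, abs_zero] at h4
    nlinarith
  rw [hk, real_inner_smul_right, real_inner_smul_right, real_inner_comm] at h6
  exact mul_ne_zero hk0 (mul_ne_zero (inv_ne_zero hDn.ne') (hB.pd D hD0).ne') h6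

theorem s_affine {K : Set V} {η : V → V} (C : Cfg M K η) {B : (ℝ ∙ n)ᗮ →ₗ[ℝ] (ℝ ∙ n)ᗮ}
    (hB : IForm K η p n B) {Ω : Set (ℝ ∙ n)ᗮ} (hΩ : Convex ℝ Ω) (hΩo : IsOpen Ω)
    (hg : ∀ W ∈ Ω, ∀ v δ, v ≠ 0 → c.Rel K η W v δ → ∃ k : ℝ, δ = k • B v)
    {Wc : (ℝ ∙ n)ᗮ} (hc : Wc ∈ Ω) :
    ∃ lam : ℝ, 0 < lam ∧ ∀ W ∈ Ω, c.s W = c.s Wc + lam • B (W - Wc) := by
  have hBinj : ∀ a, B a = 0 → a = 0 := by
    intro a h
    by_contra h0
    exact hB.b_ne h0 h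
  have hμ : ∀ W₁ W₂ : (ℝ ∙ n)ᗮ, ∃ k : ℝ, W₁ ∈ Ω → W₂ ∈ Ω →
      c.s W₂ - c.s W₁ = k • B (W₂ - W₁) := by
    intro W₁ W₂
    by_cases h0 : W₂ - W₁ = 0
    · exact ⟨0, fun _ _ => by rw [sub_eq_zero.1 h0]; simp⟩
    by_cases h1 : W₁ ∈ Ω
    · by_cases h2 : W₂ ∈ Ω
      · obtain ⟨k, hk⟩ := prop_of_perp (hB.b_ne h0) (b := c.s W₂ - c.s W₁) (fun w hw => by
          rw [real_inner_comm] at hw ⊢
          exact c.step C hB hΩ hg h1 h2 hw)
        exact ⟨k, fun _ _ => hk⟩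
      · exact ⟨0, fun _ h => absurd h h2⟩
    · exact ⟨0, fun h => absurd h h1⟩
  choose μ hμ using hμ
  have hind : ∀ W ∈ Ω, ∀ W' ∈ Ω, NP (W - Wc) (W' - Wc) → μ Wc W = μ Wc W' := by
    intro W hW W' hW' hnp
    have h1 := hμ Wc W hc hW
    have h2 := hμ Wc W' hc hW'
    have h3 := hμ W W' hW hW'
    have h4 : B ((μ Wc W - μ W W') • (W - Wc) + (μ W W' - μ Wc W') • (W' - Wc)) = 0 := by
      have e1 : c.s W' - c.s W = (c.s W' - c.s Wc) - (c.s W - c.s Wc) := by abel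
      rw [h1, h2, h3] at e1
      have e2 : W' - W = (W' - Wc) - (W - Wc) := by abel
      rw [e2, map_sub] at e1
      rw [map_add, map_smul, map_smul]
      have e3 : ∀ (x y : (ℝ ∙ n)ᗮ) (m a b : ℝ), m • (y - x) = b • y - a • x →
          (a - m) • x + (m - b) • y = 0 := by
        intro x y m a b h
        have : (a - m) • x + (m - b) • y = m • (y - x) - (b • y - a • x) := by module
        rw [this, h, sub_self]
      exact e3 _ _ _ _ _ e1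
    obtain ⟨h5, h6⟩ := hnp _ _ (hBinj _ h4)
    linarith
  obtain ⟨e₁, he₁⟩ : ∃ e₁ : (ℝ ∙ n)ᗮ, e₁ ≠ 0 := by
    obtain ⟨w, hw, -⟩ := exists_perp1 (c.finrank_P C.dim) (0 : (ℝ ∙ n)ᗮ)
    exact ⟨w, hw⟩
  obtain ⟨e₂, he₂⟩ := exists_np (c.finrank_P C.dim) he₁
  have hr : ∃ r : ℝ, 0 < r ∧ Wc + r • e₁ ∈ Ω ∧ Wc + r • e₂ ∈ Ω := by
    have h1 : ∀ e : (ℝ ∙ n)ᗮ, ∀ᶠ r in 𝓝 (0:ℝ), Wc + r • e ∈ Ω := by
      intro e
      have hcont : Continuous (fun r : ℝ => Wc + r • e) := by fun_prop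
      apply hcont.continuousAt.eventually_mem
      simpa using hΩo.mem_nhds hc
    have h2 : ∀ᶠ r in 𝓝[>] (0:ℝ), Wc + r • e₁ ∈ Ω ∧ Wc + r • e₂ ∈ Ω :=
      nhdsWithin_le_nhds ((h1 e₁).and (h1 e₂))
    obtain ⟨r, hr, hr0⟩ := (h2.and self_mem_nhdsWithin).exists
    exact ⟨r, hr0, hr⟩
  obtain ⟨r, hr0, hr1, hr2⟩ := hr
  have hnp12 : NP (Wc + r • e₁ - Wc) (Wc + r • e₂ - Wc) := by
    rw [add_sub_cancel_left, add_sub_cancel_left]
    intro x y hxy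
    rw [smul_smul, smul_smul] at hxy
    obtain ⟨h1, h2⟩ := he₂ _ _ hxy
    exact ⟨(mul_eq_zero.1 h1).resolve_right hr0.ne', (mul_eq_zero.1 h2).resolve_right hr0.ne'⟩
  set lam := μ Wc (Wc + r • e₁) with hlam
  have hlam2 : lam = μ Wc (Wc + r • e₂) := hind _ hr1 _ hr2 hnp12
  have hall : ∀ W ∈ Ω, c.s W - c.s Wc = lam • B (W - Wc) := by
    intro W hW
    by_cases h0 : W - Wc = 0
    · rw [sub_eq_zero.1 h0]; simp
    rw [hμ Wc W hc hW]
    congr 1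
    by_cases h1 : ∃ k : ℝ, Wc + r • e₁ - Wc = k • (W - Wc)
    · obtain ⟨k, hk⟩ := h1
      rw [hlam2]
      apply hind _ hW _ hr2
      refine np_of_not_smul h0 fun k' hk' => ?_
      rw [hk, hk'] at hnp12
      by_cases hk0 : k = 0
      · have := (hnp12 1 0 (by rw [hk0]; simp)).1
        norm_num at this
      · have := (hnp12 k' (-k) (by rw [smul_smul, smul_smul, ← add_smul]; ring_nf; simp)).2
        exact hk0 (neg_eq_zero.1 this)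
    · push Not at h1
      exact hind _ hW _ hr1 (np_of_not_smul h0 h1)
  refine ⟨lam, ?_, fun W hW => by rw [← hall W hW]; abel⟩
  have h1 := hall _ hr1
  have hre : r • e₁ ≠ 0 := smul_ne_zero hr0.ne' he₁
  rw [add_sub_cancel_left] at h1
  have h2 : lam ≠ 0 := by
    intro h0
    rw [h0, zero_smul, sub_eq_zero] at h1
    have := c.s_inj C h1
    exact hre (by simpa using this)
  have h3 := c.mono C.bM Wc (Wc + r • e₁)
  rw [h1, add_sub_cancel_left, real_inner_smul_right, real_inner_comm] at h3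
  have h4 := hB.pd _ hre
  rcases lt_or_gt_of_ne h2 with h5 | h5
  · exact absurd h3 (not_le.2 (mul_neg_of_neg_of_pos h5 h4))
  · exact h5

/-- on a good convex open set `f` is a quadratic function -/
theorem f_quad {K : Set V} {η : V → V} (C : Cfg M K η) {B : (ℝ ∙ n)ᗮ →ₗ[ℝ] (ℝ ∙ n)ᗮ}
    (hB : IForm K η p n B) {Ω : Set (ℝ ∙ n)ᗮ} (hΩ : Convex ℝ Ω) (hΩo : IsOpen Ω)
    (hg : ∀ W ∈ Ω, ∀ v δ, v ≠ 0 → c.Rel K η W v δ → ∃ k : ℝ, δ = k • B v)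
    {Wc : (ℝ ∙ n)ᗮ} (hc : Wc ∈ Ω) :
    ∃ (α : ℝ) (β : (ℝ ∙ n)ᗮ) (G : (ℝ ∙ n)ᗮ →ₗ[ℝ] (ℝ ∙ n)ᗮ), (∀ a b, ⟪G a, b⟫ = ⟪a, G b⟫) ∧
      (∀ a, a ≠ 0 → 0 < ⟪G a, a⟫) ∧ ∀ W ∈ Ω, c.f W = α + ⟪β, W⟫ + ⟪G W, W⟫ := by
  obtain ⟨lam, hlam, hs⟩ := c.s_affine C hB hΩ hΩo hg hc
  set H : (ℝ ∙ n)ᗮ → ℝ := fun W => c.f W - ⟪c.s Wc, W - Wc⟫ -
    lam / 2 * ⟪B (W - Wc), W - Wc⟫ with hH
  set Bc := LinearMap.toContinuousLinearMap B with hBc
  have hBb : ∀ D : (ℝ ∙ n)ᗮ, |⟪B D, D⟫| ≤ ‖Bc‖ * ‖D‖ ^ 2 := by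
    intro D
    calc |⟪B D, D⟫| ≤ ‖Bc D‖ * ‖D‖ := abs_real_inner_le_norm _ _
      _ ≤ (‖Bc‖ * ‖D‖) * ‖D‖ := mul_le_mul_of_nonneg_right (Bc.le_opNorm D) (norm_nonneg _)
      _ = _ := by ring
  have hcst : ∀ W ∈ Ω, H W = H Wc := by
    intro W hW
    refine const_of_sq hΩ H (lam / 2 * ‖Bc‖) ?_ hc hW
    intro X hX Y hY
    have h1 := c.subg C.bM X Y
    have h2 := c.subg C.bM Y X
    rw [← neg_sub Y X, inner_neg_right] at h2
    rw [hs X hX, inner_add_left, real_inner_smul_left] at h1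
    rw [hs Y hY, inner_add_left, real_inner_smul_left] at h2
    have e1 : ⟪B (Y - Wc), Y - X⟫ = ⟪B (X - Wc), Y - X⟫ + ⟪B (Y - X), Y - X⟫ := by
      rw [← inner_add_left, ← map_add]
      congr 2; abel
    have e2 : ⟪B (Y - Wc), Y - Wc⟫ = ⟪B (X - Wc), X - Wc⟫ + 2 * ⟪B (X - Wc), Y - X⟫ +
        ⟪B (Y - X), Y - X⟫ := by
      have e3 : Y - Wc = (X - Wc) + (Y - X) := by abel
      rw [e3, map_add, inner_add_left, inner_add_right, inner_add_right,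
        hB.sym (Y - X) (X - Wc), real_inner_comm (B (X - Wc)) (Y - X)]
      ring
    have e4 : ⟪c.s Wc, Y - Wc⟫ = ⟪c.s Wc, X - Wc⟫ + ⟪c.s Wc, Y - X⟫ := by
      rw [← inner_add_right]; congr 1; abel
    rw [e1] at h2
    have h3 := hBb (Y - X)
    have h4 := abs_le.1 h3
    have h5 : H Y - H X = c.f Y - c.f X - ⟪c.s Wc, Y - X⟫ - lam * ⟪B (X - Wc), Y - X⟫ -
        lam / 2 * ⟪B (Y - X), Y - X⟫ := by
      simp only [hH]
      rw [e2, e4]; ring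
    rw [h5, abs_le]
    have h6 : lam / 2 * ⟪B (Y - X), Y - X⟫ ≤ lam / 2 * (‖Bc‖ * ‖Y - X‖ ^ 2) :=
      mul_le_mul_of_nonneg_left h4.2 (by positivity)
    have h7 : lam * ⟪B (Y - X), Y - X⟫ = 2 * (lam / 2 * ⟪B (Y - X), Y - X⟫) := by ring
    have h8 : lam / 2 * ‖Bc‖ * ‖Y - X‖ ^ 2 = lam / 2 * (‖Bc‖ * ‖Y - X‖ ^ 2) := by ring
    rw [mul_add, h7] at h2
    rw [h8]
    constructor <;> linarith
  refine ⟨H Wc - ⟪c.s Wc, Wc⟫ + lam / 2 * ⟪B Wc, Wc⟫, c.s Wc - lam • B Wc, (lam / 2) • B,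
    ?_, ?_, ?_⟩
  · intro a b
    rw [LinearMap.smul_apply, LinearMap.smul_apply, real_inner_smul_left,
      real_inner_smul_right, hB.sym]
  · intro a ha
    rw [LinearMap.smul_apply, real_inner_smul_left]
    exact mul_pos (by positivity) (hB.pd a ha)
  · intro W hW
    have h1 := hcst W hW
    have h2 : c.f W = H W + ⟪c.s Wc, W - Wc⟫ + lam / 2 * ⟪B (W - Wc), W - Wc⟫ := by
      simp only [hH]; ring
    rw [h2, h1, LinearMap.smul_apply, real_inner_smul_left, inner_sub_left,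
      real_inner_smul_left, map_sub, inner_sub_left, inner_sub_right, inner_sub_right,
      inner_sub_right, hB.sym W Wc, real_inner_comm (B Wc) W]
    ring

end Chart

namespace Cfg

variable {M K : Set V} {η : V → V} (C : Cfg M K η)
include C

theorem exists_near {y : V} (hy : y ∈ frontier M) {ε : ℝ} (hε : 0 < ε) :
    ∃ p ∈ frontier M, p ≠ y ∧ dist p y < ε := by
  obtain ⟨p₁, hp₁, hne⟩ := C.exists_other hy
  obtain ⟨c⟩ := C.exists_chart hp₁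
  obtain ⟨W₀, hW₀⟩ := c.surj y hy hne.symm
  have hW₀' : y = c.q W₀ := hW₀
  obtain ⟨e, he, -⟩ := exists_perp1 (c.finrank_P C.dim) (0 : (ℝ ∙ un M p₁)ᗮ)
  have hcont : Continuous (fun t : ℝ => c.q (W₀ + t • e)) := c.q_cont.comp (by fun_prop)
  have h1 : ∀ᶠ t in 𝓝 (0:ℝ), c.q (W₀ + t • e) ∈ ball y ε := by
    apply hcont.continuousAt.eventually_mem
    rw [zero_smul, add_zero, ← hW₀']
    exact ball_mem_nhds y hε
  have h2 : ∀ᶠ t in 𝓝[>] (0:ℝ), c.q (W₀ + t • e) ∈ ball y ε := nhdsWithin_le_nhds h1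
  obtain ⟨t, ht, ht0⟩ := (h2.and self_mem_nhdsWithin).exists
  refine ⟨c.q (W₀ + t • e), c.q_frontier _, ?_, mem_ball.1 ht⟩
  rw [hW₀']
  intro h
  have := c.q_inj h
  exact smul_ne_zero (ne_of_gt ht0) he (by simpa using this)

/-- locally, `M` is given by a quadratic function in a suitable chart -/
theorem main_local {y : V} (hy : y ∈ frontier M) :
    ∃ (p n : V) (c : Chart M p n) (Wc : (ℝ ∙ n)ᗮ) (α : ℝ) (β : (ℝ ∙ n)ᗮ)
      (G : (ℝ ∙ n)ᗮ →ₗ[ℝ] (ℝ ∙ n)ᗮ), y = c.q Wc ∧ (∀ a b, ⟪G a, b⟫ = ⟪a, G b⟫) ∧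
      (∀ a, a ≠ 0 → 0 < ⟪G a, a⟫) ∧ ∀ᶠ W in 𝓝 Wc, c.f W = α + ⟪β, W⟫ + ⟪G W, W⟫ := by
  obtain ⟨ε, hε, hgood⟩ := C.good_nhds hy
  obtain ⟨p, hp, hpy, hdp⟩ := C.exists_near hy hε
  obtain ⟨c⟩ := C.exists_chart hp
  obtain ⟨Wc, hWc⟩ := c.surj y hy hpy.symm
  have hWc' : y = c.q Wc := hWc
  obtain ⟨B, hB⟩ := C.exists_iform c.n_ne c.nor
  have h1 : ∀ᶠ W in 𝓝 Wc, c.q W ∈ ball y ε := by
    apply c.q_cont.continuousAt.eventually_mem
    rw [← hWc']; exact ball_mem_nhds y hε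
  obtain ⟨r, hr, hball⟩ := Metric.eventually_nhds_iff_ball.1 h1
  obtain ⟨α, β, G, h2, h3, h4⟩ := c.f_quad C hB (convex_ball Wc r) isOpen_ball
    (fun W hW v δ hv hR => rel_good C c hB
      (hgood p hp (c.q W) (c.q_frontier W) (c.q_ne W).symm hdp (mem_ball.1 (hball W hW))) hv hR)
    (mem_ball_self hr)
  refine ⟨p, un M p, c, Wc, α, β, G, hWc', h2, h3, ?_⟩
  filter_upwards [ball_mem_nhds Wc hr] with W hW using h4 W hW

end Cfg

end Pool.Agent.N553.FG
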