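import Pool.Agent.N553.FG.Smooth

set_option autoImplicit false
set_option linter.unusedSectionVars false

open Set Filter Topology Metric
open scoped RealInnerProductSpace

namespace Pool.Agent.N553.FG

variable {V : Type*} [NormedAddCommGroup V] [InnerProductSpace ℝ V] [FiniteDimensional ℝ V]

theorem exists_sep_line {M : Set V} (h : Body M) {x w : V} (hl : ∀ t : ℝ, x + t • w ∉ M) :
    ∃ u, 0 < gg M x u ∧ ⟪u, w⟫ = 0 := by
  set L : AffineSubspace ℝ V := AffineSubspace.mk' x (Submodule.span ℝ {w}) with hL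
  have hmem : ∀ y, y ∈ L ↔ ∃ t : ℝ, y = x + t • w := by
    intro y
    rw [hL, AffineSubspace.mem_mk', vsub_eq_sub, Submodule.mem_span_singleton]
    constructor
    · rintro ⟨t, ht⟩; exact ⟨t, by rw [ht]; abel⟩
    · rintro ⟨t, rfl⟩; exact ⟨t, by abel⟩
  have hdis : Disjoint M (L : Set V) := by
    rw [Set.disjoint_left]
    rintro y hy hyL
    obtain ⟨t, rfl⟩ := (hmem y).1 hyL
    exact hl t hy
  obtain ⟨f, r, r', h1, h2, h3⟩ := geometric_hahn_banach_compact_closed h.cvx h.cpt L.convex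
    L.closed_of_finiteDimensional hdis
  have hfw : f w = 0 := by
    by_contra hne
    have h4 : (x + ((r - f x) / f w) • w) ∈ (L : Set V) := (hmem _).2 ⟨_, rfl⟩
    have h5 := h3 _ h4
    rw [map_add, map_smul, smul_eq_mul, div_mul_cancel₀ _ hne] at h5
    linarith
  set a := (InnerProductSpace.toDual ℝ V).symm f with ha
  have hf : ∀ y, ⟪a, y⟫ = f y := fun y => by rw [ha]; simp
  refine ⟨a, ?_, by rw [hf, hfw]⟩
  obtain ⟨y, hy⟩ := exists_nor h a
  unfold gg
  rw [hy.hh_eq, hf, hf]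
  have h4 := h1 y hy.1
  have h5 := h3 x ((hmem _).2 ⟨0, by simp⟩)
  linarith

namespace Cfg

variable {M K : Set V} {η : V → V} (C : Cfg M K η)
include C

theorem inner_eta_sub {x p q : V} (hx : x ∈ frontier K) (hp : p ∈ Gz M x) (hq : q ∈ Gz M x) :
    ⟪η x, q - p⟫ = 0 := by
  have h1 := C.flat x hx p hp
  have h2 := C.flat x hx q hq
  have e : q - p = (q - x) - (p - x) := by abel
  rw [e, inner_sub_right, h1, h2, sub_self]

/-- the conjugate directions of two different directions are different -/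
theorem plane_inj {p x x' v n : V} (hx : x ∈ frontier K) (hx' : x' ∈ frontier K) (hn : n ≠ 0)
    (hp : Nor M p n) (h1 : ⟪n, x⟫ = ⟪n, p⟫) (h2 : ⟪n, x'⟫ = ⟪n, p⟫)
    (hne : x ≠ x') (hcol : ∀ t : ℝ, x + t • (x' - x) ≠ p) (hv : v ≠ 0) (hnv : ⟪n, v⟫ = 0)
    (e1 : ⟪η x, v⟫ = 0) (e2 : ⟪η x', v⟫ = 0) : False := by
  set w := x' - x with hw
  have hnw : ⟪n, w⟫ = 0 := by rw [hw, inner_sub_right, h1, h2, sub_self]
  have hl : ∀ t : ℝ, x + t • w ∉ M := by
    intro t ht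
    have h3 : ⟪n, x + t • w⟫ = ⟪n, p⟫ := by
      rw [inner_add_right, real_inner_smul_right, hnw, h1]; ring
    exact hcol t (C.strict hn (nor_of_le C.bM ht (by rw [hp.hh_eq, h3])) hp)
  obtain ⟨u₁, hu₁, hu₁w⟩ := exists_sep_line C.bM hl
  have hgn : gg M x n = 0 := by unfold gg; rw [hp.hh_eq, h1]; ring
  have hgn' : gg M x (-n) < 0 := by
    have := gg_neg_lt C.bM x hn
    linarith
  obtain ⟨s, hs, hroot⟩ := exists_root C.bM hu₁ hgn'
  set u₂ := u₁ + s • (-n) with hu₂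
  have hu₂n : ∀ c : ℝ, u₂ ≠ c • n := by
    intro c hc
    have h3 : u₁ = (c + s) • n := by
      rw [add_smul, ← hc, hu₂, smul_neg]; abel
    rcases le_or_gt 0 (c + s) with h4 | h4
    · rw [h3, gg_smul C.bM x h4, hgn, mul_zero] at hu₁
      exact lt_irrefl _ hu₁
    · have h5 : u₁ = (-(c + s)) • (-n) := by rw [h3, smul_neg, neg_smul, neg_neg]
      rw [h5, gg_smul C.bM x (by linarith)] at hu₁
      nlinarith
  have hu₂0 : u₂ ≠ 0 := by simpa using hu₂n 0
  have hu₂w : ⟪u₂, w⟫ = 0 := by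
    rw [hu₂, inner_add_left, hu₁w, real_inner_smul_left, inner_neg_left, hnw]; ring
  obtain ⟨q, hq⟩ := exists_nor C.bM u₂
  have hqp : q ≠ p := by
    rintro rfl
    obtain ⟨c, -, hc⟩ := C.smooth hn hu₂0 hp hq
    exact hu₂n c hc
  have hqx : ⟪u₂, x⟫ = ⟪u₂, q⟫ := by
    unfold gg at hroot; rw [hq.hh_eq] at hroot; linarith
  have hqx' : ⟪u₂, x'⟫ = ⟪u₂, q⟫ := by
    have : x' = x + w := by rw [hw]; abel
    rw [this, inner_add_right, hu₂w, add_zero, hqx]
  have gqx : q ∈ Gz M x := ⟨u₂, hu₂0, hq, hqx⟩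
  have gqx' : q ∈ Gz M x' := ⟨u₂, hu₂0, hq, hqx'⟩
  have gpx : p ∈ Gz M x := ⟨n, hn, hp, h1⟩
  have gpx' : p ∈ Gz M x' := ⟨n, hn, hp, h2⟩
  have e3 := C.inner_eta_sub hx gpx gqx
  have e4 := C.inner_eta_sub hx' gpx' gqx'
  have hnq : ⟪n, q - p⟫ < 0 := by
    rw [inner_sub_right]
    have h5 := hp.2 q hq.1
    rcases h5.lt_or_eq with h6 | h6
    · linarith
    · exact absurd (C.strict hn (nor_of_le C.bM hq.1 (by rw [hp.hh_eq, h6])) hp) hqp
  have hind : LinearIndependent ℝ ![v, q - p] := by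
    rw [LinearIndependent.pair_iff]
    intro a b hab
    have h5 : ⟪n, a • v + b • (q - p)⟫ = 0 := by rw [hab, inner_zero_right]
    rw [inner_add_right, real_inner_smul_right, real_inner_smul_right, hnv, mul_zero,
      zero_add] at h5
    have hb : b = 0 := (mul_eq_zero.1 h5).resolve_right hnq.ne
    rw [hb, zero_smul, add_zero] at hab
    exact ⟨(smul_eq_zero.1 hab).resolve_right hv, hb⟩
  obtain ⟨k, hk⟩ := perp_unique C.dim hind (C.eta_ne hx) (by rw [real_inner_comm]; exact e1)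
    (by rw [real_inner_comm]; exact e3) (d := η x') (by rw [real_inner_comm]; exact e2)
    (by rw [real_inner_comm]; exact e4)
  -- the two grazes coincide
  have hall : ∀ u : V, u ≠ 0 → gg M x u = 0 → ⟪u, w⟫ = 0 := by
    intro u hu hgu
    obtain ⟨y, hy⟩ := exists_nor C.bM u
    have hyx : ⟪u, x⟫ = ⟪u, y⟫ := by
      unfold gg at hgu; rw [hy.hh_eq] at hgu; linarith
    have gy : y ∈ Gz M x := ⟨u, hu, hy, hyx⟩
    have h5 := C.inner_eta_sub hx gpx gy
    have h6 : ⟪η x', y - x'⟫ = 1 := by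
      have e : y - x' = (y - p) + (p - x') := by abel
      rw [e, inner_add_right, C.flat x' hx' p gpx', hk, real_inner_smul_left, h5]; ring
    obtain ⟨u', hu', hyu', hyx'⟩ := C.gz_of_plane hx' hu hy h6
    obtain ⟨c, hc, hcu⟩ := C.smooth hu hu' hy hyu'
    rw [hcu, real_inner_smul_left, real_inner_smul_left] at hyx'
    have h7 : ⟪u, x'⟫ = ⟪u, y⟫ := mul_left_cancel₀ hc.ne' hyx'
    rw [hw, inner_sub_right, h7, hyx, sub_self]
  have hw0 : w ≠ 0 := by rw [hw]; exact sub_ne_zero.2 (Ne.symm hne)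
  obtain ⟨b₀, hb₀, hb₀w, -⟩ := exists_perp2 C.dim w w
  have hb : ∃ b : V, ⟪b, w⟫ = 0 ∧ gg M x b < 0 := by
    have := gg_neg_lt C.bM x hb₀
    rw [real_inner_comm] at hb₀w
    rcases lt_or_ge (gg M x b₀) 0 with h5 | h5
    · exact ⟨b₀, hb₀w, h5⟩
    · exact ⟨-b₀, by rw [inner_neg_left, hb₀w, neg_zero], by linarith⟩
  obtain ⟨b, hbw, hgb⟩ := hb
  obtain ⟨u, hu, huw⟩ := exists_pos_ne C.bM (C.notMem hx) hw0
  obtain ⟨r, hr, hr0⟩ := exists_root C.bM hu hgb
  have h5 : ⟪u + r • b, w⟫ = ⟪u, w⟫ := by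
    rw [inner_add_left, real_inner_smul_left, hbw, mul_zero, add_zero]
  have h6 : u + r • b ≠ 0 := by
    intro h0; rw [h0, inner_zero_left] at h5; exact huw h5.symm
  exact huw (h5 ▸ hall _ h6 hr0)

end Cfg

end Pool.Agent.N553.FG
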