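import Pool.Agent.N553.FG.Local

set_option autoImplicit false
set_option linter.unusedSectionVars false

open Set Filter Topology Metric
open scoped RealInnerProductSpace

namespace Pool.Agent.N553.FG

/-- polynomial functions of degree at most two -/
def IsQ {E : Type*} [AddCommGroup E] [Module ℝ E] (Φ : E → ℝ) : Prop :=
  ∃ (κ : ℝ) (ℓ : E →ₗ[ℝ] ℝ) (β : E →ₗ[ℝ] E →ₗ[ℝ] ℝ), ∀ v, Φ v = κ + ℓ v + β v v

theorem IsQ.translate {E : Type*} [AddCommGroup E] [Module ℝ E] {Φ : E → ℝ} (h : IsQ Φ) (a : E) :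
    IsQ (fun v => Φ (a + v)) := by
  obtain ⟨κ, ℓ, β, h⟩ := h
  refine ⟨κ + ℓ a + β a a, ℓ + β a + β.flip a, β, fun v => ?_⟩
  simp only [h]
  simp only [map_add, LinearMap.add_apply, LinearMap.flip_apply]
  ring

theorem IsQ.comp {E F : Type*} [AddCommGroup E] [Module ℝ E] [AddCommGroup F] [Module ℝ F]
    {Φ : E → ℝ} (h : IsQ Φ) (T : F →ₗ[ℝ] E) : IsQ (fun v => Φ (T v)) := by
  obtain ⟨κ, ℓ, β, h⟩ := h
  refine ⟨κ, ℓ ∘ₗ T, β.compl₁₂ T T, fun v => ?_⟩
  simp only [h]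
  simp only [LinearMap.comp_apply, LinearMap.compl₁₂_apply]

/-- a polynomial of degree four vanishing near `0` has vanishing coefficients -/
theorem poly4 {a₀ a₁ a₂ a₃ a₄ : ℝ}
    (h : ∀ᶠ t in 𝓝 (0:ℝ), a₀ + a₁ * t + a₂ * t ^ 2 + a₃ * t ^ 3 + a₄ * t ^ 4 = 0) :
    a₀ = 0 ∧ a₁ = 0 ∧ a₂ = 0 ∧ a₃ = 0 ∧ a₄ = 0 := by
  open Polynomial in
  set f : ℝ[X] := C a₀ + C a₁ * X + C a₂ * X ^ 2 + C a₃ * X ^ 3 + C a₄ * X ^ 4 with hf
  have hev : ∀ t, f.eval t = a₀ + a₁ * t + a₂ * t ^ 2 + a₃ * t ^ 3 + a₄ * t ^ 4 := by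
    intro t; rw [hf]; simp
  have h0 : f = 0 := by
    apply Polynomial.eq_zero_of_infinite_isRoot
    obtain ⟨r, hr, hball⟩ := Metric.eventually_nhds_iff_ball.1 h
    have : Set.Infinite (Ioo (0:ℝ) r) := Ioo_infinite hr
    refine this.mono fun t ht => ?_
    change f.IsRoot t
    rw [Polynomial.IsRoot, hev]
    apply hball
    rw [mem_ball, Real.dist_eq, sub_zero, abs_of_pos ht.1]
    exact ht.2
  have hc : ∀ k, f.coeff k = 0 := fun k => by rw [h0, Polynomial.coeff_zero]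
  have c0 := hc 0
  have c1 := hc 1
  have c2 := hc 2
  have c3 := hc 3
  have c4 := hc 4
  simp [hf, Polynomial.coeff_X, Polynomial.coeff_C, Polynomial.coeff_X_pow] at c0 c1 c2 c3 c4
  exact ⟨c0, c1, c2, c3, c4⟩

variable {V : Type*} [NormedAddCommGroup V] [InnerProductSpace ℝ V] [FiniteDimensional ℝ V]

/-- the projection to the base plane -/
noncomputable def pj (n : V) : V →ₗ[ℝ] (ℝ ∙ n)ᗮ := ((ℝ ∙ n)ᗮ.orthogonalProjectionOnto : V →ₗ[ℝ] _)

theorem pj_apply_mem (n : V) (W : (ℝ ∙ n)ᗮ) : pj n (W : V) = W := by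
  unfold pj
  simp

theorem pj_apply_n (n : V) : pj n n = 0 := by
  unfold pj
  have h : n ∈ (ℝ ∙ n)ᗮᗮ := by
    rw [Submodule.orthogonal_orthogonal]
    exact Submodule.mem_span_singleton_self n
  simp

/-- the quadratic function of a chart in which `f` is quadratic -/
noncomputable def quadOf (n : V) (α : ℝ) (β : (ℝ ∙ n)ᗮ) (G : (ℝ ∙ n)ᗮ →ₗ[ℝ] (ℝ ∙ n)ᗮ) (v : V) : ℝ :=
  α * ⟪n, v⟫ ^ 2 - ⟪n, v⟫ * ⟪β, pj n v⟫ + ⟪G (pj n v), pj n v⟫ + ⟪n, v⟫

theorem isQ_quadOf (n : V) (α : ℝ) (β : (ℝ ∙ n)ᗮ) (G : (ℝ ∙ n)ᗮ →ₗ[ℝ] (ℝ ∙ n)ᗮ) :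
    IsQ (quadOf n α β G) := by
  refine ⟨0, innerₗ V n, LinearMap.mk₂ ℝ (fun u v => α * (⟪n, u⟫ * ⟪n, v⟫) -
    ⟪n, u⟫ * ⟪β, pj n v⟫ + ⟪G (pj n u), pj n v⟫) ?_ ?_ ?_ ?_, fun v => ?_⟩
  · intro u u' v
    simp only [inner_add_right, map_add, inner_add_left]; ring
  · intro r u v
    simp only [real_inner_smul_right, map_smul, real_inner_smul_left, smul_eq_mul]; ring
  · intro u v v'
    simp only [inner_add_right, map_add]; ring
  · intro r u v
    simp only [real_inner_smul_right, map_smul, smul_eq_mul]; ring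
  · simp only [LinearMap.mk₂_apply, quadOf, innerₗ_apply_apply]
    ring

theorem quadOf_q {M : Set V} {p n : V} (c : Chart M p n) (α : ℝ) (β : (ℝ ∙ n)ᗮ)
    (G : (ℝ ∙ n)ᗮ →ₗ[ℝ] (ℝ ∙ n)ᗮ) (W : (ℝ ∙ n)ᗮ) :
    quadOf n α β G (c.q W - p) = c.z W ^ 2 * (α + ⟪β, W⟫ + ⟪G W, W⟫ - c.f W) := by
  have h1 : pj n (c.q W - p) = c.z W • W := by
    rw [c.q_sub, map_smul, map_sub, pj_apply_mem, pj_apply_n, sub_zero]
  have h2 : ⟪n, c.q W - p⟫ = -c.z W := by
    rw [c.q_sub, real_inner_smul_right, c.n_dir]; ring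
  have h3 := c.z_mul_f W
  unfold quadOf
  rw [h1, h2, map_smul, real_inner_smul_left, real_inner_smul_right, real_inner_smul_right]
  linear_combination (c.z W) * h3

namespace Cfg

variable {M K : Set V} {η : V → V} (C : Cfg M K η)
include C

theorem local_quad {y : V} (hy : y ∈ frontier M) : ∃ Φ : V → ℝ, IsQ Φ ∧ (∃ v, Φ v ≠ 0) ∧
    ∀ᶠ y' in 𝓝 y, y' ∈ frontier M → Φ y' = 0 := by
  obtain ⟨p, n, c, Wc, α, β, G, hyW, hGs, hGp, hf⟩ := C.main_local hy
  refine ⟨fun v => quadOf n α β G (-p + v), (isQ_quadOf n α β G).translate (-p), ?_, ?_⟩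
  · obtain ⟨e, he, -⟩ := exists_perp1 (c.finrank_P C.dim) (0 : (ℝ ∙ n)ᗮ)
    refine ⟨p + (e : V), ?_⟩
    simp only [neg_add_cancel_left]
    unfold quadOf
    rw [mem_perp, pj_apply_mem]
    have := hGp e he
    simp only [ne_eq, OfNat.ofNat_ne_zero, not_false_eq_true, zero_pow, mul_zero, zero_mul,
      sub_zero, zero_add, add_zero]
    exact this.ne'
  · by_contra hcon
    rw [not_eventually] at hcon
    obtain ⟨𝒰, h𝒰, hU⟩ : ∃ 𝒰 : Ultrafilter V, (𝒰 : Filter V) ≤ 𝓝 y ∧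
        ∀ᶠ y' in (𝒰 : Filter V), ¬ (y' ∈ frontier M → quadOf n α β G (-p + y') = 0) := by
      have hne : NeBot (𝓝 y ⊓ 𝓟 {y' | ¬ (y' ∈ frontier M → quadOf n α β G (-p + y') = 0)}) := by
        rw [← frequently_mem_iff_neBot]; exact hcon
      refine ⟨Ultrafilter.of (𝓝 y ⊓ 𝓟 {y' | ¬ (y' ∈ frontier M →
        quadOf n α β G (-p + y') = 0)}), (Ultrafilter.of_le _).trans inf_le_left, ?_⟩
      exact (Ultrafilter.of_le _).trans inf_le_right (mem_principal_self _)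
    have hyp : y ≠ p := by rw [hyW]; exact c.q_ne Wc
    have hch : ∀ y' : V, ∃ W : (ℝ ∙ n)ᗮ, y' ∈ frontier M → y' ≠ p → y' = c.q W := by
      intro y'
      by_cases h1 : y' ∈ frontier M
      · by_cases h2 : y' ≠ p
        · obtain ⟨W, hW⟩ := c.surj y' h1 h2
          exact ⟨W, fun _ _ => hW⟩
        · exact ⟨0, fun _ h => absurd h h2⟩
      · exact ⟨0, fun h => absurd h h1⟩
    choose W hW using hch
    have hev : ∀ᶠ y' in (𝒰 : Filter V), y' = c.q (W y') := by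
      filter_upwards [hU, h𝒰 (eventually_ne_nhds hyp)] with y' h1 h2
      push Not at h1
      exact hW y' h1.1 h2
    have ht : Tendsto W 𝒰 (𝓝 Wc) := by
      apply c.param_tendsto
      rw [← hyW]
      have h1 : Tendsto (fun y' : V => y') 𝒰 (𝓝 y) := h𝒰
      exact Tendsto.congr' hev h1
    obtain ⟨y', h1, h2, h3⟩ := (hU.and (hev.and (ht.eventually hf))).exists
    push Not at h1
    apply h1.2
    have e : -p + y' = c.q (W y') - p := by rw [← h2]; abel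
    rw [e, quadOf_q, h3]; ring

/-- the three-dimensional theorem -/
theorem three_dim : ∃ Φ : V → ℝ, IsQ Φ ∧ (∃ v, Φ v ≠ 0) ∧ ∀ y ∈ frontier M, Φ y = 0 := by
  obtain ⟨w, hw, -⟩ := exists_perp2 C.dim (0 : V) 0
  obtain ⟨y, hy⟩ := exists_nor C.bM w
  have hyF : y ∈ frontier M := hy.frontier C.bM hw
  obtain ⟨p, n, c, W₀, α, β, G, hyW, hGs, hGp, hf⟩ := C.main_local hyF
  set O : Set (ℝ ∙ n)ᗮ := {W | ∀ᶠ W' in 𝓝 W, c.f W' = α + ⟪β, W'⟫ + ⟪G W', W'⟫} with hO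
  have hOo : IsOpen O := isOpen_setOfPred_eventually_nhds
  have hOc : IsClosed O := by
    rw [← closure_subset_iff_isClosed]
    intro Ws hWs
    obtain ⟨Φ, hΦ, ⟨v₀, hv₀⟩, hΦe⟩ := C.local_quad (c.q_frontier Ws)
    obtain ⟨κ, ℓ, β₂, hΦp⟩ := hΦ.translate p
    have hΦp' : ∀ v, Φ (p + v) = κ + ℓ v + β₂ v v := hΦp
    have h1 : ∀ᶠ W in 𝓝 Ws, Φ (c.q W) = 0 := by
      filter_upwards [c.q_cont.tendsto Ws hΦe] with W hW using hW (c.q_frontier W)
    have h1' : ∀ᶠ W in 𝓝 Ws, ∀ᶠ W' in 𝓝 W, Φ (c.q W') = 0 := eventually_eventually_nhds.2 h1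
    obtain ⟨W₁, hW₁O, hW₁⟩ : ∃ W₁ ∈ O, ∀ᶠ W' in 𝓝 W₁, Φ (c.q W') = 0 := by
      have := mem_closure_iff_frequently.1 hWs
      obtain ⟨W₁, h2, h3⟩ := (this.and_eventually h1').exists
      exact ⟨W₁, h2, h3⟩
    -- homogenized identity
    have hhom : ∀ W, Φ (c.q W) = 0 →
        κ * c.f W ^ 2 + c.f W * ℓ ((W : V) - n) + β₂ ((W : V) - n) ((W : V) - n) = 0 := by
      intro W hW
      have e1 : c.q W = p + c.z W • ((W : V) - n) := rfl
      rw [e1, hΦp'] at hW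
      simp only [map_smul, LinearMap.smul_apply, smul_eq_mul] at hW
      have e2 := c.z_mul_f W
      have hz := (c.z_pos W).ne'
      have hfz : c.f W = (c.z W)⁻¹ := rfl
      rw [hfz]
      field_simp
      linear_combination hW
    have hid : ∀ᶠ W in 𝓝 W₁, κ * (α + ⟪β, W⟫ + ⟪G W, W⟫) ^ 2 +
        (α + ⟪β, W⟫ + ⟪G W, W⟫) * ℓ ((W : V) - n) + β₂ ((W : V) - n) ((W : V) - n) = 0 := by
      filter_upwards [hW₁, hW₁O] with W h2 h3
      have := hhom W h2
      rwa [h3] at this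
    -- along lines
    have hline : ∀ D : (ℝ ∙ n)ᗮ, D ≠ 0 → κ = 0 ∧ ℓ (D : V) = 0 ∧
        ℓ ((W₁ : V) - n) * (α + ⟪β, W₁ + D⟫ + ⟪G (W₁ + D), W₁ + D⟫) +
          β₂ (((W₁ + D : (ℝ ∙ n)ᗮ) : V) - n) (((W₁ + D : (ℝ ∙ n)ᗮ) : V) - n) = 0 := by
      intro D hD
      set A := (W₁ : V) - n with hA
      set a₀ := α + ⟪β, W₁⟫ + ⟪G W₁, W₁⟫ with ha₀
      set a₁ := ⟪β, D⟫ + 2 * ⟪G W₁, D⟫ with ha₁
      set a₂ := ⟪G D, D⟫ with ha₂
      have hq : ∀ t : ℝ, α + ⟪β, W₁ + t • D⟫ + ⟪G (W₁ + t • D), W₁ + t • D⟫ =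
          a₀ + a₁ * t + a₂ * t ^ 2 := by
        intro t
        rw [map_add, map_smul, inner_add_right, inner_add_left, inner_add_right,
          inner_add_right, real_inner_smul_right, real_inner_smul_left, real_inner_smul_right,
          real_inner_smul_left, real_inner_smul_right, hGs D W₁, real_inner_comm (G W₁) D]
        ring
      have hv : ∀ t : ℝ, ((W₁ + t • D : (ℝ ∙ n)ᗮ) : V) - n = A + t • (D : V) := by
        intro t
        rw [hA]
        push_cast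
        abel
      have ht : ∀ᶠ t in 𝓝 (0:ℝ), κ * (a₀ + a₁ * t + a₂ * t ^ 2) ^ 2 +
          (a₀ + a₁ * t + a₂ * t ^ 2) * (ℓ A + t * ℓ (D : V)) +
          (β₂ A A + t * (β₂ A (D : V) + β₂ (D : V) A) + t ^ 2 * β₂ (D : V) (D : V)) = 0 := by
        have hcont : Tendsto (fun t : ℝ => W₁ + t • D) (𝓝 0) (𝓝 W₁) := by
          have hc : Continuous (fun t : ℝ => W₁ + t • D) := by fun_prop
          have := hc.tendsto 0
          simpa using this
        filter_upwards [hcont.eventually hid] with t h2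
        rw [hq, hv] at h2
        simp only [map_add, map_smul, LinearMap.add_apply, LinearMap.smul_apply,
          smul_eq_mul] at h2
        linear_combination h2
      obtain ⟨c0, c1, c2, c3, c4⟩ := poly4 (a₀ := κ * a₀ ^ 2 + a₀ * ℓ A + β₂ A A)
        (a₁ := κ * (2 * a₀ * a₁) + (a₀ * ℓ (D : V) + a₁ * ℓ A) + (β₂ A (D : V) + β₂ (D : V) A))
        (a₂ := κ * (a₁ ^ 2 + 2 * a₀ * a₂) + (a₁ * ℓ (D : V) + a₂ * ℓ A) + β₂ (D : V) (D : V))
        (a₃ := κ * (2 * a₁ * a₂) + a₂ * ℓ (D : V)) (a₄ := κ * a₂ ^ 2) (by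
          filter_upwards [ht] with t h2
          linear_combination h2)
      have ha₂0 : a₂ ≠ 0 := (hGp D hD).ne'
      have hκ : κ = 0 := (mul_eq_zero.1 c4).resolve_right (pow_ne_zero 2 ha₂0)
      have hℓ : ℓ (D : V) = 0 := by
        rw [hκ, zero_mul, zero_add] at c3
        exact (mul_eq_zero.1 c3).resolve_left ha₂0
      refine ⟨hκ, hℓ, ?_⟩
      have h2 := hq 1
      have h3 := hv 1
      rw [one_smul] at h2 h3
      rw [h2, h3, one_smul]
      simp only [map_add, LinearMap.add_apply]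
      rw [hκ, hℓ] at c1 c2
      rw [hκ] at c0
      linear_combination c0 + c1 + c2
    obtain ⟨e, he, -⟩ := exists_perp1 (c.finrank_P C.dim) (0 : (ℝ ∙ n)ᗮ)
    have hκ : κ = 0 := (hline e he).1
    have hℓD : ∀ D : (ℝ ∙ n)ᗮ, ℓ (D : V) = 0 := by
      intro D
      by_cases hD : D = 0
      · rw [hD]; simp
      · exact (hline D hD).2.1
    have hℓW : ∀ W : (ℝ ∙ n)ᗮ, ℓ ((W : V) - n) = -ℓ n := by
      intro W; rw [map_sub, hℓD, zero_sub]
    have hid2 : ∀ W : (ℝ ∙ n)ᗮ, W ≠ W₁ → -ℓ n * (α + ⟪β, W⟫ + ⟪G W, W⟫) +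
        β₂ ((W : V) - n) ((W : V) - n) = 0 := by
      intro W hW
      have h2 := (hline (W - W₁) (sub_ne_zero.2 hW)).2.2
      rw [add_sub_cancel, hℓW] at h2
      exact h2
    have hid3 : ∀ W : (ℝ ∙ n)ᗮ, -ℓ n * (α + ⟪β, W⟫ + ⟪G W, W⟫) +
        β₂ ((W : V) - n) ((W : V) - n) = 0 := by
      intro W
      by_cases hW : W = W₁
      · have h2 := hid.self_of_nhds
        rw [hκ, hℓW] at h2
        rw [hW]
        linear_combination h2
      · exact hid2 W hW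
    have hℓn : ℓ n ≠ 0 := by
      intro h0
      apply hv₀
      -- then everything vanishes
      have hβ : ∀ W : (ℝ ∙ n)ᗮ, β₂ ((W : V) - n) ((W : V) - n) = 0 := by
        intro W
        have := hid3 W
        rw [h0] at this
        linarith
      have hβ2 : ∀ (W : (ℝ ∙ n)ᗮ) (t : ℝ), β₂ ((W : V) + t • n) ((W : V) + t • n) = 0 := by
        intro W t
        by_cases ht : t = 0
        · -- limiting case
          have h2 := hβ W
          have h3 := hβ (-W)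
          have h4 := hβ 0
          rw [ht, zero_smul, add_zero]
          simp only [map_sub, LinearMap.sub_apply, Submodule.coe_neg, map_neg,
            LinearMap.neg_apply, Submodule.coe_zero, map_zero, LinearMap.zero_apply] at h2 h3 h4
          linarith
        · have h2 := hβ ((-t⁻¹) • W)
          have e1 : (W : V) + t • n = (-t) • ((((-t⁻¹) • W : (ℝ ∙ n)ᗮ) : V) - n) := by
            rw [Submodule.coe_smul, smul_sub, smul_smul, neg_mul_neg, mul_inv_cancel₀ ht,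
              one_smul, neg_smul, sub_neg_eq_add]
          rw [e1, map_smul, map_smul, LinearMap.smul_apply, h2, smul_zero, smul_zero]
      have e1 : v₀ = p + (v₀ - p) := by abel
      have e2 : v₀ - p = ((pj n (v₀ - p) : (ℝ ∙ n)ᗮ) : V) + ⟪n, v₀ - p⟫ • n := by
        set u := v₀ - p with hu
        have hm : u - ⟪n, u⟫ • n ∈ (ℝ ∙ n)ᗮ := by
          rw [Submodule.mem_orthogonal_singleton_iff_inner_right, inner_sub_right,
            real_inner_smul_right, c.inner_nn]; ring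
        have h5 : pj n u = ⟨u - ⟪n, u⟫ • n, hm⟩ := by
          have h6 : u = ((⟨u - ⟪n, u⟫ • n, hm⟩ : (ℝ ∙ n)ᗮ) : V) + ⟪n, u⟫ • n := by simp
          nth_rewrite 1 [h6]
          rw [map_add, pj_apply_mem, map_smul, pj_apply_n, smul_zero, add_zero]
        rw [h5]; simp
      rw [e1, hΦp', hκ, e2, hβ2, map_add, hℓD, map_smul, h0]
      simp
    filter_upwards [h1] with W hW
    have h2 := hhom W hW
    rw [hκ, hℓW] at h2
    have h3 := hid3 W
    have h4 : ℓ n * (c.f W - (α + ⟪β, W⟫ + ⟪G W, W⟫)) = 0 := by linear_combination h3 - h2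
    have h5 := (mul_eq_zero.1 h4).resolve_left hℓn
    linarith
  have hOne : O.Nonempty := ⟨W₀, hf⟩
  have hOu : O = univ := IsClopen.eq_univ ⟨hOc, hOo⟩ hOne
  have hall : ∀ W, c.f W = α + ⟪β, W⟫ + ⟪G W, W⟫ := by
    intro W
    have : W ∈ O := by rw [hOu]; trivial
    exact this.self_of_nhds
  refine ⟨fun v => quadOf n α β G (-p + v), (isQ_quadOf n α β G).translate (-p), ?_, ?_⟩
  · obtain ⟨e, he, -⟩ := exists_perp1 (c.finrank_P C.dim) (0 : (ℝ ∙ n)ᗮ)
    refine ⟨p + (e : V), ?_⟩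
    simp only [neg_add_cancel_left]
    unfold quadOf
    rw [mem_perp, pj_apply_mem]
    have := hGp e he
    simp only [ne_eq, OfNat.ofNat_ne_zero, not_false_eq_true, zero_pow, mul_zero, zero_mul,
      sub_zero, zero_add, add_zero]
    exact this.ne'
  · intro y' hy'
    by_cases h1 : y' = p
    · rw [h1]
      simp only [neg_add_cancel]
      unfold quadOf
      simp
    · obtain ⟨W, hW⟩ := c.surj y' hy' h1
      have hW' : y' = c.q W := hW
      have e : -p + y' = c.q W - p := by rw [← hW']; abel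
      simp only [e]
      rw [quadOf_q, hall]; ring

end Cfg

end Pool.Agent.N553.FG
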