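import Pool.Agent.N553.FG.Chart

set_option autoImplicit false
set_option linter.unusedSectionVars false

open Set Filter Topology Metric
open scoped RealInnerProductSpace

namespace Pool.Agent.N553.FG

variable {V : Type*} [NormedAddCommGroup V] [InnerProductSpace ℝ V] [FiniteDimensional ℝ V]

namespace Chart

variable {M : Set V} {p n : V} (c : Chart M p n)

/-- the boundary point with parameter `W` -/
noncomputable def q (W : (ℝ ∙ n)ᗮ) : V := p + c.z W • ((W : V) - n)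

noncomputable def f (W : (ℝ ∙ n)ᗮ) : ℝ := (c.z W)⁻¹

noncomputable def s (W : (ℝ ∙ n)ᗮ) : (ℝ ∙ n)ᗮ := (ℝ ∙ n)ᗮ.orthogonalProjectionOnto (c.σ W)

theorem s_inner (W e : (ℝ ∙ n)ᗮ) : ⟪c.s W, e⟫ = ⟪c.σ W, (e : V)⟫ := by
  unfold s
  exact Submodule.inner_orthogonalProjectionOnto_eq_of_mem_right e (c.σ W)

include c in
theorem n_ne : n ≠ 0 := by
  intro h0; have := c.norm_n; rw [h0, norm_zero] at this; norm_num at this

include c in
theorem inner_nn : ⟪n, n⟫ = 1 := by rw [real_inner_self_eq_norm_sq, c.norm_n]; norm_num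

include c in
theorem n_dir (W : (ℝ ∙ n)ᗮ) : ⟪n, (W : V) - n⟫ = -1 := by
  rw [inner_sub_right, mem_perp, c.inner_nn]; norm_num

theorem f_pos (W : (ℝ ∙ n)ᗮ) : 0 < c.f W := inv_pos.2 (c.z_pos W)

theorem z_mul_f (W : (ℝ ∙ n)ᗮ) : c.z W * c.f W = 1 := mul_inv_cancel₀ (c.z_pos W).ne'

theorem q_sub (W : (ℝ ∙ n)ᗮ) : c.q W - p = c.z W • ((W : V) - n) := by
  unfold q; rw [add_sub_cancel_left]

theorem q_frontier (W : (ℝ ∙ n)ᗮ) : c.q W ∈ frontier M := c.q_mem W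

theorem q_nor (W : (ℝ ∙ n)ᗮ) : Nor M (c.q W) (c.σ W) := c.σ_nor W

theorem σ_q (W : (ℝ ∙ n)ᗮ) : ⟪c.σ W, c.q W - p⟫ = 1 := by rw [q_sub]; exact c.σ_one W

theorem σ_ne (W : (ℝ ∙ n)ᗮ) : c.σ W ≠ 0 := by
  intro h0; have := c.σ_q W; rw [h0, inner_zero_left] at this; norm_num at this

theorem σ_dir (W : (ℝ ∙ n)ᗮ) : ⟪c.σ W, (W : V) - n⟫ = c.f W := by
  have h1 := c.σ_one W
  rw [real_inner_smul_right] at h1
  unfold f
  exact (inv_eq_of_mul_eq_one_right h1).symm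

theorem σ_n (W : (ℝ ∙ n)ᗮ) : ⟪c.σ W, n⟫ = ⟪c.s W, W⟫ - c.f W := by
  rw [s_inner, ← c.σ_dir W, inner_sub_right]; ring

theorem σ_le (W : (ℝ ∙ n)ᗮ) {y : V} (hy : y ∈ M) : ⟪c.σ W, y - p⟫ ≤ 1 := by
  have h1 := (c.q_nor W).2 y hy
  have h2 := c.σ_q W
  rw [inner_sub_right] at h2 ⊢
  linarith

theorem subg (hM : Body M) (W W' : (ℝ ∙ n)ᗮ) : ⟪c.s W, W' - W⟫ ≤ c.f W' - c.f W := by
  have h1 := c.σ_le W (hM.mem_of_frontier (c.q_frontier W'))
  rw [q_sub, real_inner_smul_right] at h1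
  have h2 : ⟪c.σ W, (W' : V) - n⟫ ≤ c.f W' := by
    have h3 := c.z_mul_f W'
    have h4 := c.z_pos W'
    by_contra hcon
    push Not at hcon
    have := mul_lt_mul_of_pos_left hcon h4
    linarith
  have h5 : ⟪c.s W, W' - W⟫ = ⟪c.σ W, (W' : V) - n⟫ - ⟪c.σ W, (W : V) - n⟫ := by
    rw [s_inner, ← inner_sub_right]
    congr 1
    simp
  rw [h5, σ_dir]
  linarith

theorem f_cont : Continuous c.f := c.z_cont.inv₀ fun W => (c.z_pos W).ne'

theorem q_cont : Continuous c.q := by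
  have := c.z_cont
  unfold q
  fun_prop

theorem s_cont : Continuous c.s := by
  unfold s
  exact ((ℝ ∙ n)ᗮ.orthogonalProjectionOnto).continuous.comp c.σ_cont

theorem s_inj {K : Set V} {η : V → V} (C : Cfg M K η) : Function.Injective c.s := by
  intro W W' h
  have h1 := c.subg C.bM W W'
  have h2 := c.subg C.bM W' W
  rw [← h] at h2
  have h3 : ⟪c.s W, W - W'⟫ = -⟪c.s W, W' - W⟫ := by rw [← inner_neg_right, neg_sub]
  have h4 : c.f W' - c.f W = ⟪c.s W, W' - W⟫ := by linarith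
  have h5 : ⟪c.σ W, n⟫ = ⟪c.σ W', n⟫ := by
    rw [c.σ_n, c.σ_n, ← h]
    rw [inner_sub_right] at h4
    linarith
  have h6 : ⟪c.σ W, c.q W' - p⟫ = 1 := by
    rw [q_sub, real_inner_smul_right, inner_sub_right, h5, ← c.s_inner, h, c.s_inner,
      ← inner_sub_right, σ_dir, z_mul_f]
  have h7 : Nor M (c.q W') (c.σ W) := by
    apply nor_of_le C.bM (C.bM.mem_of_frontier (c.q_frontier W'))
    rw [(c.q_nor W).hh_eq]
    have := c.σ_q W
    rw [inner_sub_right] at this h6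
    linarith
  have h8 : c.q W = c.q W' := C.strict (c.σ_ne W) (c.q_nor W) h7
  have h9 : c.z W • ((W : V) - n) = c.z W' • ((W' : V) - n) := by
    rw [← q_sub, ← q_sub, h8]
  have h10 : c.z W = c.z W' := by
    have : ⟪n, c.z W • ((W : V) - n)⟫ = ⟪n, c.z W' • ((W' : V) - n)⟫ := by rw [h9]
    rw [real_inner_smul_right, real_inner_smul_right, c.n_dir, c.n_dir] at this
    linarith
  rw [h10] at h9
  have h11 := smul_right_injective V (c.z_pos W').ne' h9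
  exact Subtype.ext (sub_left_injective h11)

/-- the projection of the base plane to the tangent plane at `q W` along the line from `p` -/
noncomputable def hat (W : (ℝ ∙ n)ᗮ) : (ℝ ∙ n)ᗮ →ₗ[ℝ] V where
  toFun e := (e : V) - ⟪c.σ W, (e : V)⟫ • (c.q W - p)
  map_add' e e' := by
    simp only [Submodule.coe_add, inner_add_right, add_smul]; abel
  map_smul' r e := by
    simp only [Submodule.coe_smul, real_inner_smul_right, mul_smul, RingHom.id_apply, smul_sub]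

theorem hat_apply (W e : (ℝ ∙ n)ᗮ) :
    c.hat W e = (e : V) - ⟪c.σ W, (e : V)⟫ • (c.q W - p) := rfl

theorem σ_hat (W e : (ℝ ∙ n)ᗮ) : ⟪c.σ W, c.hat W e⟫ = 0 := by
  rw [hat_apply, inner_sub_right, real_inner_smul_right, σ_q]; ring

theorem n_hat (W e : (ℝ ∙ n)ᗮ) : ⟪n, c.hat W e⟫ = ⟪c.σ W, (e : V)⟫ * c.z W := by
  rw [hat_apply, inner_sub_right, real_inner_smul_right, mem_perp, q_sub, real_inner_smul_right,
    c.n_dir]
  ring

theorem hat_inj (W : (ℝ ∙ n)ᗮ) : Function.Injective (c.hat W) := by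
  rw [injective_iff_map_eq_zero]
  intro e he
  have h1 := c.n_hat W e
  rw [he, inner_zero_right] at h1
  have h2 : ⟪c.σ W, (e : V)⟫ = 0 := (mul_eq_zero.1 h1.symm).resolve_right (c.z_pos W).ne'
  rw [hat_apply, h2, zero_smul, sub_zero] at he
  exact Subtype.ext he

theorem hat_surj (W : (ℝ ∙ n)ᗮ) {v : V} (hv : ⟪c.σ W, v⟫ = 0) : ∃ e, c.hat W e = v := by
  have h1 : v + ⟪n, v⟫ • ((W : V) - n) ∈ (ℝ ∙ n)ᗮ := by
    rw [Submodule.mem_orthogonal_singleton_iff_inner_right, inner_add_right,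
      real_inner_smul_right, c.n_dir]
    ring
  refine ⟨⟨_, h1⟩, ?_⟩
  rw [hat_apply]
  simp only [inner_add_right, hv, real_inner_smul_right, σ_dir, zero_add, q_sub, smul_smul]
  have : ⟪n, v⟫ * c.f W * c.z W = ⟪n, v⟫ := by
    rw [mul_assoc, mul_comm (c.f W), z_mul_f, mul_one]
  rw [this]
  abel

theorem hat_tendsto {ι : Type*} {l : Filter ι} {a w : ι → (ℝ ∙ n)ᗮ} {W₀ w₀ : (ℝ ∙ n)ᗮ}
    (ha : Tendsto a l (𝓝 W₀)) (hw : Tendsto w l (𝓝 w₀)) :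
    Tendsto (fun i => c.hat (a i) (w i)) l (𝓝 (c.hat W₀ w₀)) := by
  simp only [hat_apply]
  have hw' : Tendsto (fun i => (w i : V)) l (𝓝 (w₀ : V)) :=
    (continuous_subtype_val.tendsto w₀).comp hw
  have h1 : Tendsto (fun i => c.σ (a i)) l (𝓝 (c.σ W₀)) := (c.σ_cont.tendsto W₀).comp ha
  have h2 : Tendsto (fun i => c.q (a i)) l (𝓝 (c.q W₀)) := (c.q_cont.tendsto W₀).comp ha
  exact hw'.sub ((h1.inner hw').smul (h2.sub tendsto_const_nhds))

theorem exit_seq {K : Set V} {η : V → V} (C : Cfg M K η) {ι : Type*} (𝒰 : Ultrafilter ι)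
    {a b : ι → (ℝ ∙ n)ᗮ} {W₀ δ e : (ℝ ∙ n)ᗮ} {t : ℝ} (ha : Tendsto a 𝒰 (𝓝 W₀))
    (hb : Tendsto b 𝒰 (𝓝 W₀)) (hab : ∀ i, a i ≠ b i)
    (hδ : Tendsto (fun i => (‖c.s (b i) - c.s (a i)‖)⁻¹ • (c.s (b i) - c.s (a i))) 𝒰 (𝓝 δ))
    (he : e ≠ 0) (hδe : ⟪δ, e⟫ = 0) (ht : 0 < t)
    (hx : c.q W₀ + t • c.hat W₀ e ∈ frontier K) :
    ∃ x : ι → V, Tendsto x 𝒰 (𝓝 (c.q W₀ + t • c.hat W₀ e)) ∧
      ∀ᶠ i in (𝒰 : Filter ι), x i ∈ frontier K ∧ ⟪c.σ (a i), x i - p⟫ = 1 ∧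
        ⟪c.σ (b i), x i - p⟫ = 1 := by
  set κ : ι → ℝ := fun i => ‖c.s (b i) - c.s (a i)‖ with hκ
  have hκ0 : ∀ i, 0 < κ i := fun i => norm_pos_iff.2 (sub_ne_zero.2 fun h =>
    hab i (c.s_inj C h).symm)
  set ρ : ι → ℝ := fun i => 1 - ⟪c.σ (b i), c.q (a i) - p⟫ with hρ
  have hρ0 : ∀ i, 0 ≤ ρ i := fun i => by
    have := c.σ_le (b i) (C.bM.mem_of_frontier (c.q_frontier (a i)))
    simp only [hρ]; linarith
  have hρ1 : ∀ i, ρ i ≤ c.z (a i) * (κ i * ‖b i - a i‖) := by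
    intro i
    have h1 : ⟪c.σ (b i), c.q (a i) - p⟫ =
        c.z (a i) * (c.f (b i) + ⟪c.s (b i), a i - b i⟫) := by
      rw [q_sub, real_inner_smul_right, s_inner, ← c.σ_dir (b i), ← inner_add_right]
      congr 2
      simp
    have h2 := c.subg C.bM (a i) (b i)
    have h3 : ⟪c.s (a i), b i - a i⟫ + ⟪c.s (b i), a i - b i⟫ =
        -⟪c.s (b i) - c.s (a i), b i - a i⟫ := by
      rw [← neg_sub (b i) (a i), inner_neg_right, inner_sub_left]; ring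
    have h4 : ⟪c.s (b i) - c.s (a i), b i - a i⟫ ≤ κ i * ‖b i - a i‖ := real_inner_le_norm _ _
    have h5 : 1 = c.z (a i) * c.f (a i) := (c.z_mul_f _).symm
    have h6 : ρ i = c.z (a i) * (c.f (a i) - c.f (b i) - ⟪c.s (b i), a i - b i⟫) := by
      simp only [hρ]
      rw [h1, mul_sub, mul_sub, ← h5]; ring
    rw [h6]
    apply mul_le_mul_of_nonneg_left _ (c.z_pos _).le
    linarith
  set r : ι → ℝ := fun i => ρ i / κ i with hr
  have hrκ : ∀ i, r i * κ i = ρ i := fun i => div_mul_cancel₀ _ (hκ0 i).ne'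
  have hza : Tendsto (fun i => c.z (a i)) 𝒰 (𝓝 (c.z W₀)) := (c.z_cont.tendsto W₀).comp ha
  have hr0 : Tendsto r 𝒰 (𝓝 0) := by
    have h1 : Tendsto (fun i => c.z (a i) * ‖b i - a i‖) 𝒰 (𝓝 (c.z W₀ * ‖W₀ - W₀‖)) :=
      hza.mul (hb.sub ha).norm
    rw [sub_self, norm_zero, mul_zero] at h1
    refine squeeze_zero (fun i => div_nonneg (hρ0 i) (hκ0 i).le) (fun i => ?_) h1
    rw [hr]
    simp only
    rw [div_le_iff₀ (hκ0 i)]
    have := hρ1 i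
    linarith
  set δk : ι → (ℝ ∙ n)ᗮ := fun i =>
    (κ i)⁻¹ • (c.s (b i) - c.s (a i)) + r i • c.s (a i) with hδk
  have hsa : Tendsto (fun i => c.s (a i)) 𝒰 (𝓝 (c.s W₀)) := (c.s_cont.tendsto W₀).comp ha
  have hδkt : Tendsto δk 𝒰 (𝓝 δ) := by
    have := hδ.add (hr0.smul hsa)
    rwa [zero_smul, add_zero] at this
  have hδ1 : ⟪δ, δ⟫ = 1 := by
    have h1 := hδ.norm
    have h2 : ∀ i, ‖(‖c.s (b i) - c.s (a i)‖)⁻¹ • (c.s (b i) - c.s (a i))‖ = 1 := by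
      intro i
      rw [norm_smul, norm_inv, norm_norm]
      exact inv_mul_cancel₀ (hκ0 i).ne'
    simp only [h2] at h1
    have h3 := tendsto_nhds_unique h1 tendsto_const_nhds
    rw [real_inner_self_eq_norm_sq, h3]; norm_num
  have key : ∀ i w, ⟪c.σ (b i), c.hat (a i) w⟫ = κ i * ⟪δk i, w⟫ := by
    intro i w
    have h1 : κ i * ⟪δk i, w⟫ = ⟪c.s (b i), w⟫ - ⟪c.s (a i), w⟫ + ρ i * ⟪c.s (a i), w⟫ := by
      simp only [hδk]
      rw [inner_add_left, real_inner_smul_left, real_inner_smul_left, inner_sub_left, mul_add,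
        ← mul_assoc, mul_inv_cancel₀ (hκ0 i).ne', one_mul, ← hrκ i]
      ring
    have h2 : ρ i = 1 - ⟪c.σ (b i), c.q (a i) - p⟫ := rfl
    rw [h1, h2, hat_apply, inner_sub_right, real_inner_smul_right, s_inner, s_inner]
    ring
  set ek : ι → (ℝ ∙ n)ᗮ := fun i => e - (⟪δk i, e⟫ / ⟪δk i, δk i⟫) • δk i with hek
  have hekt : Tendsto ek 𝒰 (𝓝 e) := by
    have h1 : Tendsto (fun i => ⟪δk i, e⟫ / ⟪δk i, δk i⟫) 𝒰 (𝓝 (⟪δ, e⟫ / ⟪δ, δ⟫)) :=
      (hδkt.inner tendsto_const_nhds).div (hδkt.inner hδkt) (by rw [hδ1]; norm_num)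
    rw [hδe, zero_div] at h1
    have h2 : Tendsto ek 𝒰 (𝓝 (e - (0:ℝ) • δ)) := tendsto_const_nhds.sub (h1.smul hδkt)
    rwa [zero_smul, sub_zero] at h2
  set y : ι → V := fun i => c.q (a i) + (r i / ⟪δk i, δ⟫) • c.hat (a i) δ with hy
  have hqa : Tendsto (fun i => c.q (a i)) 𝒰 (𝓝 (c.q W₀)) := (c.q_cont.tendsto W₀).comp ha
  have hyt : Tendsto y 𝒰 (𝓝 (c.q W₀)) := by
    have h1 : Tendsto (fun i => r i / ⟪δk i, δ⟫) 𝒰 (𝓝 (0 / ⟪δ, δ⟫)) :=
      hr0.div (hδkt.inner tendsto_const_nhds) (by rw [hδ1]; norm_num)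
    have h2 := hqa.add (h1.smul (c.hat_tendsto ha (tendsto_const_nhds (x := δ))))
    rwa [zero_div, zero_smul, add_zero] at h2
  set d : ι → V := fun i => c.hat (a i) (ek i) with hd
  have hdt : Tendsto d 𝒰 (𝓝 (c.hat W₀ e)) := c.hat_tendsto ha hekt
  have hne : c.hat W₀ e ≠ 0 := fun h => he (c.hat_inj W₀ (by rw [h, map_zero]))
  have hq : c.q W₀ ∈ interior K := C.sub (C.bM.mem_of_frontier (c.q_frontier W₀))
  have hex : ∀ i, ∃ τ : ℝ, y i ∈ interior K → d i ≠ 0 → 0 < τ ∧ y i + τ • d i ∈ frontier K := by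
    intro i
    by_cases h1 : y i ∈ interior K
    · by_cases h2 : d i ≠ 0
      · obtain ⟨τ, h3, h4⟩ := exit_exists C.bK h1 h2
        exact ⟨τ, fun _ _ => ⟨h3, h4⟩⟩
      · exact ⟨0, fun _ h => absurd h h2⟩
    · exact ⟨0, fun h => absurd h h1⟩
  choose τ hτ using hex
  have hev : ∀ᶠ i in (𝒰 : Filter ι), 0 < τ i ∧ y i + τ i • d i ∈ frontier K := by
    filter_upwards [hyt.eventually_mem (isOpen_interior.mem_nhds hq), hdt.eventually_ne hne]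
      with i h1 h2 using hτ i h1 h2
  have hτt := exit_tendsto C.bK 𝒰 hq hne hyt hdt hev ht hx
  refine ⟨fun i => y i + τ i • d i, hyt.add (hτt.smul hdt), ?_⟩
  have hpos : ∀ᶠ i in (𝒰 : Filter ι), 0 < ⟪δk i, δ⟫ := by
    have h1 : Tendsto (fun i => ⟪δk i, δ⟫) 𝒰 (𝓝 ⟪δ, δ⟫) := hδkt.inner tendsto_const_nhds
    rw [hδ1] at h1
    exact h1.eventually (lt_mem_nhds one_pos)
  filter_upwards [hev, hpos] with i hi hi2
  refine ⟨hi.2, ?_, ?_⟩
  · have e1 : y i + τ i • d i - p =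
        (c.q (a i) - p) + (r i / ⟪δk i, δ⟫) • c.hat (a i) δ + τ i • c.hat (a i) (ek i) := by
      simp only [hy, hd]; abel
    rw [e1, inner_add_right, inner_add_right, real_inner_smul_right, real_inner_smul_right,
      σ_hat, σ_hat, σ_q]
    ring
  · have e1 : y i + τ i • d i - p =
        (c.q (a i) - p) + (r i / ⟪δk i, δ⟫) • c.hat (a i) δ + τ i • c.hat (a i) (ek i) := by
      simp only [hy, hd]; abel
    have e2 : ⟪δk i, ek i⟫ = 0 := by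
      have h0 : ⟪δk i, δk i⟫ ≠ 0 := by
        intro h0
        rw [inner_self_eq_zero] at h0
        rw [h0, inner_zero_left] at hi2
        exact lt_irrefl _ hi2
      simp only [hek]
      rw [inner_sub_right, real_inner_smul_right, div_mul_cancel₀ _ h0, sub_self]
    have e3 : ⟪c.σ (b i), c.q (a i) - p⟫ = 1 - ρ i := by simp only [hρ]; ring
    rw [e1, inner_add_right, inner_add_right, real_inner_smul_right, real_inner_smul_right,
      key, key, e2, e3]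
    have e4 : r i / ⟪δk i, δ⟫ * (κ i * ⟪δk i, δ⟫) = ρ i := by
      rw [← hrκ i]
      field_simp
    rw [e4]; ring

/-- the relation of limit directions -/
def Rel (K : Set V) (η : V → V) (W₀ v δ : (ℝ ∙ n)ᗮ) : Prop :=
  ∀ e : (ℝ ∙ n)ᗮ, e ≠ 0 → ⟪δ, e⟫ = 0 → ∀ t : ℝ, 0 < t →
    c.q W₀ + t • c.hat W₀ e ∈ frontier K → ⟪η (c.q W₀ + t • c.hat W₀ e), c.hat W₀ v⟫ = 0

theorem f_diff {ι : Type*} {l : Filter ι} (hM : Body M) {a b : ι → (ℝ ∙ n)ᗮ}
    {W₀ v : (ℝ ∙ n)ᗮ} (ha : Tendsto a l (𝓝 W₀)) (hb : Tendsto b l (𝓝 W₀))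
    (hab : ∀ i, a i ≠ b i)
    (hv : Tendsto (fun i => (‖b i - a i‖)⁻¹ • (b i - a i)) l (𝓝 v)) :
    Tendsto (fun i => (‖b i - a i‖)⁻¹ * (c.f (b i) - c.f (a i))) l (𝓝 ⟪c.s W₀, v⟫) := by
  have h1 : Tendsto (fun i => ⟪c.s (a i), (‖b i - a i‖)⁻¹ • (b i - a i)⟫) l
      (𝓝 ⟪c.s W₀, v⟫) := ((c.s_cont.tendsto W₀).comp ha).inner hv
  have h2 : Tendsto (fun i => ⟪c.s (b i), (‖b i - a i‖)⁻¹ • (b i - a i)⟫) l
      (𝓝 ⟪c.s W₀, v⟫) := ((c.s_cont.tendsto W₀).comp hb).inner hv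
  refine tendsto_of_tendsto_of_tendsto_of_le_of_le h1 h2 (fun i => ?_) (fun i => ?_)
  · have h3 : 0 < ‖b i - a i‖ := norm_pos_iff.2 (sub_ne_zero.2 (hab i).symm)
    simp only [real_inner_smul_right]
    exact mul_le_mul_of_nonneg_left (c.subg hM (a i) (b i)) (inv_nonneg.2 h3.le)
  · have h3 : 0 < ‖b i - a i‖ := norm_pos_iff.2 (sub_ne_zero.2 (hab i).symm)
    simp only [real_inner_smul_right]
    have h4 := c.subg hM (b i) (a i)
    rw [← neg_sub (b i) (a i), inner_neg_right] at h4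
    exact mul_le_mul_of_nonneg_left (by linarith) (inv_nonneg.2 h3.le)

theorem q_diff_alg {E : Type*} [AddCommGroup E] [Module ℝ E] (p A B n : E) (za zb k : ℝ) :
    zb • (k • (B - A)) - (k * (za - zb)) • (A - n) =
      k • ((p + zb • (B - n)) - (p + za • (A - n))) := by module

theorem q_diff {ι : Type*} {l : Filter ι} (hM : Body M) {a b : ι → (ℝ ∙ n)ᗮ}
    {W₀ v : (ℝ ∙ n)ᗮ} (ha : Tendsto a l (𝓝 W₀)) (hb : Tendsto b l (𝓝 W₀))
    (hab : ∀ i, a i ≠ b i)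
    (hv : Tendsto (fun i => (‖b i - a i‖)⁻¹ • (b i - a i)) l (𝓝 v)) :
    Tendsto (fun i => (‖b i - a i‖)⁻¹ • (c.q (b i) - c.q (a i))) l
      (𝓝 (c.z W₀ • c.hat W₀ v)) := by
  have hf := c.f_diff hM ha hb hab hv
  have hza : Tendsto (fun i => c.z (a i)) l (𝓝 (c.z W₀)) := (c.z_cont.tendsto W₀).comp ha
  have hzb : Tendsto (fun i => c.z (b i)) l (𝓝 (c.z W₀)) := (c.z_cont.tendsto W₀).comp hb
  have hv' : Tendsto (fun i => (((‖b i - a i‖)⁻¹ • (b i - a i) : (ℝ ∙ n)ᗮ) : V)) l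
      (𝓝 (v : V)) := (continuous_subtype_val.tendsto v).comp hv
  have ha' : Tendsto (fun i => (a i : V)) l (𝓝 (W₀ : V)) :=
    (continuous_subtype_val.tendsto W₀).comp ha
  have h1 := (hzb.smul hv').sub (((hza.mul hzb).mul hf).smul (ha'.sub (tendsto_const_nhds (x := n))))
  have h2 : c.z W₀ • (v : V) - (c.z W₀ * c.z W₀ * ⟪c.s W₀, v⟫) • ((W₀ : V) - n) =
      c.z W₀ • c.hat W₀ v := by
    rw [hat_apply, s_inner, q_sub]
    module
  rw [h2] at h1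
  refine h1.congr fun i => ?_
  have h3 : c.z (a i) * c.z (b i) * ((‖b i - a i‖)⁻¹ * (c.f (b i) - c.f (a i))) =
      (‖b i - a i‖)⁻¹ * (c.z (a i) - c.z (b i)) := by
    have e1 := c.z_mul_f (a i)
    have e2 := c.z_mul_f (b i)
    linear_combination (‖b i - a i‖)⁻¹ * (c.z (a i)) * e2 - (‖b i - a i‖)⁻¹ * (c.z (b i)) * e1
  rw [h3]
  exact q_diff_alg p (a i : V) (b i : V) n (c.z (a i)) (c.z (b i)) (‖b i - a i‖)⁻¹

theorem rel {K : Set V} {η : V → V} (C : Cfg M K η) {ι : Type*} (𝒰 : Ultrafilter ι)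
    {a b : ι → (ℝ ∙ n)ᗮ} {W₀ v δ : (ℝ ∙ n)ᗮ} (ha : Tendsto a 𝒰 (𝓝 W₀))
    (hb : Tendsto b 𝒰 (𝓝 W₀)) (hab : ∀ i, a i ≠ b i)
    (hv : Tendsto (fun i => (‖b i - a i‖)⁻¹ • (b i - a i)) 𝒰 (𝓝 v))
    (hδ : Tendsto (fun i => (‖c.s (b i) - c.s (a i)‖)⁻¹ • (c.s (b i) - c.s (a i))) 𝒰 (𝓝 δ)) :
    c.Rel K η W₀ v δ := by
  intro e he hδe t ht hx
  obtain ⟨x, hxt, hxe⟩ := c.exit_seq C 𝒰 ha hb hab hδ he hδe ht hx
  have h1 : Tendsto (fun i => η (x i)) 𝒰 (𝓝 (η (c.q W₀ + t • c.hat W₀ e))) := by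
    have h2 := C.eta_continuousOn _ hx
    have h3 : Tendsto x 𝒰 (𝓝[frontier K] (c.q W₀ + t • c.hat W₀ e)) :=
      tendsto_nhdsWithin_iff.2 ⟨hxt, hxe.mono fun i hi => hi.1⟩
    exact h2.tendsto.comp h3
  have h2 := Tendsto.inner (𝕜 := ℝ) h1 (c.q_diff C.bM ha hb hab hv)
  have h3 : ∀ᶠ i in (𝒰 : Filter ι),
      ⟪η (x i), (‖b i - a i‖)⁻¹ • (c.q (b i) - c.q (a i))⟫ = 0 := by
    filter_upwards [hxe] with i hi
    have g1 : c.q (a i) ∈ Gz M (x i) := ⟨c.σ (a i), c.σ_ne _, c.q_nor _, by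
      have e1 := hi.2.1
      have e2 := c.σ_q (a i)
      rw [inner_sub_right] at e1 e2
      linarith⟩
    have g2 : c.q (b i) ∈ Gz M (x i) := ⟨c.σ (b i), c.σ_ne _, c.q_nor _, by
      have e1 := hi.2.2
      have e2 := c.σ_q (b i)
      rw [inner_sub_right] at e1 e2
      linarith⟩
    rw [real_inner_smul_right, C.inner_eta_sub hi.1 g1 g2, mul_zero]
  have h4 : ⟪η (c.q W₀ + t • c.hat W₀ e), c.z W₀ • c.hat W₀ v⟫ = 0 := by
    have h5 : Tendsto (fun i => ⟪η (x i), (‖b i - a i‖)⁻¹ • (c.q (b i) - c.q (a i))⟫) 𝒰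
        (𝓝 0) := by
      refine Tendsto.congr' ?_ (tendsto_const_nhds (x := (0:ℝ)))
      filter_upwards [h3] with i hi using hi.symm
    exact tendsto_nhds_unique h2 h5
  rw [real_inner_smul_right] at h4
  exact (mul_eq_zero.1 h4).resolve_left (c.z_pos _).ne'

include c in
theorem finrank_P (hd : Module.finrank ℝ V = 3) : Module.finrank ℝ (ℝ ∙ n)ᗮ = 2 := by
  have : Fact (Module.finrank ℝ V = 2 + 1) := ⟨hd⟩
  exact Submodule.finrank_orthogonal_span_singleton c.n_ne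

/-- an exit point in the tangent plane -/
theorem exit_in_plane {K : Set V} {η : V → V} (C : Cfg M K η) (W : (ℝ ∙ n)ᗮ)
    {e : (ℝ ∙ n)ᗮ} (he : e ≠ 0) : ∃ t : ℝ, 0 < t ∧ c.q W + t • c.hat W e ∈ frontier K := by
  apply exit_exists C.bK (C.sub (C.bM.mem_of_frontier (c.q_frontier W)))
  exact fun h => he (c.hat_inj W (by rw [h, map_zero]))

theorem eta_hat {K : Set V} {η : V → V} (C : Cfg M K η) {W e : (ℝ ∙ n)ᗮ} {t : ℝ}
    (hx : c.q W + t • c.hat W e ∈ frontier K) :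
    t * ⟪η (c.q W + t • c.hat W e), c.hat W e⟫ = -1 := by
  have h1 : c.q W ∈ Gz M (c.q W + t • c.hat W e) := ⟨c.σ W, c.σ_ne W, c.q_nor W, by
    rw [inner_add_right, real_inner_smul_right, σ_hat]; ring⟩
  have h2 := C.flat _ hx _ h1
  have e1 : c.q W - (c.q W + t • c.hat W e) = -(t • c.hat W e) := by abel
  rw [e1, inner_neg_right, real_inner_smul_right] at h2
  linarith

/-- in dimension two, vectors killed by a nonzero functional are proportional -/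
theorem _root_.Pool.Agent.N553.FG.ker_unique {P : Type*} [NormedAddCommGroup P]
    [InnerProductSpace ℝ P] [FiniteDimensional ℝ P] (hd : Module.finrank ℝ P = 2)
    (φ : P →ₗ[ℝ] ℝ) {e v v' : P} (he : φ e ≠ 0) (hv : v ≠ 0) (h1 : φ v = 0) (h2 : φ v' = 0) :
    ∃ k : ℝ, v' = k • v := by
  have hr : Module.finrank ℝ (LinearMap.range φ) = 1 := by
    have : LinearMap.range φ = ⊤ := by
      rw [LinearMap.range_eq_top]
      apply LinearMap.surjective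
      intro h0; apply he; rw [h0, LinearMap.zero_apply]
    rw [this, finrank_top]; exact Module.finrank_self ℝ
  have hk : Module.finrank ℝ (LinearMap.ker φ) = 1 := by
    have := LinearMap.finrank_range_add_finrank_ker φ
    omega
  have hv' : (⟨v, h1⟩ : LinearMap.ker φ) ≠ 0 := fun h => hv (congrArg Subtype.val h)
  obtain ⟨k, hk'⟩ := (finrank_eq_one_iff_of_nonzero' _ hv').1 hk ⟨v', h2⟩
  exact ⟨k, (congrArg Subtype.val hk').symm⟩

theorem Rel.smul {K : Set V} {η : V → V} {W₀ v δ : (ℝ ∙ n)ᗮ} {c : Chart M p n} (a b : ℝ)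
    (hb : b ≠ 0) (h : c.Rel K η W₀ v δ) : c.Rel K η W₀ (a • v) (b • δ) := by
  intro e he hδe t ht hx
  rw [map_smul, real_inner_smul_right, h e he ?_ t ht hx, mul_zero]
  rw [real_inner_smul_left] at hδe
  exact (mul_eq_zero.1 hδe).resolve_left hb

theorem Rel.left_unique {K : Set V} {η : V → V} (C : Cfg M K η) {W₀ v v' δ : (ℝ ∙ n)ᗮ}
    {c : Chart M p n} (hv : v ≠ 0) (h : c.Rel K η W₀ v δ)
    (h' : c.Rel K η W₀ v' δ) : ∃ k : ℝ, v' = k • v := by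
  obtain ⟨e, he, hδe⟩ := exists_perp1 (c.finrank_P C.dim) δ
  obtain ⟨t, ht, hx⟩ := c.exit_in_plane C W₀ he
  have h1 := h e he hδe t ht hx
  have h2 := h' e he hδe t ht hx
  have h3 := c.eta_hat C hx
  set φ : (ℝ ∙ n)ᗮ →ₗ[ℝ] ℝ := (innerₗ V (η (c.q W₀ + t • c.hat W₀ e))) ∘ₗ c.hat W₀ with hφ
  have hφ' : ∀ w, φ w = ⟪η (c.q W₀ + t • c.hat W₀ e), c.hat W₀ w⟫ := fun w => rfl
  refine ker_unique (c.finrank_P C.dim) φ (e := e) ?_ hv (by rw [hφ', h1]) (by rw [hφ', h2])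
  rw [hφ']
  intro h0
  rw [h0] at h3
  norm_num at h3

theorem Rel.right_unique {K : Set V} {η : V → V} (C : Cfg M K η) {W₀ v δ δ' : (ℝ ∙ n)ᗮ}
    {c : Chart M p n} (hv : v ≠ 0) (hδ : δ ≠ 0) (h : c.Rel K η W₀ v δ)
    (h' : c.Rel K η W₀ v δ') : ∃ k : ℝ, δ' = k • δ := by
  obtain ⟨e, he, hδe⟩ := exists_perp1 (c.finrank_P C.dim) δ
  obtain ⟨e', he', hδe'⟩ := exists_perp1 (c.finrank_P C.dim) δ'
  obtain ⟨t, ht, hx⟩ := c.exit_in_plane C W₀ he
  obtain ⟨t', ht', hx'⟩ := c.exit_in_plane C W₀ he'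
  have h1 := h e he hδe t ht hx
  have h2 := h' e' he' hδe' t' ht' hx'
  by_contra hcon
  push Not at hcon
  -- e and e' are independent
  have hee : NP e e' := by
    refine np_of_not_smul he fun k hk => ?_
    have hk0 : k ≠ 0 := by rintro rfl; rw [zero_smul] at hk; exact he' hk
    have h4 : ⟪δ', e⟫ = 0 := by
      rw [hk, real_inner_smul_right] at hδe'
      exact (mul_eq_zero.1 hδe').resolve_left hk0
    obtain ⟨k', hk'⟩ := ker_unique (c.finrank_P C.dim) (innerₗ _ e) (e := e) (v := δ) (v' := δ')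
      (by simp only [innerₗ_apply_apply]; exact (real_inner_self_pos.2 he).ne') hδ
      (by simp only [innerₗ_apply_apply]; rw [real_inner_comm]; exact hδe)
      (by simp only [innerₗ_apply_apply]; rw [real_inner_comm]; exact h4)
    exact hcon k' hk'
  have hσx : ∀ (t : ℝ) (e : (ℝ ∙ n)ᗮ), ⟪c.σ W₀, c.q W₀ + t • c.hat W₀ e⟫ = ⟪c.σ W₀, c.q W₀⟫ := by
    intro t e
    rw [inner_add_right, real_inner_smul_right, σ_hat]; ring
  have hcomb : ∀ α β : ℝ, α • c.hat W₀ e + β • c.hat W₀ e' = 0 → α = 0 ∧ β = 0 := by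
    intro α β hαβ
    apply hee α β
    apply c.hat_inj W₀
    rw [map_add, map_smul, map_smul, hαβ, map_zero]
  refine C.plane_inj (v := c.hat W₀ v) hx hx' (c.σ_ne W₀) (c.q_nor W₀) (hσx t e) (hσx t' e')
    ?_ ?_ ?_ (c.σ_hat W₀ v) h1 h2
  · intro heq
    have h5 : t • c.hat W₀ e + (-t') • c.hat W₀ e' = 0 := by
      rw [neg_smul, add_neg_eq_zero]
      exact add_left_cancel heq
    exact ht.ne' (hcomb _ _ h5).1
  · intro τ hτ
    have h5 : ((1 - τ) * t) • c.hat W₀ e + (τ * t') • c.hat W₀ e' = 0 := by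
      have h6 : c.q W₀ + (((1 - τ) * t) • c.hat W₀ e + (τ * t') • c.hat W₀ e') = c.q W₀ := by
        nth_rewrite 2 [← hτ]
        module
      simpa using h6
    obtain ⟨h6, h7⟩ := hcomb _ _ h5
    have h8 : 1 - τ = 0 := (mul_eq_zero.1 h6).resolve_right ht.ne'
    have h9 : τ = 0 := (mul_eq_zero.1 h7).resolve_right ht'.ne'
    rw [h9] at h8
    norm_num at h8
  · exact fun h => hv (c.hat_inj W₀ (by rw [h, map_zero]))

theorem exists_S {K : Set V} {η : V → V} (C : Cfg M K η) (W₀ : (ℝ ∙ n)ᗮ) :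
    ∃ S : (ℝ ∙ n)ᗮ →ₗ[ℝ] (ℝ ∙ n)ᗮ, (∀ a b, ⟪S a, b⟫ = ⟪a, S b⟫) ∧
      (∀ a, a ≠ 0 → 0 < ⟪S a, a⟫) ∧ ∀ a, a ≠ 0 → c.Rel K η W₀ a (S a) := by
  refine lin_of_rel (c.finrank_P C.dim) c.f c.s W₀ (c.subg C.bM) (c.s_inj C) (c.Rel K η W₀)
    ?_ ?_ ?_ ?_
  · intro 𝒰 a b v δ ha hb hab hv hδ
    exact c.rel C 𝒰 ha hb hab hv hδ
  · intro v δ a b hb h
    exact h.smul a b hb
  · intro v v' δ hv _ h h'
    exact h.left_unique C hv h'
  · intro v δ δ' hv hδ _ h h'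
    exact h.right_unique C hv hδ h'

end Chart

end Pool.Agent.N553.FG
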