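import Pool.Agent.N553.FG.Core

set_option autoImplicit false
set_option linter.unusedSectionVars false

open Set Filter Topology Metric
open scoped RealInnerProductSpace

namespace Pool.Agent.N553.FG

variable {V : Type*} [NormedAddCommGroup V] [InnerProductSpace ℝ V] [FiniteDimensional ℝ V]

/-- in dimension three, two vectors orthogonal to two independent vectors are proportional -/
theorem perp_unique (hd : Module.finrank ℝ V = 3) {a b c d : V}
    (hab : LinearIndependent ℝ ![a, b]) (hc : c ≠ 0) (h1 : ⟪a, c⟫ = 0) (h2 : ⟪b, c⟫ = 0)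
    (h3 : ⟪a, d⟫ = 0) (h4 : ⟪b, d⟫ = 0) : ∃ k : ℝ, d = k • c := by
  have hf : Module.finrank ℝ (Submodule.span ℝ (Set.range ![a, b])) = 2 := by
    rw [finrank_span_eq_card hab]; simp
  have hf2 : Module.finrank ℝ (Submodule.span ℝ (Set.range ![a, b]))ᗮ = 1 := by
    have := Submodule.finrank_add_finrank_orthogonal (Submodule.span ℝ (Set.range ![a, b]))
    rw [hf, hd] at this
    omega
  have hm : ∀ e : V, ⟪a, e⟫ = 0 → ⟪b, e⟫ = 0 → e ∈ (Submodule.span ℝ (Set.range ![a, b]))ᗮ := by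
    intro e h5 h6
    rw [Submodule.mem_orthogonal]
    intro u hu
    induction hu using Submodule.span_induction with
    | mem x hx =>
      obtain ⟨i, rfl⟩ := hx
      fin_cases i
      · exact h5
      · exact h6
    | zero => exact inner_zero_left _
    | add x y _ _ hx hy => rw [inner_add_left, hx, hy, add_zero]
    | smul t x _ hx => rw [real_inner_smul_left, hx, mul_zero]
  have hc' : (⟨c, hm c h1 h2⟩ : (Submodule.span ℝ (Set.range ![a, b]))ᗮ) ≠ 0 := by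
    intro h
    exact hc (congrArg Subtype.val h)
  obtain ⟨k, hk⟩ := (finrank_eq_one_iff_of_nonzero' _ hc').1 hf2 ⟨d, hm d h3 h4⟩
  exact ⟨k, (congrArg Subtype.val hk).symm⟩

namespace Cfg

variable {M K : Set V} {η : V → V} (C : Cfg M K η)
include C

/-- the boundary of `M` is smooth -/
theorem smooth {p n n' : V} (hn0 : n ≠ 0) (hn0' : n' ≠ 0) (hn : Nor M p n) (hn' : Nor M p n') :
    ∃ c : ℝ, 0 < c ∧ n' = c • n := by
  obtain ⟨o, ho⟩ := C.bM.int
  set c₀ := o - p with hc₀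
  have hneg : ∀ m : V, m ≠ 0 → Nor M p m → ⟪m, c₀⟫ < 0 := by
    intro m hm hmn
    have := lt_hh C.bM ho hm
    rw [hmn.hh_eq] at this
    rw [hc₀, inner_sub_right]
    linarith
  obtain ⟨ρ, hρ, hball⟩ := Metric.nhds_basis_closedBall.mem_iff.1 (mem_interior_iff_mem_nhds.1 ho)
  have hbd : ∀ m : V, Nor M p m → ρ * ‖m‖ ≤ -⟪m, c₀⟫ := by
    intro m hm
    by_cases h0 : m = 0
    · rw [h0]; simp
    · have hmn : 0 < ‖m‖ := norm_pos_iff.2 h0
      have hz : o + (ρ / ‖m‖) • m ∈ M := by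
        apply hball
        rw [mem_closedBall, dist_eq_norm, add_sub_cancel_left, norm_smul, Real.norm_eq_abs,
          abs_of_pos (by positivity), div_mul_cancel₀ _ hmn.ne']
      have := hm.2 _ hz
      rw [inner_add_right, real_inner_smul_right, real_inner_self_eq_norm_sq] at this
      rw [hc₀, inner_sub_right]
      have e : ρ / ‖m‖ * ‖m‖ ^ 2 = ρ * ‖m‖ := by field_simp
      rw [e] at this
      linarith
  -- the base of the normal cone
  set B : Set V := {m | Nor M p m ∧ ⟪m, c₀⟫ = -1} with hB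
  have hBcl : IsClosed B := by
    have h1 : B = {m | p ∈ M ∧ ∀ z ∈ M, ⟪m, z⟫ ≤ ⟪m, p⟫} ∩ {m | ⟪m, c₀⟫ = -1} := rfl
    rw [h1]
    refine IsClosed.inter ?_ (isClosed_eq (by fun_prop) continuous_const)
    have h2 : {m : V | p ∈ M ∧ ∀ z ∈ M, ⟪m, z⟫ ≤ ⟪m, p⟫} =
        ⋂ z ∈ M, {m : V | ⟪m, z⟫ ≤ ⟪m, p⟫} := by
      ext m
      simp only [mem_setOf_eq, mem_iInter]
      exact ⟨fun h z hz => h.2 z hz, fun h => ⟨hn.1, h⟩⟩
    rw [h2]
    exact isClosed_biInter fun z _ => isClosed_le (by fun_prop) (by fun_prop)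
  have hBsub : B ⊆ closedBall 0 (1 / ρ) := by
    intro m hm
    rw [mem_closedBall_zero_iff, le_div_iff₀ hρ, mul_comm]
    have := hbd m hm.1
    rw [hm.2] at this
    linarith
  have hBc : IsCompact B := (isCompact_closedBall _ _).of_isClosed_subset hBcl hBsub
  have hscale : ∀ m : V, m ≠ 0 → Nor M p m → (-⟪m, c₀⟫)⁻¹ • m ∈ B := by
    intro m hm hmn
    have h1 := hneg m hm hmn
    refine ⟨hmn.smul (by rw [inv_nonneg]; linarith), ?_⟩
    rw [real_inner_smul_left]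
    have : ⟪m, c₀⟫ ≠ 0 := h1.ne
    field_simp
  obtain ⟨b₀, hb₀, hmax⟩ := hBc.exists_isMaxOn ⟨_, hscale n hn0 hn⟩ (f := fun m => ‖m‖)
    continuous_norm.continuousOn
  have hb₀0 : b₀ ≠ 0 := by
    rintro rfl
    have := hb₀.2
    rw [inner_zero_left] at this
    norm_num at this
  suffices hsub : ∀ m ∈ B, m = b₀ by
    have h1 := hsub _ (hscale n hn0 hn)
    have h2 := hsub _ (hscale n' hn0' hn')
    have h3 := hneg n hn0 hn
    have h4 := hneg n' hn0' hn'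
    refine ⟨(-⟪n', c₀⟫) * (-⟪n, c₀⟫)⁻¹, mul_pos (by linarith) (inv_pos.2 (by linarith)), ?_⟩
    rw [mul_smul, h1, ← h2, smul_smul, mul_inv_cancel₀ (by linarith : -⟪n', c₀⟫ ≠ 0), one_smul]
  intro n₂ hn₂
  by_contra hne
  set v₀ := b₀ + (‖b₀‖ ^ 2) • c₀ with hv₀
  have hBv : ∀ b ∈ B, ⟪b, v₀⟫ = ⟪b, b₀⟫ - ‖b₀‖ ^ 2 := by
    intro b hb
    rw [hv₀, inner_add_right, real_inner_smul_right, hb.2]; ring
  have hBle : ∀ b ∈ B, ⟪b, v₀⟫ ≤ 0 := by
    intro b hb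
    rw [hBv b hb]
    have h1 : ‖b‖ ≤ ‖b₀‖ := hmax hb
    have h2 := real_inner_le_norm b b₀
    nlinarith [norm_nonneg b₀, norm_nonneg b]
  have hBeq : ∀ b ∈ B, ⟪b, v₀⟫ = 0 → b = b₀ := by
    intro b hb h0
    rw [hBv b hb] at h0
    have h1 : ‖b‖ ≤ ‖b₀‖ := hmax hb
    have h2 : ‖b - b₀‖ ^ 2 ≤ 0 := by
      rw [norm_sub_sq_real]
      nlinarith [norm_nonneg b₀, norm_nonneg b]
    have h3 : ‖b - b₀‖ = 0 := by
      have := sq_nonneg ‖b - b₀‖
      exact pow_eq_zero_iff (two_ne_zero) |>.1 (le_antisymm h2 this)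
    rwa [norm_eq_zero, sub_eq_zero] at h3
  have hNeq : ∀ m : V, Nor M p m → ⟪m, v₀⟫ = 0 → ∃ r : ℝ, m = r • b₀ := by
    intro m hm h0
    by_cases hm0 : m = 0
    · exact ⟨0, by rw [hm0, zero_smul]⟩
    · have h1 := hneg m hm0 hm
      have h2 := hBeq _ (hscale m hm0 hm) (by rw [real_inner_smul_left, h0, mul_zero])
      refine ⟨-⟪m, c₀⟫, ?_⟩
      rw [← h2, smul_smul, mul_inv_cancel₀ (by linarith : -⟪m, c₀⟫ ≠ 0), one_smul]
  have hn₂v : ⟪n₂, v₀⟫ < 0 := lt_of_le_of_ne (hBle n₂ hn₂) fun h => hne (hBeq n₂ hn₂ h)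
  have hb₀v : ⟪b₀, v₀⟫ = 0 := by
    rw [hBv b₀ hb₀, real_inner_self_eq_norm_sq]; ring
  have hv₀0 : v₀ ≠ 0 := by
    intro h; rw [h, inner_zero_right] at hn₂v; exact lt_irrefl _ hn₂v
  -- general statement: exit point in a direction orthogonal to b₀
  have hproj : ∀ v : V, ∀ t : ℝ, 0 < t → p + t • v ∈ frontier K → ⟪b₀, v⟫ = 0 →
      t * ⟪η (p + t • v), v⟫ = -1 ∧ ∀ m, Nor M p m →
        Nor M p (m + (t * ⟪m, v⟫) • η (p + t • v)) ∧
          ⟪m + (t * ⟪m, v⟫) • η (p + t • v), v⟫ = 0 := by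
    intro v t ht hx hbv
    have hp : p ∈ Gz M (p + t • v) := ⟨b₀, hb₀0, hb₀.1, by
      rw [inner_add_right, real_inner_smul_right, hbv, mul_zero, add_zero]⟩
    have h1 := C.flat _ hx p hp
    have h2 : t * ⟪η (p + t • v), v⟫ = -1 := by
      have e : p - (p + t • v) = -(t • v) := by abel
      rw [e, inner_neg_right, real_inner_smul_right] at h1
      linarith
    refine ⟨h2, fun m hm => ?_⟩
    have h3 := C.nor_proj hx hp hm
    have e : ⟪m, p + t • v - p⟫ = t * ⟪m, v⟫ := by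
      rw [add_sub_cancel_left, real_inner_smul_right]
    rw [e] at h3
    refine ⟨h3, ?_⟩
    rw [inner_add_left, real_inner_smul_left]
    linear_combination ⟪m, v⟫ * h2
  obtain ⟨t₀, ht₀, hx₀⟩ := exit_exists C.bK (C.sub hn.1) hv₀0
  obtain ⟨h1, h2⟩ := hproj v₀ t₀ ht₀ hx₀ hb₀v
  obtain ⟨u, hu, hub, hun⟩ := exists_perp2 C.dim b₀ n₂
  have hηu : ⟪η (p + t₀ • v₀), u⟫ = 0 := by
    obtain ⟨h3, h4⟩ := h2 n₂ hn₂.1
    obtain ⟨r, hr⟩ := hNeq _ h3 h4
    have h5 : ⟪n₂ + (t₀ * ⟪n₂, v₀⟫) • η (p + t₀ • v₀), u⟫ = 0 := by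
      rw [hr, real_inner_smul_left, hub, mul_zero]
    rw [inner_add_left, real_inner_smul_left, hun, zero_add] at h5
    exact (mul_eq_zero.1 h5).resolve_left (mul_ne_zero ht₀.ne' hn₂v.ne)
  have hNu : ∀ m, Nor M p m → ⟪m, u⟫ = 0 := by
    intro m hm
    obtain ⟨h3, h4⟩ := h2 m hm
    obtain ⟨r, hr⟩ := hNeq _ h3 h4
    have h5 : ⟪m + (t₀ * ⟪m, v₀⟫) • η (p + t₀ • v₀), u⟫ = 0 := by
      rw [hr, real_inner_smul_left, hub, mul_zero]
    rwa [inner_add_left, real_inner_smul_left, hηu, mul_zero, add_zero] at h5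
  obtain ⟨c, hc, hηc⟩ := C.eta_bounded
  obtain ⟨D, hD⟩ := C.bK.cpt.isBounded.subset_closedBall p
  have hD0 : 0 ≤ D := by
    have := hD (interior_subset (C.sub hn.1))
    rw [mem_closedBall, dist_self] at this
    exact this
  have hun0 : 0 < ‖u‖ := norm_pos_iff.2 hu
  have hv₀n : 0 < ‖v₀‖ := norm_pos_iff.2 hv₀0
  -- the small parameter
  set ε := min (‖u‖ / (2 * ‖v₀‖)) (‖u‖ / (4 * (D + 1) * c * ‖v₀‖)) with hε
  have hε0 : 0 < ε := by positivity
  have hε1 : ε * ‖v₀‖ ≤ ‖u‖ / 2 := by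
    have : ε ≤ ‖u‖ / (2 * ‖v₀‖) := min_le_left _ _
    calc ε * ‖v₀‖ ≤ ‖u‖ / (2 * ‖v₀‖) * ‖v₀‖ := mul_le_mul_of_nonneg_right this hv₀n.le
      _ = ‖u‖ / 2 := by field_simp
  have hε2 : ε * (4 * (D + 1) * c * ‖v₀‖) ≤ ‖u‖ := by
    have : ε ≤ ‖u‖ / (4 * (D + 1) * c * ‖v₀‖) := min_le_right _ _
    rwa [le_div_iff₀ (by positivity)] at this
  set v := u + ε • v₀ with hv
  have hn₂v' : ⟪n₂, v⟫ = ε * ⟪n₂, v₀⟫ := by
    rw [hv, inner_add_right, hun, real_inner_smul_right, zero_add]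
  have hv0 : v ≠ 0 := by
    intro h
    rw [h, inner_zero_right] at hn₂v'
    exact (mul_ne_zero hε0.ne' hn₂v.ne) hn₂v'.symm
  have hbv : ⟪b₀, v⟫ = 0 := by
    rw [hv, inner_add_right, hub, real_inner_smul_right, hb₀v]; ring
  obtain ⟨t, ht, hx⟩ := exit_exists C.bK (C.sub hn.1) hv0
  obtain ⟨h3, h4⟩ := hproj v t ht hx hbv
  obtain ⟨h5, h6⟩ := h4 n₂ hn₂.1
  have h7 : ⟪n₂ + (t * ⟪n₂, v⟫) • η (p + t • v), v₀⟫ = 0 := by
    rw [hv, inner_add_right, ← hv, hNu _ h5, zero_add, real_inner_smul_right] at h6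
    exact (mul_eq_zero.1 h6).resolve_left hε0.ne'
  have h8 : ⟪η (p + t • v), u⟫ = 0 := by
    have h9 := hNu _ h5
    rw [inner_add_left, real_inner_smul_left, hun, zero_add, hn₂v'] at h9
    exact (mul_eq_zero.1 h9).resolve_left
      (mul_ne_zero ht.ne' (mul_ne_zero hε0.ne' hn₂v.ne))
  have h10 : t * (ε * ⟪η (p + t • v), v₀⟫) = -1 := by
    rw [hv, inner_add_right, ← hv, h8, real_inner_smul_right, zero_add] at h3
    exact h3
  have h11 : |⟪η (p + t • v), v₀⟫| ≤ c * ‖v₀‖ :=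
    (abs_real_inner_le_norm _ _).trans (mul_le_mul_of_nonneg_right (hηc _ hx) hv₀n.le)
  have h12 : t * ‖v‖ ≤ D := by
    have := hD (C.bK.cpt.isClosed.frontier_subset hx)
    rwa [mem_closedBall, dist_eq_norm, add_sub_cancel_left, norm_smul, Real.norm_eq_abs,
      abs_of_pos ht] at this
  have h13 : ‖u‖ / 2 ≤ ‖v‖ := by
    have h14 : ‖u‖ ≤ ‖v‖ + ‖ε • v₀‖ := by
      have := norm_sub_le v (ε • v₀)
      rwa [hv, add_sub_cancel_right] at this
    rw [norm_smul, Real.norm_eq_abs, abs_of_pos hε0] at h14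
    linarith
  have h15 : t * ‖u‖ ≤ 2 * D := by
    have := mul_le_mul_of_nonneg_left h13 ht.le
    linarith
  have h16 : 1 ≤ t * ε * (c * ‖v₀‖) := by
    have h17 : -⟪η (p + t • v), v₀⟫ ≤ c * ‖v₀‖ := (neg_le_abs _).trans h11
    have h18 := mul_le_mul_of_nonneg_left h17 (mul_pos ht hε0).le
    nlinarith
  have h19 : t * ε * (c * ‖v₀‖) * (4 * (D + 1)) ≤ t * ‖u‖ := by
    have := mul_le_mul_of_nonneg_left hε2 ht.le
    nlinarith
  nlinarith

end Cfg

end Pool.Agent.N553.FG
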